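import Pool.Agent.MP_f7db47_al.GN.LBasic

/-!
Automorphisms that fix a lattice have integral characteristic polynomial.
-/

namespace Pool.Agent.MP_f7db47_al.GN

open Pl

theorem GB_lat {P : Pl} {n : ℕ} {Y : P.L n} (hY : Lat Y) : Submodule.IsLattice P.K Y := by
  obtain ⟨a, h1, h2⟩ := hY
  have h0 : (P.L0 n).FG :=
    Submodule.fg_pi fun _ => Submodule.one_eq_span (R := P.O) (A := P.K) ▸
      Submodule.fg_span_singleton _
  have h3 : (sc (-(a : ℤ)) (P.L0 n)).FG := h0.map _
  refine ⟨h3.of_le h2, eq_top_iff.2 fun x _ => ?_⟩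
  obtain ⟨e, he⟩ := LBasic_den fun _ : Unit => x
  have h4 : P.π ^ a • P.π ^ e • x ∈ Submodule.span P.K (Y : Set (P.V n)) :=
    Submodule.subset_span (h1 (LBasic_nat.2 ⟨_, he (), rfl⟩))
  rw [smul_smul, ← pow_add, ← algebraMap_smul P.K] at h4
  exact (Submodule.smul_mem_iff _ ((map_ne_zero_iff _ (IsFractionRing.injective P.O P.K)).2
    (pow_ne_zero _ P.hπ.ne_zero))).1 h4

theorem GB_char {P : Pl} {n : ℕ} (u : P.A n) {Y : P.L n} (hY : Lat Y) (hu : ac u Y = Y) (i : ℕ) :
    ∃ a : P.O, algebraMap P.O P.K a = u.toLinearMap.charpoly.coeff i := by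
  classical
  have := GB_lat hY
  let b := Module.Free.chooseBasis P.O Y
  have hm : ∀ x ∈ Y, (u.toLinearMap.restrictScalars P.O) x ∈ Y := fun x hx => by
    rw [← hu, mem_ac]
    simpa using hx
  let f : Y →ₗ[P.O] Y := (u.toLinearMap.restrictScalars P.O).restrict hm
  have hr : ∀ (y : Y) k, (b.extendOfIsLattice P.K).repr y.1 k =
      algebraMap P.O P.K (b.repr y k) := fun y k => by
    have h1 : y.1 = ∑ j, algebraMap P.O P.K (b.repr y j) • b.extendOfIsLattice P.K j := by
      conv_lhs => rw [← b.sum_repr y]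
      rw [Submodule.coe_sum]
      refine Finset.sum_congr rfl fun j _ => ?_
      rw [Module.Basis.extendOfIsLattice_apply, algebraMap_smul, Submodule.coe_smul]
    rw [h1, Module.Basis.repr_sum_self]
  have he : LinearMap.toMatrix (b.extendOfIsLattice P.K) (b.extendOfIsLattice P.K) u.toLinearMap =
      (LinearMap.toMatrix b b f).map (algebraMap P.O P.K) := by
    ext j k
    rw [Matrix.map_apply, LinearMap.toMatrix_apply, LinearMap.toMatrix_apply, ← hr,
      Module.Basis.extendOfIsLattice_apply]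
    rfl
  rw [← LinearMap.charpoly_toMatrix _ (b.extendOfIsLattice P.K), he, Matrix.charpoly_map,
    Polynomial.coeff_map]
  exact ⟨_, rfl⟩

open scoped WithZero in
theorem exists_place {L : Type} [Field L] (v : Valuation L ℤᵐ⁰)
    (hv : ∃ π, v π = WithZero.exp (-1)) (n : ℕ) :
    ∃ (P : Pl) (ρ : GL (Fin n) L →* P.A n), ∀ g : GL (Fin n) L,
      (∃ Y, Lat Y ∧ ac (ρ g) Y = Y) → ∀ i, v (g.val.charpoly.coeff i) ≤ 1 := by
  obtain ⟨π, hπ⟩ := hv
  have : v.IsNontrivial := ⟨π, by simp [hπ], by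
    rw [hπ, ← WithZero.exp_zero, ne_eq, WithZero.exp_inj]
    decide⟩
  obtain ⟨ϖ, hϖ⟩ := IsDiscreteValuationRing.exists_irreducible v.valuationSubring
  let P : Pl := { O := v.valuationSubring, K := L, π := ϖ, hπ := hϖ }
  refine ⟨P, ((Matrix.GeneralLinearGroup.toLin (n := Fin n) (R := L)).trans
    (LinearMap.GeneralLinearGroup.generalLinearEquiv L (Fin n → L))).toMonoidHom,
    fun g ⟨Y, hY, hu⟩ i => ?_⟩
  obtain ⟨a, ha⟩ := GB_char _ hY hu i
  have h1 : v (g.val.toLin'.charpoly.coeff i) ≤ 1 := by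
    have h2 : (a.1 : L) = g.val.toLin'.charpoly.coeff i := ha
    rw [← h2]
    exact a.2
  rwa [Matrix.charpoly_toLin'] at h1

end Pool.Agent.MP_f7db47_al.GN
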