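import Pool.Agent.MP_f7db47_al.GN.AIso

/-!
Cutting a controlled isomorphism along the first spider.
-/

namespace Pool.Agent.MP_f7db47_al.GN

open Matrix

set_option linter.unusedSectionVars false

universe v

variable {R : Type v} [Ring R] {G : Type} [Group G] {Λ : Type}

section Arith

variable {w k h h' : ℕ}

theorem ACut_div {a q : ℕ} (h1 : q * w ≤ a) (h2 : a < q * w + w) : a / w = q :=
  Nat.div_eq_of_lt_le h1 (by rw [Nat.succ_mul]; exact h2)

theorem ACut_zone (hw : 5 * k < w) (hz : InZ w k h) :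
    ∃ m, (h + k) / w = m + 1 ∧ m * w + w ≤ h + k ∧ h + k < m * w + w + 2 * k := by
  obtain ⟨h1, h2⟩ := hz
  have h3 := Nat.div_add_mod' (h + k) w
  have h4 : 0 < (h + k) / w := Nat.div_pos h1 (by omega)
  obtain ⟨m, hm⟩ := Nat.exists_eq_succ_of_ne_zero h4.ne'
  rw [hm, Nat.succ_mul] at h3
  exact ⟨m, hm, by omega, by omega⟩

theorem ACut_off (hw : 5 * k < w) (hz : ¬ InZ w k h) (h1 : h' ≤ h + k) (h2 : h ≤ h' + k) :
    h' / w = h / w := by
  have h3 := Nat.div_add_mod' (h + k) w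
  have h4 : (h + k) % w < w := Nat.mod_lt _ (by omega)
  by_cases h5 : w ≤ h + k
  · have h6 : 2 * k ≤ (h + k) % w := by
      by_contra h6
      exact hz ⟨h5, by omega⟩
    rw [ACut_div (a := h') (q := (h + k) / w) (by omega) (by omega),
      ACut_div (a := h) (q := (h + k) / w) (by omega) (by omega)]
  · rw [Nat.div_eq_of_lt (by omega), Nat.div_eq_of_lt (by omega)]

theorem ACut_same (hw : 5 * k < w) (hz : InZ w k h) (hz' : InZ w k h') (h1 : h' ≤ h + 2 * k)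
    (h2 : h ≤ h' + 2 * k) : (h + k) / w = (h' + k) / w := by
  obtain ⟨m, e, a1, a2⟩ := ACut_zone hw hz
  obtain ⟨m', e', b1, b2⟩ := ACut_zone hw hz'
  rw [e, e']
  rcases lt_trichotomy m m' with c | c | c
  · have := Nat.mul_le_mul_right w (Nat.succ_le_of_lt c)
    rw [Nat.succ_mul] at this
    omega
  · rw [c]
  · have := Nat.mul_le_mul_right w (Nat.succ_le_of_lt c)
    rw [Nat.succ_mul] at this
    omega

open Classical in
/-- The slab number on the side given by `T`. -/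
noncomputable def ACut_num (T : ℕ → Prop) (w k h : ℕ) : ℕ :=
  if InZ w k h then (if T ((h + k) / w) then (h + k) / w else (h + k) / w - 1) else h / w

theorem ACut_nat_mem (hw : 5 * k < w) (h : ℕ) :
    h / w * w ≤ h + k ∧ h < (h / w + 1) * w + k := by
  have h3 := Nat.div_add_mod' h w
  have h4 : h % w < w := Nat.mod_lt _ (by omega)
  rw [Nat.succ_mul]
  omega

theorem ACut_num_mem (T : ℕ → Prop) (hw : 5 * k < w) (h : ℕ) :
    ACut_num T w k h * w ≤ h + k ∧ h < (ACut_num T w k h + 1) * w + k := by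
  unfold ACut_num
  split_ifs with h1 h2
  · obtain ⟨m, e, a1, a2⟩ := ACut_zone hw h1
    rw [e, Nat.succ_mul, Nat.succ_mul, Nat.succ_mul]
    omega
  · obtain ⟨m, e, a1, a2⟩ := ACut_zone hw h1
    rw [e, Nat.add_sub_cancel, Nat.succ_mul]
    omega
  · exact ACut_nat_mem hw h

theorem ACut_key {T : ℕ → Prop} (hT : ∀ n, T (n + 1) ↔ ¬ T n) (hw : 5 * k < w)
    (hz : InZ w k h) (h1 : h' ≤ h + k) (h2 : h ≤ h' + k) (h3 : T (h' / w)) :
    h' / w = ACut_num T w k h := by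
  obtain ⟨m, e, a1, a2⟩ := ACut_zone hw hz
  unfold ACut_num
  rw [if_pos hz, e]
  by_cases c : h' < m * w + w
  · rw [ACut_div (a := h') (q := m) (by omega) c] at h3 ⊢
    rw [if_neg fun h4 => (hT m).1 h4 h3, Nat.add_sub_cancel]
  · have e2 : h' / w = m + 1 := ACut_div (by rw [Nat.succ_mul]; omega)
      (by rw [Nat.succ_mul]; omega)
    rw [e2] at h3 ⊢
    rw [if_pos h3]

theorem ACut_num_eq (T : ℕ → Prop) (hz : InZ w k h) (hz' : InZ w k h')
    (e : (h + k) / w = (h' + k) / w) : ACut_num T w k h = ACut_num T w k h' := by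
  unfold ACut_num
  rw [if_pos hz, if_pos hz', e]

end Arith

section Dg

variable {A : Type v} [Ring A] {I J : Type}

open Classical in
/-- The diagonal matrix of a predicate. -/
noncomputable def ACut_dg (A : Type v) [Ring A] [DecidableEq I] (P : I → Prop) : Matrix I I A :=
  diagonal fun i => if P i then 1 else 0

open Classical in
theorem ACut_dg_mul [Fintype I] [DecidableEq I] (P : I → Prop) (X : Matrix I J A) (i : I) (j : J) :
    (ACut_dg A P * X) i j = if P i then X i j else 0 := by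
  simp [ACut_dg, diagonal_mul]

open Classical in
theorem ACut_mul_dg [Fintype J] [DecidableEq J] (P : J → Prop) (X : Matrix I J A) (i : I) (j : J) :
    (X * ACut_dg A P) i j = if P j then X i j else 0 := by
  simp [ACut_dg, mul_diagonal]

theorem ACut_comm [Fintype I] [DecidableEq I] [Fintype J] [DecidableEq J] {P : I → Prop}
    {Q : J → Prop} {X : Matrix I J A} (h : ∀ i j, X i j ≠ 0 → (P i ↔ Q j)) :
    ACut_dg A P * X = X * ACut_dg A Q := by
  ext1 i j
  rw [ACut_dg_mul, ACut_mul_dg]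
  by_cases h0 : X i j = 0
  · simp [h0]
  · by_cases hp : P i
    · rw [if_pos hp, if_pos ((h i j h0).1 hp)]
    · rw [if_neg hp, if_neg fun c => hp ((h i j h0).2 c)]

variable [Fintype I] [DecidableEq I]

theorem ACut_dg_comm (P Q : I → Prop) : ACut_dg A P * ACut_dg A Q = ACut_dg A Q * ACut_dg A P :=
  ACut_comm fun i j h => by
    by_cases e : i = j
    · rw [e]
    · exact absurd (diagonal_apply_ne _ e) h

theorem ACut_dg_self (P : I → Prop) : ACut_dg A P * ACut_dg A P = ACut_dg A P := by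
  ext1 i j
  rw [ACut_dg_mul]
  split_ifs with h
  · rfl
  · by_cases e : i = j
    · subst e; simp [ACut_dg, h]
    · exact (diagonal_apply_ne _ e).symm

omit [Fintype I] in
theorem ACut_dg_add (P : I → Prop) : ACut_dg A P + ACut_dg A (fun i => ¬ P i) = 1 := by
  simp only [ACut_dg, diagonal_add]
  rw [← diagonal_one]
  congr 1
  funext i
  by_cases h : P i <;> simp [h]

theorem ACut_dg_not (P : I → Prop) : ACut_dg A P * ACut_dg A (fun i => ¬ P i) = 0 := by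
  have h := congrArg (ACut_dg A P * ·) (ACut_dg_add (A := A) P)
  simpa only [mul_add, ACut_dg_self, mul_one, add_eq_left] using h

end Dg

section Sup

variable {I J : Type} {S : I → J → Set G} {X : Matrix I J (MonoidAlgebra R G)}

theorem ACut_sup_left [Fintype I] [DecidableEq I] (P : I → Prop) (h : MSup2 S X) :
    MSup2 (fun i j => {γ | P i ∧ γ ∈ S i j}) (ACut_dg (MonoidAlgebra R G) P * X) := by
  intro i j
  rw [ACut_dg_mul]
  split_ifs with c
  · exact (h i j).mono fun γ hγ => ⟨c, hγ⟩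
  · exact sup_zero _

theorem ACut_sup_right [Fintype J] [DecidableEq J] (P : J → Prop) (h : MSup2 S X) :
    MSup2 (fun i j => {γ | P j ∧ γ ∈ S i j}) (X * ACut_dg (MonoidAlgebra R G) P) := by
  intro i j
  rw [ACut_mul_dg]
  split_ifs with c
  · exact (h i j).mono fun γ hγ => ⟨c, hγ⟩
  · exact sup_zero _

theorem ACut_ex (h : MSup2 S X) {i : I} {j : J} (h0 : X i j ≠ 0) : ∃ γ, γ ∈ S i j := by
  by_contra c
  exact h0 ((h i j).eq_zero (h i j) fun γ hγ => absurd ⟨γ, hγ⟩ c)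

variable {K : Type} {r : Λ → G → Λ → Prop}

theorem ACut_rows {li : I → Λ} {lj : J → Λ} {lk : K → Λ} {X : Matrix I K (MonoidAlgebra R G)}
    {Y : Matrix J K (MonoidAlgebra R G)} (hX : Ctl r li lk X) (hY : Ctl r lj lk Y) :
    Ctl r (Sum.elim li lj) lk (fromRows X Y) := by
  rintro (i | i) j
  · exact hX i j
  · exact hY i j

theorem ACut_cols {li : I → Λ} {lj : J → Λ} {lk : K → Λ} {X : Matrix K I (MonoidAlgebra R G)}
    {Y : Matrix K J (MonoidAlgebra R G)} (hX : Ctl r lk li X) (hY : Ctl r lk lj Y) :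
    Ctl r lk (Sum.elim li lj) (fromCols X Y) := by
  rintro i (j | j)
  · exact hX i j
  · exact hY i j

end Sup

/-- The algebraic data of a stable isomorphism. -/
structure ACut_D {A : Type v} [Ring A] {I E M : Type} [Fintype I] [Fintype E] [Fintype M]
    (p : Matrix I I A) (eE : Matrix E E A) (eM : Matrix M M A) (a : Matrix M I A)
    (b : Matrix M E A) (c : Matrix I M A) (d : Matrix E M A) : Prop where
  ca : c * a = p
  cb : c * b = 0
  da : d * a = 0
  db : d * b = eE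
  m : a * c + b * d = eM
  ap : a * p = a
  be : b * eE = b
  pc : p * c = c
  ed : eE * d = d

theorem ACut_merge {A : Type v} [Ring A] {I E M E' M' : Type} [Fintype I] [Fintype E] [Fintype M]
    [Fintype E'] [Fintype M'] {p p' : Matrix I I A} {eE : Matrix E E A} {eM : Matrix M M A}
    {a : Matrix M I A} {b : Matrix M E A} {c : Matrix I M A} {d : Matrix E M A}
    {eE' : Matrix E' E' A} {eM' : Matrix M' M' A} {a' : Matrix M' I A} {b' : Matrix M' E' A}
    {c' : Matrix I M' A} {d' : Matrix E' M' A} (h : ACut_D p eE eM a b c d)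
    (h' : ACut_D p' eE' eM' a' b' c' d') (h1 : p * p' = 0) (h2 : p' * p = 0) :
    ACut_D (p + p') (fromBlocks eE 0 0 eE') (fromBlocks eM 0 0 eM') (fromRows a a')
      (fromBlocks b 0 0 b') (fromCols c c') (fromBlocks d 0 0 d') := by
  have e1 : a * p' = 0 := by rw [← h.ap, Matrix.mul_assoc, h1, Matrix.mul_zero]
  have e2 : a' * p = 0 := by rw [← h'.ap, Matrix.mul_assoc, h2, Matrix.mul_zero]
  have e3 : p' * c = 0 := by rw [← h.pc, ← Matrix.mul_assoc, h2, Matrix.zero_mul]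
  have e4 : p * c' = 0 := by rw [← h'.pc, ← Matrix.mul_assoc, h1, Matrix.zero_mul]
  have e5 : a * c' = 0 := by rw [← h'.pc, ← Matrix.mul_assoc, e1, Matrix.zero_mul]
  have e6 : a' * c = 0 := by rw [← h.pc, ← Matrix.mul_assoc, e2, Matrix.zero_mul]
  refine ⟨?_, ?_, ?_, ?_, ?_, ?_, ?_, ?_, ?_⟩
  · rw [fromCols_mul_fromRows, h.ca, h'.ca]
  · simp [fromCols_mul_fromBlocks, h.cb, h'.cb]
  · simp [fromBlocks_mul_fromRows, h.da, h'.da]
  · simp [fromBlocks_multiply, h.db, h'.db]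
  · simp [fromBlocks_multiply, fromBlocks_add, h.m, h'.m, e5, e6]
  · rw [fromRows_mul, Matrix.mul_add, Matrix.mul_add, h.ap, h'.ap, e1, e2, add_zero, zero_add]
  · simp [fromBlocks_multiply, h.be, h'.be]
  · rw [mul_fromCols, Matrix.add_mul, Matrix.add_mul, h.pc, h'.pc, e3, e4, add_zero, zero_add]
  · simp [fromBlocks_multiply, h.ed, h'.ed]

theorem ACut_of_iso {I E M : Type} [Fintype I] [Fintype E] [Fintype M] {r : Λ → G → Λ → Prop}
    {l : I ⊕ E → Λ} {lM : M → Λ} {p : Matrix I I (MonoidAlgebra R G)}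
    {eE : Matrix E E (MonoidAlgebra R G)} {eM : Matrix M M (MonoidAlgebra R G)}
    {f : Matrix M (I ⊕ E) (MonoidAlgebra R G)} {g : Matrix (I ⊕ E) M (MonoidAlgebra R G)}
    (h : Iso r l lM (fromBlocks p 0 0 eE) eM f g) :
    ACut_D p eE eM f.toCols₁ f.toCols₂ g.toRows₁ g.toRows₂ := by
  have h1 := h.gf
  have h2 := h.fg
  have h3 := h.fp
  have h4 := h.pg
  rw [← fromCols_toCols f, ← fromRows_toRows g] at h1 h2
  rw [← fromCols_toCols f] at h3
  rw [← fromRows_toRows g] at h4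
  rw [fromRows_mul_fromCols, fromBlocks_inj] at h1
  rw [fromCols_mul_fromRows] at h2
  rw [fromCols_mul_fromBlocks, fromCols_ext_iff] at h3
  rw [fromBlocks_mul_fromRows, fromRows_ext_iff] at h4
  exact ⟨h1.1, h1.2.1, h1.2.2.1, h1.2.2.2, h2, by simpa using h3.1, by simpa using h3.2,
    by simpa using h4.1, by simpa using h4.2⟩

section Main

variable {N k k₀ w : ℕ} {B : Gpd G Λ} {s : Spi G Λ} {S : Fin N → Spi G Λ}

theorem ACut_ss (hQ : Q0 R N (2 * k) k₀) (hw : 5 * k < w)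
    (hq : ∀ a, 0 < s.ht a → QQ R ↥(B.grp a ⊓ s.leg.grp a)) {I : Type} [Fintype I]
    [DecidableEq I] {l : I → Λ} {p : Matrix I I (MonoidAlgebra R G)} (hp : p * p = p)
    (hz : p * ACut_dg (MonoidAlgebra R G) (fun i => InZ w k (s.ht (l i))) = p)
    (hc : Ctl ((CR (zoneG B s w k) S).rel (2 * k)) l l p) :
    SS ((CR (zoneG B s w k) S).rel k₀) l p := by
  by_cases hex : ∃ a, InZ w k (s.ht a)
  · obtain ⟨a₀, ha₀⟩ := hex
    refine hQ G Λ _ S (fun a => ?_) I l p hp hc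
    by_cases ha : InZ w k (s.ht a)
    · have hle : (zoneG B s w k).grp a ≤ B.grp a ⊓ s.leg.grp a := by
        rintro γ ⟨h1, h2 | h2⟩
        · exact ⟨h1, h2.2.2.2⟩
        · exact ⟨h1, h2.1 ▸ s.leg.refl a⟩
      exact (hq a (by have := ha.1; omega)).sub _ (Subgroup.inclusion_injective hle)
    · refine (hq a₀ (by have := ha₀.1; omega)).sub 1 ?_
      rintro ⟨x, -, hx | hx⟩ ⟨y, -, hy | hy⟩ _
      · exact absurd hx.1 ha
      · exact absurd hx.1 ha
      · exact absurd hy.1 ha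
      · exact Subtype.ext (hx.1.trans hy.1.symm)
  · have h0 : p = 0 := by
      rw [← hz]
      ext1 i j
      rw [ACut_mul_dg, if_neg fun h => hex ⟨_, h⟩, Matrix.zero_apply]
    subst h0
    refine ⟨Empty, Empty, inferInstance, inferInstance, inferInstance, inferInstance, Empty.elim,
      Empty.elim, 1, 1, 0, 0, std_one _, std_one _, ?_, Subsingleton.elim _ _, by simp, by simp,
      ctl_zero _ _ _, ctl_zero _ _ _⟩
    ext1 i j
    rcases i with i | i
    · rcases j with j | j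
      · simp
      · exact j.elim
    · exact i.elim

/-- The natural slab of a label. -/
def ACut_nat (s : Spi G Λ) (hw : 5 * k < w) (a : Λ) : Slab s w k :=
  ⟨(a, s.ht a / w), ACut_nat_mem hw _⟩

/-- The slab of a label on the side given by `T`. -/
noncomputable def ACut_sl (T : ℕ → Prop) (s : Spi G Λ) (hw : 5 * k < w) (a : Λ) : Slab s w k :=
  ⟨(a, ACut_num T w k (s.ht a)), ACut_num_mem T hw _⟩

/-- The control relation on slabs. -/
abbrev ACut_SR (B : Gpd G Λ) (s : Spi G Λ) (S : Fin N → Spi G Λ) (w k K : ℕ) :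
    Slab s w k → G → Slab s w k → Prop :=
  (CR (slabG B s w k) fun i => (S i).pull (MonoidHom.id G) fun x => x.1.1).rel K

theorem ACut_SR_mk {K K' : ℕ} {x y : Slab s w k} {γ : G} (h : (CR B S).rel K x.1.1 γ y.1.1)
    (hK : K ≤ K') (h1 : x.1.2 = y.1.2) (h2 : x.1.2 ≠ 0 → s.leg.r x.1.1 γ y.1.1) :
    ACut_SR B s S w k K' x γ y :=
  ⟨⟨h.1, h1, h2⟩, ((CR B S).mono hK h).2⟩

theorem ACut_zone_slab (T : ℕ → Prop) (hw : 5 * k < w) {a b : Λ} {γ : G}
    (h : (CR (zoneG B s w k) S).rel k₀ a γ b) :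
    ACut_SR B s S w k (k₀ + 3 * k) (ACut_sl T s hw a) γ (ACut_sl T s hw b) := by
  refine ACut_SR_mk (K := k₀) ⟨h.1.1, h.2⟩ (by omega) ?_ fun _ => ?_
  · rcases h.1.2 with h1 | h1
    · exact ACut_num_eq T h1.1 h1.2.1 h1.2.2.1
    · rw [h1.2]
  · rcases h.1.2 with h1 | h1
    · exact h1.2.2.2
    · rw [h1.1, h1.2]
      exact s.leg.refl b

theorem ACut_leg (hw : 5 * k < w) {K : ℕ} (hK : K ≤ 2 * k) {a b : Λ} {γ : G} (h : s.rel K a γ b)
    (hz : InZ w k (s.ht a) ∨ InZ w k (s.ht b)) : s.leg.r a γ b := by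
  by_contra c
  have := h.2.2 c
  rcases hz with hz | hz <;> have := hz.1 <;> omega

theorem ACut_num_zone (T : ℕ → Prop) {a b : Λ} {γ : G} (h : (zoneG B s w k).r a γ b) :
    ACut_num T w k (s.ht a) = ACut_num T w k (s.ht b) ∧ s.leg.r a γ b := by
  rcases h.2 with h1 | h1
  · exact ⟨ACut_num_eq T h1.1 h1.2.1 h1.2.2.1, h1.2.2.2⟩
  · rw [h1.1, h1.2]
    exact ⟨rfl, s.leg.refl b⟩

variable {I J : Type} [Fintype I] [DecidableEq I] [Fintype J] [DecidableEq J] {l : I → Λ}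
  {l' : J → Λ} {e : Matrix I I (MonoidAlgebra R G)} {e' : Matrix J J (MonoidAlgebra R G)}
  {f : Matrix J I (MonoidAlgebra R G)} {g : Matrix I J (MonoidAlgebra R G)}

theorem ACut_eps (hw : 5 * k < w) (he : Std l e)
    (h : Iso (fun a γ b => (CR B S).rel k a γ b ∧ s.rel k a γ b) l l' e e' f g) (T : ℕ → Prop) :
    ACut_dg (MonoidAlgebra R G) (fun i => InZ w k (s.ht (l i))) *
        (g * ACut_dg (MonoidAlgebra R G) (fun j => T (s.ht (l' j) / w)) * f) =
      g * ACut_dg (MonoidAlgebra R G) (fun j => T (s.ht (l' j) / w)) * f *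
        ACut_dg (MonoidAlgebra R G) (fun i => InZ w k (s.ht (l i))) := by
  set ζ := ACut_dg (MonoidAlgebra R G) (fun i => InZ w k (s.ht (l i))) with hζ
  set ω := ACut_dg (MonoidAlgebra R G) (fun i => ¬ InZ w k (s.ht (l i))) with hω
  set χ := ACut_dg (MonoidAlgebra R G) (fun i => T (s.ht (l i) / w)) with hχ
  set χ' := ACut_dg (MonoidAlgebra R G) (fun j => T (s.ht (l' j) / w)) with hχ'
  have h1 : χ * (ω * g) = ω * g * χ' := ACut_comm fun i j h0 => by
    obtain ⟨γ, c1, c2⟩ := ACut_ex (ACut_sup_left _ h.cg) h0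
    rw [ACut_off hw c1 c2.2.2.1 c2.2.1]
  have h2 : χ' * (f * ω) = f * ω * χ := ACut_comm fun j i h0 => by
    obtain ⟨γ, c1, c2⟩ := ACut_ex (ACut_sup_right _ h.cf) h0
    rw [ACut_off hw c1 c2.2.1 c2.2.2.1]
  have h3 : ω * e = e * ω := ACut_comm fun i j h0 => by rw [he.eq_of_ne h0]
  have h4 : χ * e = e * χ := ACut_comm fun i j h0 => by rw [he.eq_of_ne h0]
  have h5 : ω * (g * χ' * f) = χ * ω * e := by
    rw [← Matrix.mul_assoc, ← Matrix.mul_assoc, ← h1, ← h.gf]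
    simp only [Matrix.mul_assoc]
  have h6 : g * χ' * f * ω = χ * ω * e := by
    rw [Matrix.mul_assoc, Matrix.mul_assoc, h2, ← Matrix.mul_assoc, ← Matrix.mul_assoc, h.gf,
      mul_assoc χ, h3, ← mul_assoc χ, h4, mul_assoc, mul_assoc, ACut_dg_comm]
  have h7 : ζ = 1 - ω := eq_sub_of_add_eq (ACut_dg_add _)
  rw [h7, sub_mul, mul_sub, h5, h6, one_mul, mul_one]

theorem ACut_half (hQ : Q0 R N (2 * k) k₀) (hw : 5 * k < w)
    (hq : ∀ a, 0 < s.ht a → QQ R ↥(B.grp a ⊓ s.leg.grp a)) (he : Std l e) (he' : Std l' e')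
    (h : Iso (fun a γ b => (CR B S).rel k a γ b ∧ s.rel k a γ b) l l' e e' f g) {T : ℕ → Prop}
    (hT : ∀ n, T (n + 1) ↔ ¬ T n) :
    ∃ (E M : Type) (_ : Fintype E) (_ : DecidableEq E) (_ : Fintype M) (_ : DecidableEq M)
      (lE : E → Λ) (lM : M → Λ) (eE : Matrix E E (MonoidAlgebra R G))
      (eM : Matrix M M (MonoidAlgebra R G)) (a : Matrix M I (MonoidAlgebra R G))
      (b : Matrix M E (MonoidAlgebra R G)) (c : Matrix I M (MonoidAlgebra R G))
      (d : Matrix E M (MonoidAlgebra R G)), Std lE eE ∧ Std lM eM ∧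
      ACut_D (g * ACut_dg (MonoidAlgebra R G) (fun j => T (s.ht (l' j) / w)) * f *
        ACut_dg (MonoidAlgebra R G) (fun i => InZ w k (s.ht (l i)))) eE eM a b c d ∧
      Ctl ((CR (zoneG B s w k) S).rel k₀) lM l a ∧ Ctl ((CR (zoneG B s w k) S).rel k₀) lM lE b ∧
      Ctl ((CR (zoneG B s w k) S).rel k₀) l lM c ∧ Ctl ((CR (zoneG B s w k) S).rel k₀) lE lM d ∧
      Ctl (ACut_SR B s S w k (k₀ + 3 * k)) (fun j => ACut_nat s hw (l' j))
        (fun x => ACut_sl T s hw (lM x)) (f * c) ∧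
      Ctl (ACut_SR B s S w k (k₀ + 3 * k)) (fun x => ACut_sl T s hw (lM x))
        (fun j => ACut_nat s hw (l' j)) (a * g) := by
  have hε := ACut_eps hw he h T
  set ζ := ACut_dg (MonoidAlgebra R G) (fun i => InZ w k (s.ht (l i))) with hζ
  set χ' := ACut_dg (MonoidAlgebra R G) (fun j => T (s.ht (l' j) / w)) with hχ'
  have h1 : χ' * e' = e' * χ' := ACut_comm fun i j h0 => by rw [he'.eq_of_ne h0]
  have hζζ : ζ * ζ = ζ := ACut_dg_self _
  have h2 : f * (g * χ' * f) = χ' * f := by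
    rw [← Matrix.mul_assoc, ← Matrix.mul_assoc, h.fg, ← h1, Matrix.mul_assoc, h.pf]
  have h3 : g * χ' * f * g = g * χ' := by
    rw [Matrix.mul_assoc, h.fg, Matrix.mul_assoc, h1, ← Matrix.mul_assoc, h.gp]
  have h4 : g * χ' * f * (g * χ' * f) = g * χ' * f := by
    rw [Matrix.mul_assoc, h2, ← Matrix.mul_assoc, Matrix.mul_assoc g, ACut_dg_self]
  have h5 : g * χ' * f * ζ = ζ * (g * (χ' * f)) * ζ := by
    rw [← Matrix.mul_assoc g, hε, mul_assoc _ ζ, hζζ]
  have hc : Ctl ((CR (zoneG B s w k) S).rel (2 * k)) l l (g * χ' * f * ζ) := by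
    rw [h5]
    have c1 : MSup2 (fun i i' => {γ | (CR B S).rel (2 * k) (l i) γ (l i') ∧
        s.rel (2 * k) (l i) γ (l i')}) (g * (χ' * f)) := by
      refine MSup2.mul h.cg (ACut_sup_left _ h.cf) fun i j i' x hx y hy => ⟨?_, ?_⟩
      · rw [two_mul]; exact (CR B S).comp hx.1 hy.2.1
      · rw [two_mul]
        exact ((CR B fun _ : Fin 1 => s).comp ⟨hx.1.1, fun _ => hx.2⟩
          ⟨hy.2.1.1, fun _ => hy.2.2⟩).2 0
    refine (ACut_sup_right _ (ACut_sup_left _ c1)).mono fun i i' γ hγ => ?_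
    obtain ⟨z', z, c2, c3⟩ := hγ
    exact ⟨⟨c2.1, Or.inl ⟨z, z', ACut_same hw z z' c3.2.1 c3.1,
      ACut_leg hw le_rfl c3 (Or.inl z)⟩⟩, c2.2⟩
  obtain ⟨E, M, i1, i2, i3, i4, lE, lM, eE, eM, u, v, s1, s2, hi⟩ :=
    ACut_ss hQ hw hq (l := l) (p := g * χ' * f * ζ)
      (by rw [mul_assoc, ← mul_assoc ζ, hε, mul_assoc _ ζ, hζζ, ← mul_assoc, h4])
      (by rw [mul_assoc, hζζ]) hc
  have hD := ACut_of_iso hi
  have ca : Ctl ((CR (zoneG B s w k) S).rel k₀) lM l u.toCols₁ := fun x i => hi.cf x (Sum.inl i)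
  have cc : Ctl ((CR (zoneG B s w k) S).rel k₀) l lM v.toRows₁ := fun i x => hi.cg (Sum.inl i) x
  refine ⟨E, M, i1, i2, i3, i4, lE, lM, eE, eM, _, _, _, _, s1, s2, hD, ca,
    fun x y => hi.cf x (Sum.inr y), cc, fun y x => hi.cg (Sum.inr y) x, ?_, ?_⟩
  · have e1 : f * v.toRows₁ = χ' * f * ζ * v.toRows₁ := by
      rw [← h2, Matrix.mul_assoc f, Matrix.mul_assoc f, hD.pc]
    rw [e1]
    refine MSup2.mul (ACut_sup_right _ (ACut_sup_left _ h.cf)) cc fun j i x γ hγ γ' hγ' => ?_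
    obtain ⟨z, t, c1, c2⟩ := hγ
    obtain ⟨n1, n2⟩ := ACut_num_zone T hγ'.1
    exact ACut_SR_mk ((CR B S).comp c1 ⟨hγ'.1.1, hγ'.2⟩) (by omega)
      ((ACut_key hT hw z c2.1 c2.2.1 t).trans n1)
      fun _ => s.leg.trans (ACut_leg hw (by omega) c2 (Or.inr z)) n2
  · have e1 : u.toCols₁ * g = u.toCols₁ * (ζ * g * χ') := by
      rw [Matrix.mul_assoc ζ, ← h3, ← Matrix.mul_assoc ζ, hε, ← Matrix.mul_assoc, hD.ap]
    rw [e1]
    refine MSup2.mul ca (ACut_sup_right _ (ACut_sup_left _ h.cg)) fun x i j γ' hγ' γ hγ => ?_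
    obtain ⟨t, z, c1, c2⟩ := hγ
    obtain ⟨n1, n2⟩ := ACut_num_zone T hγ'.1
    exact ACut_SR_mk ((CR B S).comp ⟨hγ'.1.1, hγ'.2⟩ c1) (by omega)
      (n1.trans (ACut_key hT hw z c2.2.1 c2.1 t).symm)
      fun _ => s.leg.trans n2 (ACut_leg hw (by omega) c2 (Or.inl z))

theorem ACut_off_slab (hw : 5 * k < w) {a b : Λ} {γ : G} (h1 : (CR B S).rel k a γ b)
    (h2 : s.rel k a γ b) (hz : ¬ InZ w k (s.ht a) ∨ ¬ InZ w k (s.ht b)) :
    ACut_SR B s S w k (k₀ + 3 * k) (ACut_nat s hw a) γ (ACut_nat s hw b) := by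
  refine ACut_SR_mk h1 (by omega) ?_ fun h0 => ?_
  · rcases hz with hz | hz
    · exact (ACut_off hw hz h2.2.1 h2.1).symm
    · exact ACut_off hw hz h2.1 h2.2.1
  · by_contra c
    have := h2.2.2 c
    exact h0 (Nat.div_eq_of_lt (show s.ht a < w by omega))

end Main

theorem cut {N k k₀ w : ℕ} (hQ : Q0 R N (2 * k) k₀) (hw : 5 * k < w) (B : Gpd G Λ)
    (s : Spi G Λ) (S : Fin N → Spi G Λ)
    (hq : ∀ a, 0 < s.ht a → QQ R ↥(B.grp a ⊓ s.leg.grp a)) {I J : Type} [Fintype I]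
    [DecidableEq I] [Fintype J] [DecidableEq J] {l : I → Λ} {l' : J → Λ}
    {e : Matrix I I (MonoidAlgebra R G)} {e' : Matrix J J (MonoidAlgebra R G)}
    {f : Matrix J I (MonoidAlgebra R G)} {g : Matrix I J (MonoidAlgebra R G)} (he : Std l e)
    (he' : Std l' e')
    (h : Iso (fun a γ b => (CR B S).rel k a γ b ∧ s.rel k a γ b) l l' e e' f g) :
    ∃ (E M : Type) (_ : Fintype E) (_ : DecidableEq E) (_ : Fintype M) (_ : DecidableEq M)
      (lE : E → Λ) (lM : M → Slab s w k) (lY : J ⊕ E → Slab s w k)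
      (eE : Matrix E E (MonoidAlgebra R G)) (eM : Matrix M M (MonoidAlgebra R G))
      (u₁ : Matrix M (I ⊕ E) (MonoidAlgebra R G)) (v₁ : Matrix (I ⊕ E) M (MonoidAlgebra R G))
      (u₂ : Matrix (J ⊕ E) M (MonoidAlgebra R G)) (v₂ : Matrix M (J ⊕ E) (MonoidAlgebra R G)),
      Std lE eE ∧ Std lM eM ∧ Std lY (fromBlocks e' 0 0 eE) ∧
      (∀ y, (lY y).1.1 = Sum.elim l' lE y) ∧
      Iso ((CR (zoneG B s w k) S).rel (k₀ + 3 * k)) (Sum.elim l lE) (fun x => (lM x).1.1)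
        (fromBlocks e 0 0 eE) eM u₁ v₁ ∧
      Iso ((CR (slabG B s w k) fun i => (S i).pull (MonoidHom.id G) fun x => x.1.1).rel
        (k₀ + 3 * k)) lM lY eM (fromBlocks e' 0 0 eE) u₂ v₂ ∧
      u₂ * u₁ = fromBlocks f 0 0 eE ∧ v₁ * v₂ = fromBlocks g 0 0 eE := by
  obtain ⟨E₀, M₀, i1, i2, i3, i4, lE₀, lM₀, eE₀, eM₀, a₀, b₀, c₀, d₀, s1, s2, D₀, ca₀, cb₀, cc₀,
    cd₀, x₀, y₀⟩ := ACut_half hQ hw hq he he' h (T := Even) fun n => Nat.even_add_one
  obtain ⟨E₁, M₁, j1, j2, j3, j4, lE₁, lM₁, eE₁, eM₁, a₁, b₁, c₁, d₁, t1, t2, D₁, ca₁, cb₁, cc₁,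
    cd₁, x₁, y₁⟩ := ACut_half hQ hw hq he he' h (T := fun n => ¬ Even n)
      fun n => not_congr Nat.even_add_one
  have hε₀ := ACut_eps hw he h Even
  have hε₁ := ACut_eps hw he h fun n => ¬ Even n
  set ζ := ACut_dg (MonoidAlgebra R G) (fun i => InZ w k (s.ht (l i))) with hζ
  set ω := ACut_dg (MonoidAlgebra R G) (fun i => ¬ InZ w k (s.ht (l i))) with hω
  set χ₀ := ACut_dg (MonoidAlgebra R G) (fun j => Even (s.ht (l' j) / w)) with hχ₀
  set χ₁ := ACut_dg (MonoidAlgebra R G) (fun j => ¬ Even (s.ht (l' j) / w)) with hχ₁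
  have hχ : χ₀ * χ₁ = 0 := ACut_dg_not _
  have hχ' : χ₁ * χ₀ = 0 := by rw [ACut_dg_comm, hχ]
  have h0 : χ₀ * e' = e' * χ₀ := ACut_comm fun i j h0 => by rw [he'.eq_of_ne h0]
  have h1 : χ₁ * e' = e' * χ₁ := ACut_comm fun i j h0 => by rw [he'.eq_of_ne h0]
  have orth : ∀ χ χ' : Matrix J J (MonoidAlgebra R G), χ * χ' = 0 → χ * e' = e' * χ →
      ζ * (g * χ' * f) = g * χ' * f * ζ → g * χ * f * ζ * (g * χ' * f * ζ) = 0 := by
    intro χ χ' o1 o2 o3
    have o4 : χ * (f * (g * χ')) = 0 := by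
      rw [← Matrix.mul_assoc f, h.fg, ← mul_assoc, o2, mul_assoc, o1, mul_zero]
    rw [mul_assoc, ← mul_assoc ζ, o3]
    calc g * χ * f * (g * χ' * f * ζ * ζ) = g * (χ * (f * (g * χ'))) * (f * ζ * ζ) := by
          simp only [Matrix.mul_assoc]
      _ = 0 := by rw [o4, Matrix.mul_zero, Matrix.zero_mul]
  have D := ACut_merge D₀ D₁ (orth _ _ hχ h0 hε₁) (orth _ _ hχ' h1 hε₀)
  have hp : g * χ₀ * f * ζ + g * χ₁ * f * ζ = e * ζ := by
    rw [← add_mul, ← Matrix.add_mul, ← Matrix.mul_add, ACut_dg_add, Matrix.mul_one, h.gf]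
  rw [hp] at D
  have h3 : ω * e = e * ω := ACut_comm fun i j h0 => by rw [he.eq_of_ne h0]
  have h4 : ζ * e = e * ζ := ACut_comm fun i j h0 => by rw [he.eq_of_ne h0]
  have hζω : ζ * ω = 0 := ACut_dg_not _
  have hωζ : ω * ζ = 0 := by rw [ACut_dg_comm, hζω]
  have hee := he.idem
  have o1 : e * ω * (e * ω) = e * ω := by
    rw [mul_assoc, ← mul_assoc ω, h3, mul_assoc, ACut_dg_self, ← mul_assoc, hee]
  have o2 : e * ω * (e * ζ) = 0 := by
    rw [mul_assoc, ← mul_assoc ω, h3, mul_assoc, hωζ, mul_zero, mul_zero]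
  have o3 : e * ζ * (e * ω) = 0 := by
    rw [mul_assoc, ← mul_assoc ζ, h4, mul_assoc, hζω, mul_zero, mul_zero]
  have o4 : e * ω + e * ζ = e := by rw [← mul_add, add_comm, ACut_dg_add, mul_one]
  have o5 : e * ω * e = e * ω := by rw [mul_assoc, h3, ← mul_assoc, hee]
  have o6 : e * (e * ω) = e * ω := by rw [← mul_assoc, hee]
  have so : Std l (e * ω) := by
    obtain ⟨e₀, q1, q2, q3⟩ := he
    have q4 : ACut_dg R (fun i => ¬ InZ w k (s.ht (l i))) * e₀ =
        e₀ * ACut_dg R (fun i => ¬ InZ w k (s.ht (l i))) :=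
      ACut_comm fun i j h0 => by rw [q3 i j h0]
    refine ⟨e₀ * ACut_dg R (fun i => ¬ InZ w k (s.ht (l i))), ?_, ?_, fun i j h0 => q3 i j ?_⟩
    · rw [mul_assoc, ← mul_assoc (ACut_dg _ _), q4, mul_assoc, ACut_dg_self, ← mul_assoc, q1]
    · ext1 i j
      rw [hω, ACut_mul_dg, map_apply, ACut_mul_dg, q2]
      split_ifs <;> simp
    · intro c
      rw [ACut_mul_dg, c, ite_self] at h0
      exact h0 rfl
  set a := fromRows a₀ a₁ with ha
  set b := fromBlocks b₀ 0 0 b₁ with hb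
  set c := fromCols c₀ c₁ with hc
  set d := fromBlocks d₀ 0 0 d₁ with hd
  set eE := fromBlocks eE₀ 0 0 eE₁ with heE
  set eM := fromBlocks eM₀ 0 0 eM₁ with heM
  have p1 : e * ω * c = 0 := by rw [← D.pc, ← Matrix.mul_assoc, o2, Matrix.zero_mul]
  have p2 : a * (e * ω) = 0 := by rw [← D.ap, Matrix.mul_assoc, o3, Matrix.mul_zero]
  have p3 : a * e = a := by
    rw [← D.ap, Matrix.mul_assoc, ← h4, mul_assoc, hee]
  have p4 : e * c = c := by
    rw [← D.pc, ← Matrix.mul_assoc, ← mul_assoc, hee]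
  have sE : Std (Sum.elim lE₀ lE₁) eE := s1.sum t1
  have hle : k₀ ≤ k₀ + 3 * k := Nat.le_add_right _ _
  have I1 : Iso ((CR (zoneG B s w k) S).rel (k₀ + 3 * k)) (Sum.elim l (Sum.elim lE₀ lE₁))
      (Sum.elim l (Sum.elim lM₀ lM₁)) (fromBlocks e 0 0 eE) (fromBlocks (e * ω) 0 0 eM)
      (fromBlocks (e * ω) 0 a b) (fromBlocks (e * ω) c 0 d) := by
    refine Iso.le _ ⟨?_, ?_, ?_, ?_, ?_, ?_⟩ hle
    · simp [fromBlocks_multiply, o1, D.ca, D.cb, D.da, D.db, o4]
    · simp [fromBlocks_multiply, o1, p1, p2, D.m]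
    · simp [fromBlocks_multiply, o5, p3, D.be]
    · simp [fromBlocks_multiply, o6, p4, D.ed]
    · exact (so.ctl _ _).fromBlocks (ctl_zero _ _ _) (ACut_rows ca₀ ca₁)
        (cb₀.fromBlocks (ctl_zero _ _ _) (ctl_zero _ _ _) cb₁)
    · exact (so.ctl _ _).fromBlocks (ACut_cols cc₀ cc₁) (ctl_zero _ _ _)
        (cd₀.fromBlocks (ctl_zero _ _ _) (ctl_zero _ _ _) cd₁)
  have I0 := (h.relab (r' := fun _ _ _ => True) (m := l) (m' := l') (fun _ _ _ _ => trivial)
    fun _ _ _ _ => trivial).sum (iso_refl (l := Sum.elim lE₀ lE₁) sE.idem fun _ _ _ _ => trivial)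
  refine ⟨E₀ ⊕ E₁, I ⊕ (M₀ ⊕ M₁), inferInstance, inferInstance, inferInstance, inferInstance,
    Sum.elim lE₀ lE₁,
    Sum.elim (fun i => ACut_nat s hw (l i)) (Sum.elim (fun x => ACut_sl Even s hw (lM₀ x))
      fun x => ACut_sl (fun n => ¬ Even n) s hw (lM₁ x)),
    Sum.elim (fun j => ACut_nat s hw (l' j)) (Sum.elim (fun x => ACut_sl Even s hw (lE₀ x))
      fun x => ACut_sl (fun n => ¬ Even n) s hw (lE₁ x)), eE, fromBlocks (e * ω) 0 0 eM,
    fromBlocks (e * ω) 0 a b, fromBlocks (e * ω) c 0 d,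
    fromBlocks f 0 0 eE * fromBlocks (e * ω) c 0 d,
    fromBlocks (e * ω) 0 a b * fromBlocks g 0 0 eE, sE, ?_, ?_, ?_, ?_, ⟨?_, ?_, ?_, ?_, ?_, ?_⟩,
    ?_, ?_⟩
  · exact (so.relab fun i j h0 => by rw [so.eq_of_ne h0]).sum
      ((s2.relab fun i j h0 => by rw [s2.eq_of_ne h0]).sum
        (t2.relab fun i j h0 => by rw [t2.eq_of_ne h0]))
  · exact (he'.relab fun i j h0 => by rw [he'.eq_of_ne h0]).sum
      ((s1.relab fun i j h0 => by rw [s1.eq_of_ne h0]).sum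
        (t1.relab fun i j h0 => by rw [t1.eq_of_ne h0]))
  · rintro (y | y | y) <;> rfl
  · convert I1 using 2 with x
    rcases x with x | x | x <;> rfl
  · rw [Matrix.mul_assoc, ← Matrix.mul_assoc (fromBlocks g 0 0 eE), I0.gf, I1.pg, I1.fg]
  · rw [Matrix.mul_assoc, ← Matrix.mul_assoc (fromBlocks (e * ω) c 0 d), I1.gf, I0.pg, I0.fg]
  · rw [Matrix.mul_assoc, I1.gp]
  · rw [← Matrix.mul_assoc, I1.pf]
  · have e1 : fromBlocks f 0 0 eE * fromBlocks (e * ω) c 0 d =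
        fromBlocks (f * ω) (fromCols (f * c₀) (f * c₁)) 0 d := by
      simp [fromBlocks_multiply, ← Matrix.mul_assoc, h.fp, D.ed, hc]
    rw [e1]
    refine Ctl.fromBlocks ?_ (ACut_cols x₀ x₁) (ctl_zero _ _ _)
      (Ctl.fromBlocks (cd₀.relab fun _ _ _ => ACut_zone_slab _ hw) (ctl_zero _ _ _)
        (ctl_zero _ _ _) (cd₁.relab fun _ _ _ => ACut_zone_slab _ hw))
    exact (ACut_sup_right _ h.cf).mono fun j i γ hγ =>
      ACut_off_slab hw hγ.2.1 hγ.2.2 (Or.inr hγ.1)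
  · have e1 : fromBlocks (e * ω) 0 a b * fromBlocks g 0 0 eE =
        fromBlocks (ω * g) 0 (fromRows (a₀ * g) (a₁ * g)) b := by
      simp [fromBlocks_multiply, ← h3, Matrix.mul_assoc, h.pg, D.be, ha]
    rw [e1]
    refine Ctl.fromBlocks ?_ (ctl_zero _ _ _) (ACut_rows y₀ y₁)
      (Ctl.fromBlocks (cb₀.relab fun _ _ _ => ACut_zone_slab _ hw) (ctl_zero _ _ _)
        (ctl_zero _ _ _) (cb₁.relab fun _ _ _ => ACut_zone_slab _ hw))
    exact (ACut_sup_left _ h.cg).mono fun i j γ hγ =>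
      ACut_off_slab hw hγ.2.1 hγ.2.2 (Or.inl hγ.1)
  · rw [Matrix.mul_assoc, I1.gf, I0.fp]
  · rw [← Matrix.mul_assoc, I1.gf, I0.pg]

end Pool.Agent.MP_f7db47_al.GN
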