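import Pool.Agent.MP_f7db47_al.GN.ABase
import Pool.Agent.MP_f7db47_al.GN.ABhs
import Pool.Agent.MP_f7db47_al.GN.ABhs2
import Pool.Agent.MP_f7db47_al.GN.ACut

/-!
Controlled vanishing of the reduced projective class group.
-/

namespace Pool.Agent.MP_f7db47_al.GN

open Matrix

universe v

variable {R : Type v} [Ring R]

section aux

variable {G : Type} [Group G] {Λ : Type} {N : ℕ}

/-- A filtered relation for `G`, read for `G × ℤ`. -/
def AQb_up (F : FR G Λ) : FR (G × MZ) Λ where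
  rel k := up (F.rel k)
  refl := F.refl
  mono := F.mono
  comp := F.comp

lemma AQb_zone (B : Gpd G Λ) (S : Fin (N + 1) → Spi G Λ) {w : ℕ} (hw : 0 < w) (k m : ℕ)
    {a : Λ} {g : G} {b : Λ} (h : (CR (zoneG B (S 0) w k) fun i => S i.succ).rel m a g b) :
    (CR B S).rel (m + (2 * w + 2 * k)) a g b := by
  refine ⟨h.1.1, Fin.cases ?_ fun i => ?_⟩
  · rcases h.1.2 with ⟨-, -, h1, h2⟩ | ⟨rfl, rfl⟩
    · have h3 := Nat.div_add_mod ((S 0).ht a + k) w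
      have h4 := Nat.div_add_mod ((S 0).ht b + k) w
      have h5 := Nat.mod_lt ((S 0).ht a + k) hw
      have h6 := Nat.mod_lt ((S 0).ht b + k) hw
      rw [h1] at h3
      exact ⟨by omega, by omega, fun e => absurd h2 e⟩
    · exact ⟨by omega, by omega, fun e => absurd ((S 0).leg.refl _) e⟩
  · obtain ⟨h1, h2, h3⟩ : (S i.succ).rel m a g b := h.2 i
    exact ⟨by omega, by omega, fun e => (h3 e).trans (by omega)⟩

lemma AQb_slab (B : Gpd G Λ) (S : Fin (N + 1) → Spi G Λ) (w k m : ℕ) {a : Slab (S 0) w k}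
    {g : G} {b : Slab (S 0) w k} (h : (CR (slabG B (S 0) w k)
      fun i : Fin N => (S i.succ).pull (MonoidHom.id G) fun x => x.1.1).rel m a g b) :
    (CR B S).rel (m + (2 * w + 2 * k)) a.1.1 g b.1.1 := by
  refine ⟨h.1.1, Fin.cases ?_ fun i => ?_⟩
  · obtain ⟨h1, h2⟩ := a.2
    obtain ⟨h3, h4⟩ := b.2
    rw [← h.1.2.1] at h3 h4
    rw [add_mul, one_mul] at h2 h4
    refine ⟨by omega, by omega, fun e => ?_⟩
    have h5 : a.1.2 = 0 := by_contra fun h5 => e (h.1.2.2 h5)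
    rw [h5, zero_mul] at h2 h4
    omega
  · obtain ⟨h1, h2, h3⟩ : (S i.succ).rel m a.1.1 g b.1.1 := h.2 i
    exact ⟨by omega, by omega, fun e => (h3 e).trans (by omega)⟩

lemma AQb_qq {H : Subgroup G} (h : QQ R H) (H' : Subgroup (G × MZ)) (hH : ∀ x ∈ H', x.1 ∈ H) :
    QQ R H' :=
  (h.prod_poly polyZ_int).sub
    { toFun := fun x => (⟨x.1.1, hH _ x.2⟩, (1, x.1.2))
      map_one' := rfl
      map_mul' := fun _ _ => rfl }
    fun _ _ e => Subtype.ext (Prod.ext (congrArg (fun z => z.1.1) e) (congrArg (fun z => z.2.2) e))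

variable {I J E : Type} [Fintype I] [DecidableEq I] [Fintype J] [DecidableEq J] [Fintype E]
  [DecidableEq E] {l : I → Λ} {l' : J → Λ} {lE : E → Λ}
  {e : Matrix I I (MonoidAlgebra R (G × MZ))} {e' : Matrix J J (MonoidAlgebra R (G × MZ))}
  {eE : Matrix E E (MonoidAlgebra R (G × MZ))}
  {u : Matrix J I (MonoidAlgebra R (G × MZ))} {v : Matrix I J (MonoidAlgebra R (G × MZ))}

lemma AQb_stab {r : Λ → G → Λ → Prop} {d L : ℕ} (hE : Std lE eE)
    (h : SS r (fun x : (J ⊕ E) × Fin L => Sum.elim l' lE x.1)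
      (bhs d L (fromBlocks u 0 0 eE) (fromBlocks v 0 0 eE) (fromBlocks e' 0 0 eE))) :
    SS r (fun x : J × Fin L => l' x.1) (bhs d L u v e') := by
  refine SS.of_sum_std (bhs_std hE d L) (SS.of_reindex (Equiv.sumProdDistrib J E (Fin L)) ?_)
  rw [← bhs_sum, submatrix_submatrix, Equiv.symm_comp_self, submatrix_id_id]
  convert h using 2 with x
  obtain ⟨_ | _, _⟩ := x <;> rfl

lemma AQb_deg (F : FR G Λ) {k k' d d' L L' : ℕ} (he : Std l e) (he' : Std l' e')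
    (h : Iso (up (F.rel k)) l l' e e' u v) (hu : Deg d u) (hv : Deg d v) (hL : 2 * d ≤ L)
    (hd : d ≤ d') (hL' : 2 * d' ≤ L')
    (hS : SS (F.rel k') (fun x : J × Fin L' => l' x.1) (bhs d' L' u v e')) :
    SS (F.rel (2 * k + (10 * k + k'))) (fun x : J × Fin L => l' x.1) (bhs d L u v e') := by
  obtain ⟨c, rfl⟩ := Nat.exists_eq_add_of_le' hd
  obtain ⟨f, g, h1⟩ := bhs_win F he he' h hu hv hL (show 2 * d ≤ L' by omega)
  obtain ⟨f', g', h2⟩ := bhs_mul F he he he' (iso_refl he.idem (he.ctl (AQb_up F) k)) h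
    (he.deg c) (he.deg c) hu hv hL'
  rw [h.fp, h.pg] at h2
  exact SS.of_iso F h1 (SS.of_sum_std (bhs_std he c L') (SS.of_iso F h2.symm hS))

end aux

theorem q0_of_qb {N k k' : ℕ} (h : QB R N k k') : Q0 R N k k' := by
  intro G _ Λ B S hB J _ _ l p hp hc
  obtain ⟨u, v, hi, hu, hv, H⟩ := bhs_basic (CR B S) (k' := k') hp hc
  exact H (h G Λ B S hB J J l l 1 1 u v 1 2 (std_one l) (std_one l) hi hu hv le_rfl)

theorem qb_zero (k : ℕ) : QB R 0 k 0 := by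
  intro G _ Λ B S hB I J _ _ _ _ l l' e e' u v d L he he' hi hu hv hL
  obtain ⟨h1, h2⟩ := bhs_idem (CR B S) he he' hi hu hv hL
  exact (ss_block B (fun a => (hB a).g0) _ _ h1 (h2.mono fun _ _ _ h => h.1)).relab id
    fun _ _ _ h => ⟨h, fun i => i.elim0⟩

theorem qb_succ {N : ℕ} (h : ∀ k, ∃ k', QB R N k k') (k : ℕ) : ∃ k', QB R (N + 1) k k' := by
  obtain ⟨k₀, hk₀⟩ := h (2 * k)
  obtain ⟨k₁, h₁⟩ := h (k₀ + 3 * k)
  refine ⟨2 * k + (10 * k + (10 * (k₀ + 3 * k + (2 * (5 * k + 1) + 2 * k)) +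
    (k₁ + (2 * (5 * k + 1) + 2 * k)))), ?_⟩
  intro G _ Λ B S hB I J _ _ _ _ l l' e e' u v d L he he' hi hu hv hL
  obtain ⟨E, M, _, _, _, _, lE, lM, lY, eE, eM, u₁, v₁, u₂, v₂, hE, hM, hY, hl, i1, i2, e1, e2⟩ :=
    cut (q0_of_qb hk₀) (Nat.lt_succ_self (5 * k)) (B.pull (MonoidHom.fst G MZ) id)
      ((S 0).pull (MonoidHom.fst G MZ) id) (fun i => (S i.succ).pull (MonoidHom.fst G MZ) id)
      (fun a _ => AQb_qq (hB a) _ fun _ hx => hx.1) he he'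
      (hi.relab (fun _ _ _ h => ⟨⟨h.1, fun i => h.2 i.succ⟩, h.2 0⟩)
        fun _ _ _ h => ⟨⟨h.1, fun i => h.2 i.succ⟩, h.2 0⟩)
  obtain ⟨d₁, g1⟩ := exists_deg u₁
  obtain ⟨d₂, g2⟩ := exists_deg v₁
  obtain ⟨d₃, g3⟩ := exists_deg u₂
  obtain ⟨d₄, g4⟩ := exists_deg v₂
  obtain ⟨D, hD, hd1, hd2, hd3, hd4⟩ : ∃ D, d ≤ D ∧ d₁ ≤ D ∧ d₂ ≤ D ∧ d₃ ≤ D ∧ d₄ ≤ D :=
    ⟨d + d₁ + d₂ + d₃ + d₄, by omega⟩
  have hM' : Std (fun x => (lM x).1.1) eM := hM.relab fun _ _ h => by rw [hM.eq_of_ne h]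
  have hz : ∀ a γ b, (CR (zoneG (B.pull (MonoidHom.fst G MZ) id)
      ((S 0).pull (MonoidHom.fst G MZ) id) (5 * k + 1) k)
      fun i => (S i.succ).pull (MonoidHom.fst G MZ) id).rel (k₀ + 3 * k) a γ b →
      up ((CR (zoneG B (S 0) (5 * k + 1) k) fun i => S i.succ).rel (k₀ + 3 * k)) a γ b :=
    fun _ _ _ h => ⟨⟨h.1.1, h.1.2.imp id fun h' => ⟨congrArg Prod.fst h'.1, h'.2⟩⟩, h.2⟩
  have j1 := i1.relab (fun _ _ _ h => hz _ _ _ h) fun _ _ _ h => hz _ _ _ h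
  have s1 := (h₁ G Λ (zoneG B (S 0) (5 * k + 1) k) (fun i => S i.succ)
    (fun a => (hB a).sub (Subgroup.inclusion fun _ hx => hx.1)
    (Subgroup.inclusion_injective _)) _ _ _ _ _ _ _ _ D (2 * (D + D)) (he.sum hE) hM' j1
    (g1.mono hd1) (g2.mono hd2) (by omega)).relab id
    fun _ _ _ h => AQb_zone B S (Nat.succ_pos _) k k₁ h
  have s2 := (h₁ G (Slab (S 0) (5 * k + 1) k) (slabG B (S 0) (5 * k + 1) k)
    (fun i => (S i.succ).pull (MonoidHom.id G) fun x => x.1.1)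
    (fun a => (hB a.1.1).sub (Subgroup.inclusion fun _ hx => hx.1)
    (Subgroup.inclusion_injective _)) _ _ lM lY _ _ _ _ D (2 * (D + D)) hM hY i2
    (g3.mono hd3) (g4.mono hd4) (by omega)).relab (fun x => x.1.1)
    fun _ _ _ h => AQb_slab B S _ k k₁ h
  have j2 : Iso (up ((CR B S).rel (k₀ + 3 * k + (2 * (5 * k + 1) + 2 * k))))
      (fun x => (lM x).1.1) (fun y => (lY y).1.1) eM (fromBlocks e' 0 0 eE) u₂ v₂ :=
    i2.relab (fun _ _ _ h => AQb_slab B S _ k _ h) fun _ _ _ h => AQb_slab B S _ k _ h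
  have s3 : SS ((CR B S).rel (k₁ + (2 * (5 * k + 1) + 2 * k)))
      (fun x : (J ⊕ E) × Fin (2 * (D + D)) => Sum.elim l' lE x.1)
      (bhs D (2 * (D + D)) u₂ v₂ (fromBlocks e' 0 0 eE)) := by
    simp only [← hl]
    exact s2
  rw [funext hl] at j2
  obtain ⟨f, g, j3⟩ := bhs_mul (CR B S) (he.sum hE) hM' (he'.sum hE)
    (j1.relab (fun _ _ _ h => AQb_zone B S (Nat.succ_pos _) k _ h)
      fun _ _ _ h => AQb_zone B S (Nat.succ_pos _) k _ h) j2 (g1.mono hd1) (g2.mono hd2)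
    (g3.mono hd3) (g4.mono hd4) le_rfl
  rw [e1, e2] at j3
  exact AQb_deg (CR B S) he he' hi hu hv hL (show d ≤ D + D by omega) le_rfl
    (AQb_stab hE (SS.of_iso (CR B S) j3 (s3.sum s1)))

theorem exists_q0 (N k : ℕ) : ∃ k', Q0 R N k k' := by
  have h : ∀ k, ∃ k', QB R N k k' := by
    induction N with
    | zero => exact fun k => ⟨0, qb_zero k⟩
    | succ N ih => exact qb_succ ih
  exact (h k).imp fun _ => q0_of_qb

end Pool.Agent.MP_f7db47_al.GN
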