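import Pool.Agent.MP_f7db47_al.GN.ATriv
import Pool.Agent.MP_f7db47_al.GN.AQb

/-!
Controlled vanishing over a product of spiders.
-/

namespace Pool.Agent.MP_f7db47_al.GN

open Matrix

universe v

variable {R : Type v} [Ring R]

theorem AMain_le {G : Type} [Group G] {H K : Subgroup G} (h : H ≤ K) (hK : QQ R K) : QQ R H :=
  hK.sub (Subgroup.inclusion h) (Subgroup.inclusion_injective h)

theorem AMain_ex {G Λ I J : Type} [Group G] {r : Λ → G → Λ → Prop} {li : I → Λ} {lj : J → Λ}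
    {f : Matrix I J (MonoidAlgebra R G)} (h : Ctl r li lj f) {i : I} {j : J} (hf : f i j ≠ 0) :
    ∃ g, r (li i) g (lj j) := by
  by_contra hn
  refine hf ?_
  ext g
  by_contra hg
  exact hn ⟨g, h i j g hg⟩

theorem AMain_zone (h1 : QQ R PUnit.{1}) {G Λ : Type} [Group G] (s : Spi G Λ) {w k : ℕ}
    (hw : k < w) (hs : ∀ a, 0 < s.ht a → QQ R (s.leg.grp a)) (a : Λ) :
    G1 R ((zoneG (Gpd.full G Λ) s w k).grp a) := by
  by_cases hz : InZ w k (s.ht a)
  · refine (AMain_le ?_ (hs a (by have := hz.1; omega))).g1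
    rintro γ ⟨-, h | ⟨rfl, -⟩⟩
    · exact h.2.2.2
    · exact s.leg.refl a
  · have key : ∀ x : (zoneG (Gpd.full G Λ) s w k).grp a, x.1 = 1 := by
      rintro ⟨γ, -, h | ⟨rfl, -⟩⟩
      · exact absurd h.1 hz
      · rfl
    exact (h1.sub 1 fun x y _ => Subtype.ext ((key x).trans (key y).symm)).g1

theorem AMain_slab {G Λ : Type} [Group G] (s : Spi G Λ) {w k : ℕ}
    (hw : k < w) (hs : ∀ a, 0 < s.ht a → QQ R (s.leg.grp a))
    (a : {x : Slab s w k // ¬ x.1.2 = 0}) :
    G1 R (((slabG (Gpd.full G Λ) s w k).pull (MonoidHom.id G) Subtype.val).grp a) := by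
  have h0 : 0 < s.ht a.1.1.1 := by
    have h1 := a.1.2.1
    have h2 := Nat.le_mul_of_pos_left w (Nat.pos_of_ne_zero a.2)
    omega
  refine (AMain_le ?_ (hs _ h0)).g1
  rintro γ ⟨-, -, hγ⟩
  exact hγ a.2

theorem vanish_iso (h1 : QQ R PUnit.{1}) (N k : ℕ) : ∃ r : ℕ, ∀ (G : Type) [Group G] (Λ : Type)
    (S : Fin N → Spi G Λ), (∀ i a, 0 < (S i).ht a → QQ R ((S i).leg.grp a)) →
    (∀ a, ∃ i, r ≤ (S i).ht a) → ∀ (I J : Type) [Fintype I] [DecidableEq I] [Fintype J]
    [DecidableEq J] (l : I → Λ) (l' : J → Λ) (e : Matrix I I (MonoidAlgebra R G))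
    (e' : Matrix J J (MonoidAlgebra R G)) (f : Matrix J I (MonoidAlgebra R G))
    (g : Matrix I J (MonoidAlgebra R G)), Std l e → Std l' e' →
    Iso ((CR (Gpd.full G Λ) S).rel k) l l' e e' f g → Triv e f g := by
  induction N generalizing k with
  | zero =>
    refine ⟨0, fun G _ Λ S _ hcov I J _ _ _ _ l l' e e' f g he he' h => ?_⟩
    exact triv_block (Gpd.full G Λ) (fun a => (hcov a).elim fun i => i.elim0) he he'
      (h.relab (fun _ _ _ _ => trivial) fun _ _ _ _ => trivial)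
  | succ N ih =>
    obtain ⟨k₀, hQ⟩ := exists_q0 (R := R) N (2 * k)
    obtain ⟨r', hr'⟩ := ih (k₀ + 3 * k)
    refine ⟨max r' (5 * k + 1 + k),
      fun G _ Λ S hS hcov I J _ _ _ _ l l' e e' f g he he' h => ?_⟩
    have hw : k < 5 * k + 1 := by omega
    obtain ⟨E, M, _, _, _, _, lE, lM, lY, eE, eM, u₁, v₁, u₂, v₂, hE, hM, hY, -, i1, i2, eu, ev⟩ :=
      cut (w := 5 * k + 1) hQ (Nat.lt_succ_self (5 * k)) (Gpd.full G Λ) (S 0) (fun i => S i.succ)
        (fun a ha => AMain_le inf_le_right (hS 0 a ha)) he he'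
        (h.relab (fun _ _ _ c => ⟨⟨trivial, fun i => c.2 i.succ⟩, c.2 0⟩)
          fun _ _ _ c => ⟨⟨trivial, fun i => c.2 i.succ⟩, c.2 0⟩)
    have hM' : Std (fun x => (lM x).1.1) eM := hM.relab fun i j c => by rw [hM.eq_of_ne c]
    have t1 : Triv (fromBlocks e 0 0 eE) u₁ v₁ :=
      triv_block _ (AMain_zone h1 (S 0) hw (hS 0)) (he.sum hE) hM'
        (i1.relab (fun _ _ _ c => c.1) fun _ _ _ c => c.1)
    have hf : ∀ j i, u₂ j i ≠ 0 → (lY j).1.2 = (lM i).1.2 := fun j i c =>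
      (AMain_ex i2.cf c).elim fun _ c' => c'.1.2.1
    have hg : ∀ i j, v₂ i j ≠ 0 → (lM i).1.2 = (lY j).1.2 := fun i j c =>
      (AMain_ex i2.cg c).elim fun _ c' => c'.1.2.1
    have t2 : Triv eM u₂ v₂ := by
      refine Triv.of_split i2 (fun m => (lM m).1.2 = 0) (fun y => (lY y).1.2 = 0)
        (fun j i c => by rw [hf j i c]) (fun i j c => by rw [hg i j c]) ?_ ?_
      · have sM := hM.restrict (fun m => (lM m).1.2 = 0) fun i j c => by rw [hM.eq_of_ne c]
        have sY := hY.restrict (fun y => (lY y).1.2 = 0) fun i j c => by rw [hY.eq_of_ne c]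
        refine hr' G {x : Slab (S 0) (5 * k + 1) k // x.1.2 = 0}
          (fun i => (S i.succ).pull (MonoidHom.id G) fun x => x.1.1.1)
          (fun i a ha => AMain_le (fun γ c => c) (hS i.succ a.1.1.1 ha)) (fun a => ?_)
          {m // (lM m).1.2 = 0} {y // (lY y).1.2 = 0}
          (fun x => ⟨lM x.1, x.2⟩) (fun x => ⟨lY x.1, x.2⟩) _ _ _ _
          (sM.relab fun i j c => Subtype.ext (sM.eq_of_ne c))
          (sY.relab fun i j c => Subtype.ext (sY.eq_of_ne c))
          ((i2.restrict (fun m => (lM m).1.2 = 0) (fun y => (lY y).1.2 = 0)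
            (fun j i c => by rw [hf j i c]) fun i j c => by rw [hg i j c]).relab
            (fun _ _ _ c => ⟨trivial, c.2⟩) fun _ _ _ c => ⟨trivial, c.2⟩)
        obtain ⟨i, hi⟩ := hcov a.1.1.1
        rw [max_le_iff] at hi
        induction i using Fin.cases with
        | zero =>
          have c := a.1.2.2
          rw [a.2] at c
          omega
        | succ i => exact ⟨i, hi.1⟩
      · have sM := hM.restrict (fun m => ¬ (lM m).1.2 = 0) fun i j c => by rw [hM.eq_of_ne c]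
        have sY := hY.restrict (fun y => ¬ (lY y).1.2 = 0) fun i j c => by rw [hY.eq_of_ne c]
        exact triv_block _ (AMain_slab (S 0) hw (hS 0))
          (l := fun x : {m // ¬ (lM m).1.2 = 0} => ⟨lM x.1, x.2⟩)
          (l' := fun x : {y // ¬ (lY y).1.2 = 0} => ⟨lY x.1, x.2⟩)
          (sM.relab fun i j c => Subtype.ext (sM.eq_of_ne c))
          (sY.relab fun i j c => Subtype.ext (sY.eq_of_ne c))
          ((i2.restrict (fun m => ¬ (lM m).1.2 = 0) (fun y => ¬ (lY y).1.2 = 0)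
            (fun j i c => by rw [hf j i c]) fun i j c => by rw [hg i j c]).relab
            (fun _ _ _ c => by exact c.1) fun _ _ _ c => by exact c.1)
    have t := Triv.comp (he.sum hE) hM' (he'.sum hE) i1 i2 t1 t2
    rw [eu, ev] at t
    exact t.of_sum hE

/-- The controlled vanishing theorem. -/
theorem vanish (h1 : QQ R PUnit.{1}) (N k : ℕ) : ∃ r : ℕ, ∀ (G : Type) [Group G] (J ι : Type)
    [Fintype J] [DecidableEq J] [Fintype ι] (S : ι → Spi G J), Fintype.card ι ≤ N →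
    (∀ i j, 0 < (S i).ht j → QQ R ((S i).leg.grp j)) → (∀ j, ∃ i, r ≤ (S i).ht j) →
    ∀ a b : Matrix J J (MonoidAlgebra R G), a * b = 1 → b * a = 1 →
    Ctl (fun j' g j => ∀ i, (S i).rel k j' g j) id id a →
    Ctl (fun j' g j => ∀ i, (S i).rel k j' g j) id id b → T a := by
  obtain ⟨r, hr⟩ := vanish_iso h1 N k
  refine ⟨r, fun G _ J ι _ _ _ S hN hS hcov a b hab hba ha hb => ?_⟩
  obtain ⟨φ⟩ : Nonempty (ι ↪ Fin N) :=
    Function.Embedding.nonempty_of_card_le (by rwa [Fintype.card_fin])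
  let S' : Fin N → Spi G J := Function.extend φ S fun _ => ⟨Gpd.full G J, fun _ => 0⟩
  have e1 : ∀ i, S' (φ i) = S i := fun i => φ.injective.extend_apply _ _ i
  have e2 : ∀ i, (∃ j, S' i = S j) ∨ S' i = ⟨Gpd.full G J, fun _ => 0⟩ := fun i => by
    by_cases c : ∃ j, φ j = i
    · obtain ⟨j, rfl⟩ := c
      exact Or.inl ⟨j, e1 j⟩
    · exact Or.inr (Function.extend_apply' _ _ _ c)
  have hc : ∀ j' γ j, (∀ i, (S i).rel k j' γ j) → (CR (Gpd.full G J) S').rel k j' γ j := by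
    refine fun j' γ j c => ⟨trivial, fun i => ?_⟩
    rcases e2 i with ⟨j, e⟩ | e
    · rw [e]
      exact c j
    · rw [e]
      exact ⟨Nat.zero_le _, Nat.zero_le _, fun c' => absurd trivial c'⟩
  refine T_of_triv hab hba (hr G J S' (fun i j => ?_) (fun j => ?_) J J id id 1 1 a b
    (std_one _) (std_one _) ⟨hba, hab, mul_one a, one_mul b, ha.mono hc, hb.mono hc⟩)
  · rcases e2 i with ⟨i', e⟩ | e
    · rw [e]
      exact hS i' j
    · rw [e]
      exact fun c => absurd c (lt_irrefl 0)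
  · obtain ⟨i, hi⟩ := hcov j
    exact ⟨φ i, by rwa [e1]⟩

end Pool.Agent.MP_f7db47_al.GN
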