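import Pool.Agent.MP_f7db47_al.GN.DL

/-!
Basic properties of lattices.
-/

namespace Pool.Agent.MP_f7db47_al.GN.Pl

variable {P : Pl} {n : ℕ}

theorem mem_ac {u : P.A n} {Y : P.L n} {x : P.V n} : x ∈ ac u Y ↔ u.symm x ∈ Y :=
  Submodule.mem_map_equiv (e := u.restrictScalars P.O) Y

theorem ac_mul (u v : P.A n) (Y : P.L n) : ac (u * v) Y = ac u (ac v Y) :=
  Submodule.ext fun _ => by
    rw [mem_ac, mem_ac, mem_ac]
    rfl

theorem ac_one (Y : P.L n) : ac (1 : P.A n) Y = Y :=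
  Submodule.ext fun _ => mem_ac

theorem ac_inv_ac (u : P.A n) (Y : P.L n) : ac u⁻¹ (ac u Y) = Y := by
  rw [← ac_mul, inv_mul_cancel, ac_one]

theorem ac_ac_inv (u : P.A n) (Y : P.L n) : ac u (ac u⁻¹ Y) = Y := by
  rw [← ac_mul, mul_inv_cancel, ac_one]

theorem mem_sc {e : ℤ} {Y : P.L n} {x : P.V n} :
    x ∈ sc e Y ↔ ((P.ϖ ^ (-e) : P.Kˣ) : P.K) • x ∈ Y := by
  rw [sc, mem_ac, zpow_neg]
  rfl

theorem sc_zero (Y : P.L n) : sc 0 Y = Y :=
  Submodule.ext fun _ => by simp [mem_sc]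

theorem sc_add (e e' : ℤ) (Y : P.L n) : sc (e + e') Y = sc e (sc e' Y) :=
  Submodule.ext fun _ => by
    rw [mem_sc, mem_sc, mem_sc, smul_smul, ← Units.val_mul, ← zpow_add, neg_add_rev]

theorem ac_sc (u : P.A n) (e : ℤ) (Y : P.L n) : ac u (sc e Y) = sc e (ac u Y) :=
  Submodule.ext fun _ => by rw [mem_ac, mem_sc, mem_sc, mem_ac, map_smul]

theorem LBasic_nat {e : ℕ} {Y : P.L n} {x : P.V n} : x ∈ sc e Y ↔ ∃ y ∈ Y, P.π ^ e • y = x := by
  have h : algebraMap P.O P.K (P.π ^ e) ≠ 0 :=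
    (map_ne_zero_iff _ (IsFractionRing.injective P.O P.K)).2 (pow_ne_zero _ P.hπ.ne_zero)
  have h1 : ((P.ϖ ^ (-(e : ℤ)) : P.Kˣ) : P.K) = (algebraMap P.O P.K (P.π ^ e))⁻¹ := by
    simp [ϖ]
  rw [mem_sc, h1]
  refine ⟨fun hx => ⟨_, hx, ?_⟩, ?_⟩
  · rw [← algebraMap_smul P.K, smul_inv_smul₀ h]
  · rintro ⟨y, hy, rfl⟩
    rwa [← algebraMap_smul P.K (P.π ^ e), inv_smul_smul₀ h]

theorem LBasic_one {Y : P.L n} {x : P.V n} : x ∈ sc 1 Y ↔ ∃ y ∈ Y, P.π • y = x := by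
  simpa using LBasic_nat (e := 1) (Y := Y) (x := x)

theorem LBasic_den {ι : Type} [Finite ι] (f : ι → P.V n) :
    ∃ e : ℕ, ∀ i, P.π ^ e • f i ∈ P.L0 n := by
  obtain ⟨b, hb⟩ := IsLocalization.exist_integer_multiples_of_finite (nonZeroDivisors P.O)
    fun i : ι × Fin n => f i.1 i.2
  obtain ⟨e, u, hu⟩ := IsDiscreteValuationRing.eq_unit_mul_pow_irreducible
    (nonZeroDivisors.ne_zero b.2) P.hπ
  refine ⟨e, fun i => ?_⟩
  have h : (b : P.O) • f i ∈ P.L0 n := fun j _ => Submodule.mem_one.2 (hb (i, j))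
  rw [hu, mul_smul] at h
  exact (Submodule.smul_mem_iff_of_isUnit _ u.isUnit).1 h

theorem sc_anti {e e' : ℤ} (h : e ≤ e') (Y : P.L n) : sc e' Y ≤ sc e Y := by
  obtain ⟨d, rfl⟩ := Int.le.dest h
  rw [sc_add]
  refine (sc e).monotone fun x hx => ?_
  obtain ⟨y, hy, rfl⟩ := LBasic_nat.1 hx
  exact Y.smul_mem _ hy

theorem sc_le_sc {e e' : ℤ} {Y Y' : P.L n} (h : e ≤ e') (hY : Y ≤ Y') : sc e' Y ≤ sc e Y' :=
  (sc_anti h Y).trans ((sc e).monotone hY)

theorem sc_rs (e : ℤ) (W : P.S n) : sc e (rs W) = rs W :=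
  Submodule.ext fun _ => mem_sc.trans (W.smul_mem_iff (Units.ne_zero _))

theorem ac_rs (u : P.A n) (W : P.S n) : ac u (rs W) = rs (im u W) :=
  Submodule.ext fun _ => mem_ac.trans (Submodule.mem_map_equiv (e := u) W).symm

theorem rs_mono {W W' : P.S n} (h : W ≤ W') : rs W ≤ rs W' :=
  fun _ hx => h hx

theorem rs_top : rs (⊤ : P.S n) = ⊤ :=
  rfl

theorem rs_bot : rs (⊥ : P.S n) = ⊥ :=
  rfl

theorem La_le (W : P.S n) : La W ≤ rs W :=
  inf_le_right

theorem La_mono {W W' : P.S n} (h : W ≤ W') : La W ≤ La W' :=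
  inf_le_inf_left _ (rs_mono h)

theorem La_inf {W W' : P.S n} (h : W' ≤ W) : La W ⊓ rs W' = La W' := by
  rw [La, inf_assoc, inf_eq_right.2 (rs_mono h), La]

theorem im_mul (u v : P.A n) (W : P.S n) : im (u * v) W = im u (im v W) :=
  Submodule.map_comp v.toLinearMap u.toLinearMap W

theorem im_one (W : P.S n) : im (1 : P.A n) W = W :=
  Submodule.map_id W

theorem im_mono (u : P.A n) {W W' : P.S n} (h : W ≤ W') : im u W ≤ im u W' :=
  Submodule.map_mono h

theorem finrank_im (u : P.A n) (W : P.S n) :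
    Module.finrank P.K (im u W) = Module.finrank P.K W :=
  u.finrank_map_eq W

theorem exists_lip (u : P.A n) : ∃ C : ℕ, sc C (P.L0 n) ≤ ac u (P.L0 n) := by
  obtain ⟨e, he⟩ := LBasic_den fun i : Fin n => u.symm fun j => if i = j then 1 else 0
  refine ⟨e, fun x hx => ?_⟩
  obtain ⟨y, hy, rfl⟩ := LBasic_nat.1 hx
  have h := LinearMap.pi_apply_eq_sum_univ u.symm.toLinearMap y
  rw [LinearEquiv.coe_coe] at h
  rw [mem_ac, ← algebraMap_smul P.K, map_smul, algebraMap_smul, h, Finset.smul_sum]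
  refine Submodule.sum_mem _ fun i _ => ?_
  obtain ⟨a, ha⟩ := Submodule.mem_one.1 (hy i trivial)
  rw [smul_comm, ← ha, algebraMap_smul]
  exact Submodule.smul_mem _ _ (he i)

theorem LBasic_le {W W' : P.S n} (h : La W ≤ rs W' ⊔ sc 1 (La W)) : W ≤ W' := by
  have h1 : (P.L0 n).FG :=
    Submodule.fg_pi fun _ => Submodule.one_eq_span (R := P.O) (A := P.K) ▸
      Submodule.fg_span_singleton _
  have h2 : La W ≤ rs W' := Submodule.le_of_le_smul_of_le_jacobson_bot (h1.of_le inf_le_left)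
    (IsLocalRing.maximalIdeal_le_jacobson ⊥) (h.trans (sup_le_sup_left (fun x hx => by
      obtain ⟨y, hy, rfl⟩ := LBasic_one.1 hx
      exact Submodule.smul_mem_smul P.hπ.not_isUnit hy) _))
  intro x hx
  obtain ⟨e, he⟩ := LBasic_den fun _ : Unit => x
  have h3 : P.π ^ e • x ∈ W' := h2 ⟨he (), (rs W).smul_mem _ hx⟩
  rw [← algebraMap_smul P.K] at h3
  exact (W'.smul_mem_iff ((map_ne_zero_iff _ (IsFractionRing.injective P.O P.K)).2
    (pow_ne_zero _ P.hπ.ne_zero))).1 h3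

/-- The standard lattice of a nonzero subspace is not divisible. -/
theorem not_La_le {W : P.S n} (hW : W ≠ ⊥) : ¬ La W ≤ sc 1 (La W) :=
  fun h => hW (le_bot_iff.1 (LBasic_le (h.trans le_sup_right)))

/-- A proper subspace is not dense. -/
theorem le_of_La_le {W W' : P.S n} (h : La W ≤ rs W' ⊔ sc 1 (La W)) : W ≤ W' :=
  LBasic_le h

open Classical in
/-- Chains between `π N` and `N` have at most `n` jumps. -/
theorem chain_le (N : P.L n) (f : ℕ → P.L n) (M : ℕ) (hf : Monotone f) (h0 : sc 1 N ≤ f 0)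
    (hM : f M ≤ N) : ((Finset.range M).filter fun i => f (i + 1) ≠ f i).card ≤ n := by
  set J := (Finset.range M).filter fun i => f (i + 1) ≠ f i
  have h1 : ∀ i : J, ∃ x ∈ f (i + 1), x ∉ f i := fun i =>
    SetLike.exists_of_lt ((hf i.1.le_succ).lt_of_ne (Finset.mem_filter.1 i.2).2.symm)
  choose x hx hx' using h1
  have h2 : LinearIndependent P.O x := Fintype.linearIndependent_iff.2 fun g hg i => by
    obtain ⟨i₀, -, h3⟩ := Finset.exists_min_image Finset.univ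
      (fun i => IsDiscreteValuationRing.addVal P.O (g i)) ⟨i, Finset.mem_univ _⟩
    choose h hh using fun i => IsDiscreteValuationRing.addVal_le_iff_dvd.1
      (h3 i (Finset.mem_univ _))
    by_contra hi
    have h4 : g i₀ ≠ 0 := fun e => hi (by rw [hh i, e, zero_mul])
    have h5 : ∑ i, h i • x i = 0 := by
      rw [← smul_eq_zero_iff_right h4, Finset.smul_sum, ← hg]
      exact Finset.sum_congr rfl fun i _ => by rw [smul_smul, ← hh]
    obtain ⟨j, hj, h6⟩ := Finset.exists_max_image (Finset.univ.filter fun i => IsUnit (h i))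
      (fun i => i.1) ⟨i₀, Finset.mem_filter.2 ⟨Finset.mem_univ _,
        mul_left_cancel₀ h4 ((mul_one _).trans (hh i₀)) ▸ isUnit_one⟩⟩
    rw [← Finset.add_sum_erase _ _ (Finset.mem_univ j), add_eq_zero_iff_eq_neg] at h5
    refine hx' j ((Submodule.smul_mem_iff_of_isUnit _ (Finset.mem_filter.1 hj).2).1 ?_)
    rw [h5]
    refine neg_mem (Submodule.sum_mem _ fun i hi => ?_)
    by_cases hu : IsUnit (h i)
    · exact Submodule.smul_mem _ _ (hf (lt_of_le_of_ne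
        (h6 i (Finset.mem_filter.2 ⟨Finset.mem_univ _, hu⟩))
        fun e => (Finset.mem_erase.1 hi).1 (Subtype.ext e)) (hx i))
    · obtain ⟨c, hc⟩ := Ideal.mem_span_singleton'.1
        (P.hπ.maximalIdeal_eq ▸ (IsLocalRing.mem_maximalIdeal _).2 hu)
      refine hf (Nat.zero_le _) (h0 (LBasic_one.2 ⟨c • x i, N.smul_mem _ (hM (hf
        (Finset.mem_range.1 (Finset.mem_filter.1 i.2).1) (hx i))), ?_⟩))
      rw [smul_smul, mul_comm, hc]
  simpa using ((LinearIndependent.iff_fractionRing P.O P.K).1 h2).fintype_card_le_finrank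

end Pool.Agent.MP_f7db47_al.GN.Pl
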