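import Pool.Agent.MP_f7db47_al.GN.Win
import Pool.Agent.MP_f7db47_al.GN.AMain
import Pool.Agent.MP_f7db47_al.GN.LBasic

/-!
The end of the induction.
-/

namespace Pool.Agent.MP_f7db47_al.GN

open Matrix Pl

universe v

variable {R : Type v} [Ring R]

/-- The action of the product of the general linear groups on tuples of submodules. -/
@[reducible] noncomputable def NFin_act {ι : Type} (P : ι → Pl) (n : ℕ)
    (H : Subgroup (∀ l, (P l).A n)) : MulAction H (∀ l, (P l).L n) where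
  smul γ Y := fun l => ac (γ.1 l) (Y l)
  one_smul Y := funext fun l => ac_one (Y l)
  mul_smul γ γ' Y := funext fun l => ac_mul (γ.1 l) (γ'.1 l) (Y l)

theorem NFin_bot {P : Pl} {n : ℕ} {W : P.S n} (h : Module.finrank P.K W = 0) (e : ℤ) :
    sc e (La W) = ⊥ := by
  rw [Submodule.finrank_eq_zero.1 h, La, rs_bot, inf_bot_eq, map_bot]

theorem fin_step (h1 : QQ R PUnit.{1}) (β Nf k cδ : ℕ) : ∃ R₀ : ℕ, 0 < R₀ ∧ ∀ c : ℕ, ∃ X : ℕ,
    ∀ (G : Type) [Group G] (ι : Type) [Fintype ι] (P : ι → Pl) (n : ℕ) (bl : Bl G) (C Rt : ℕ)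
    (a : ∀ l, Ac G bl C (P l) n) (Uf : ℕ → ℕ),
    (∀ g : G, (∀ l, ∃ Y, Lat Y ∧ ac ((a l).ρ g) Y = Y) → ∀ l, (a l).ρ g = 1) →
    (∀ H : Subgroup G, (∀ x ∈ H, ∀ y ∈ H, ∀ l, (a l).ρ (x * y) = (a l).ρ (y * x)) → QQ R H) →
    ∀ (J N : Type) [Fintype J] [DecidableEq J] [Fintype N] (F : FR G J) (ν : N → Nd P n β J)
      (A B : Matrix J J (MonoidAlgebra R G)), F.Good bl → Fintype.card N ≤ Nf →
      Fintype.card J ≤ 2 ^ 2 ^ (c * (X + 1)) →
      (∀ i, (ν i).Inv a F Rt X cδ (Uf (ν i).r) ∧ ∀ l, (ν i).rk l = 0) →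
      (∀ x, ∃ i, R₀ ≤ (ν i).h x) → A * B = 1 → B * A = 1 → Ctl (F.rel k) id id A →
      Ctl (F.rel k) id id B → T A := by
  obtain ⟨r, hr⟩ := vanish h1 (Nf * (9 ^ β + 1)) (3 * (cδ * (k + 1) + k))
  refine ⟨2 * r + 1, by omega, fun c => ?_⟩
  obtain ⟨X, hX⟩ := win β (cδ * (k + 1) + k) r c
  refine ⟨X, ?_⟩
  intro G _ ι _ P n bl C Rt a Uf hfree hQ J N _ _ _ F ν A B hF hN hJ hν hcov hAB hBA hA hB
  let φ : G →* ∀ l, (P l).A n := MonoidHom.pi fun l => (a l).ρ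
  let _ := NFin_act P n φ.range
  have hW : ∀ i j l, 0 < (ν i).h j → ∀ e, sc e (La ((ν i).W j l)) = ⊥ := fun i j l hj e =>
    NFin_bot (((hν i).1.rank j l hj).trans ((hν i).2 l)) e
  have hS := fun i => hX φ.range (∀ l, (P l).L n) J hJ (ν i).Z (fun j => 0 < (ν i).h j) (by
    rintro j hj v hv ⟨_, g, rfl⟩ hγ
    refine Subtype.ext (funext (hfree g fun l => ⟨(ν i).Z j v l, ?_, congrFun hγ l⟩))
    obtain ⟨e, h2, h3⟩ := (hν i).1.lat j v l hj hv
    rw [hW i j l hj, sup_bot_eq] at h2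
    exact ⟨e, h2, h3⟩)
  choose S hS1 hS2 hS3 using hS
  let S' : N × Fin (9 ^ β + 1) → Spi G J := fun x =>
    ⟨(S x.1 x.2).leg.pull φ.rangeRestrict id, fun j => min ((ν x.1).h j / 2) ((S x.1 x.2).ht j)⟩
  have key : ∀ x g y, F.rel k x g y → ∀ i, (S' i).rel (3 * (cδ * (k + 1) + k)) x g y := by
    rintro x g y hxy ⟨i, q⟩
    have l1 := (hν i).1.lip hxy
    have l2 := (hν i).1.lip (hF.symm hxy)
    by_cases hc : k < (ν i).h x ∧ k < (ν i).h y
    · obtain ⟨δ, hδ, -, hu⟩ := (hν i).1.close hxy hc.1 hc.2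
      obtain ⟨b1, b2, b3⟩ := hS3 i x y (φ.rangeRestrict g) δ
        (fun m => (hδ m).trans (by exact_mod_cast Nat.le_add_right _ _)) (fun v hv hv' => by
          funext l
          obtain ⟨u, -, hu'⟩ := hu l
          have h2 := hu' v hv hv' ⊥ (hW i x l (by omega) _).le bot_le
          rw [map_bot, bot_sup_eq, bot_sup_eq] at h2
          exact h2) q
      refine ⟨?_, ?_, fun hl => ?_⟩
      · simp only [S']
        omega
      · simp only [S']
        omega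
      · have := b3 hl
        simp only [S']
        omega
    · refine ⟨?_, ?_, fun _ => ?_⟩ <;> simp only [S'] <;> omega
  refine hr G J (N × Fin (9 ^ β + 1)) S' ?_ ?_ ?_ A B hAB hBA (hA.mono key) (hB.mono key)
  · rw [Fintype.card_prod, Fintype.card_fin]
    exact Nat.mul_le_mul_right _ hN
  · rintro ⟨i, q⟩ j hj
    have hj' : 0 < (ν i).h j := by
      simp only [S'] at hj
      omega
    refine hQ _ fun x hx y hy l => ?_
    have h2 := hS2 i q j hj' (φ.rangeRestrict x) hx (φ.rangeRestrict y) hy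
    rw [← map_mul, ← map_mul] at h2
    exact congrFun (congrArg Subtype.val h2) l
  · intro j
    obtain ⟨i, hi⟩ := hcov j
    obtain ⟨q, hq⟩ := hS1 i j
    refine ⟨(i, q), ?_⟩
    simp only [S']
    omega

end Pool.Agent.MP_f7db47_al.GN
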