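import Pool.Agent.MP_f7db47_al.GN.DN
import Pool.Agent.MP_f7db47_al.GN.LBasic

/-!
The choice of the parameters.
-/

namespace Pool.Agent.MP_f7db47_al.GN

theorem NPar_succ {x a : ℕ} (h : x ≤ 2 ^ a) : x + 1 ≤ 2 ^ (a + 1) := by
  have := Nat.one_le_two_pow (n := a)
  rw [pow_succ]
  omega

theorem NPar_tower (q C m s n c M : ℕ) (hq : q ≤ c) (hm : m ≤ M) :
    ((2 * (q * C * m) + 1) ^ s ^ m + 1) ^ (n + 1) ≤ 2 ^ 2 ^ ((2 * (c * C) + s) * M + 1 + n) := by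
  have h1 : 2 * (q * C * m) + 1 ≤ 2 ^ (2 * (c * C) * M) := by
    refine le_trans ?_ (Nat.succ_le_of_lt Nat.lt_two_pow_self)
    have : q * C * m ≤ c * C * M := by gcongr
    rw [mul_assoc 2]
    omega
  have h2 : s ^ m ≤ 2 ^ (s * M) :=
    calc s ^ m ≤ (2 ^ s) ^ m := Nat.pow_le_pow_left Nat.lt_two_pow_self.le _
      _ ≤ (2 ^ s) ^ M := Nat.pow_le_pow_right (by positivity) hm
      _ = 2 ^ (s * M) := by rw [pow_mul]
  have h3 : 2 * (c * C) * M * s ^ m ≤ 2 ^ ((2 * (c * C) + s) * M) := by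
    rw [add_mul, pow_add]
    exact Nat.mul_le_mul Nat.lt_two_pow_self.le h2
  have h4 : (2 * (q * C * m) + 1) ^ s ^ m ≤ 2 ^ 2 ^ ((2 * (c * C) + s) * M) :=
    calc _ ≤ (2 ^ (2 * (c * C) * M)) ^ s ^ m := Nat.pow_le_pow_left h1 _
      _ = 2 ^ (2 * (c * C) * M * s ^ m) := by rw [← pow_mul]
      _ ≤ _ := Nat.pow_le_pow_right (by norm_num) h3
  have h5 := Nat.pow_le_pow_left (NPar_succ h4) (n + 1)
  refine h5.trans ?_
  rw [← pow_mul]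
  refine Nat.pow_le_pow_right (by norm_num) ?_
  rw [pow_add _ _ n]
  exact Nat.mul_le_mul (NPar_succ le_rfl) (Nat.succ_le_of_lt Nat.lt_two_pow_self)

theorem exists_par (n C Rt : ℕ) : ∃ c : ℕ, ∀ X U' : ℕ, ∃ p : Par, p.OK n C U' ∧ p.Rt = Rt ∧
    p.X = X ∧ p.q ≤ c ∧ p.U ≤ c * (X + U' + 1) := by
  obtain ⟨A, hA⟩ : ∃ A, A = 6 * (2 * C + 2) * Rt + (4 * C + 2) * Rt + 3 + (2 * C + 1) :=
    ⟨_, rfl⟩
  obtain ⟨q, hq⟩ : ∃ q, q = n * (4 * Rt * (2 * n + 1)) + 2 * Rt + 1 := ⟨_, rfl⟩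
  obtain ⟨L, hL⟩ : ∃ L, L = 5 * Rt + q * (3 ^ n * A + 2 * (2 * C + 2) * Rt + 1) := ⟨_, rfl⟩
  refine ⟨n * L + 2 * Rt + 3 ^ n * A + 1 + q, fun X U' => ?_⟩
  obtain ⟨Y, hY⟩ : ∃ Y, Y = X + U' + 1 := ⟨_, rfl⟩
  have hY1 : ∀ z, z ≤ z * Y := fun z => Nat.le_mul_of_pos_right z (by omega)
  have hanti : Antitone fun i => 3 ^ (n - i) * (A * Y) := fun i j hij =>
    Nat.mul_le_mul_right _ (Nat.pow_le_pow_right (by norm_num) (by omega))
  have hQ : 6 * (2 * C + 2) * Rt + 2 * X + 3 + (4 * C + 2) * Rt + (2 * C + 1) * U' ≤ A * Y := by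
    have h1 := hY1 (6 * (2 * C + 2) * Rt)
    have h2 := hY1 ((4 * C + 2) * Rt)
    have h3 : (2 * C + 1) * U' ≤ (2 * C + 1) * Y := Nat.mul_le_mul_left _ (by omega)
    rw [hA, add_mul _ _ Y, add_mul _ 3 Y, add_mul _ ((4 * C + 2) * Rt) Y]
    omega
  refine ⟨⟨q, (n * L + 2 * Rt) * Y, L * Y, (n * L + 2 * Rt + 3 ^ n * A + 1) * Y, Rt, X,
    fun i => 3 ^ (n - i) * (A * Y)⟩, ⟨?_, ?_, ?_, hanti, ?_, ?_, ?_, ?_, ?_, ?_, ?_⟩,
    rfl, rfl, ?_, ?_⟩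
  · show 0 < q
    omega
  · show n * (4 * Rt * (2 * n + 1)) < q
    omega
  · show 2 * Rt ≤ q
    omega
  · show 1 ≤ 3 ^ (n - n) * (A * Y)
    rw [Nat.sub_self, pow_zero, one_mul]
    omega
  · intro i hi
    show 2 * (3 ^ (n - (i + 1)) * (A * Y)) + 6 * (2 * C + 2) * Rt + 2 * X + 3 +
      (4 * C + 2) * Rt + (2 * C + 1) * U' ≤ 3 ^ (n - i) * (A * Y)
    have h1 : A * Y ≤ 3 ^ (n - (i + 1)) * (A * Y) := Nat.le_mul_of_pos_left _ (by positivity)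
    rw [show n - i = n - (i + 1) + 1 by omega, pow_succ', mul_assoc 3]
    omega
  · intro i
    show 5 * Rt + q * (3 ^ (n - i) * (A * Y) + 2 * (2 * C + 2) * Rt + 1) ≤ L * Y
    have h1 : 3 ^ (n - i) * (A * Y) ≤ 3 ^ n * A * Y := by
      rw [mul_assoc]
      exact hanti (Nat.zero_le i)
    have h2 := hY1 (2 * (2 * C + 2) * Rt)
    have h3 := hY1 1
    have h4 := hY1 (5 * Rt)
    rw [hL, add_mul, mul_assoc q, add_mul _ 1 Y, add_mul _ _ Y]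
    gcongr
  · show n * (L * Y) + 2 * Rt ≤ (n * L + 2 * Rt) * Y
    have := hY1 (2 * Rt)
    rw [add_mul, mul_assoc n]
    omega
  · show (n * L + 2 * Rt) * Y ≤ (n * L + 2 * Rt + 3 ^ n * A + 1) * Y
    exact Nat.mul_le_mul_right _ (by omega)
  · show 3 ^ (n - 0) * (A * Y) ≤ (n * L + 2 * Rt + 3 ^ n * A + 1) * Y
    rw [Nat.sub_zero, ← mul_assoc]
    exact Nat.mul_le_mul_right _ (by omega)
  · show U' ≤ (n * L + 2 * Rt + 3 ^ n * A + 1) * Y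
    rw [add_mul _ 1 Y]
    omega
  · show q ≤ _
    omega
  · show (n * L + 2 * Rt + 3 ^ n * A + 1) * Y ≤ _
    rw [← hY]
    exact Nat.mul_le_mul_right _ (by omega)

theorem exists_pars (n C Rt β s₀ : ℕ) : ∃ c : ℕ, ∀ X : ℕ, ∃ (Uf : ℕ → ℕ) (p : ℕ → Par),
    (∀ r, (p r).OK n C (Uf r) ∧ (p r).Rt = Rt ∧ (p r).X = X ∧ (p r).U = Uf (r + 1)) ∧
    ∀ r < β, ((2 * ((p r).q * C * (p r).m) + 1) ^ s₀ ^ (p r).m + 1) ^ (n + 1) ≤
      2 ^ 2 ^ (c * (X + 1)) := by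
  obtain ⟨c, hc⟩ := exists_par n C Rt
  choose par h1 h2 h3 h4 h5 using hc
  refine ⟨(2 * (c * C) + s₀) * (c + 1) ^ β + 1 + n, fun X => ?_⟩
  obtain ⟨Uf, h0, hs⟩ : ∃ Uf : ℕ → ℕ, Uf 0 = 0 ∧ ∀ r, Uf (r + 1) = (par X (Uf r)).U :=
    ⟨fun r => Nat.rec 0 (fun _ u => (par X u).U) r, rfl, fun _ => rfl⟩
  have hb : ∀ r, X + Uf r + 1 ≤ (c + 1) ^ r * (X + 1) := by
    intro r
    induction r with
    | zero => rw [h0, pow_zero, one_mul]
    | succ r ih =>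
      have h6 := h5 X (Uf r)
      have h7 := Nat.mul_le_mul_left (c + 1) ih
      rw [pow_succ', mul_assoc, hs]
      rw [add_mul, one_mul] at h7
      omega
  refine ⟨Uf, fun r => par X (Uf r), fun r => ⟨h1 _ _, h2 _ _, h3 _ _, (hs r).symm⟩,
    fun r hr => ?_⟩
  have h6 : (par X (Uf r)).m ≤ (c + 1) ^ β * (X + 1) := by
    have h7 := (h1 X (Uf r)).u1
    have h8 := hb (r + 1)
    have h9 : (c + 1) ^ (r + 1) * (X + 1) ≤ (c + 1) ^ β * (X + 1) :=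
      Nat.mul_le_mul_right _ (Nat.pow_le_pow_right (by omega) hr)
    rw [hs] at h8
    omega
  refine (NPar_tower _ C _ s₀ n c _ (h4 _ _) h6).trans
    (Nat.pow_le_pow_right (by norm_num) (Nat.pow_le_pow_right (by norm_num) ?_))
  have h7 : n ≤ n * (X + 1) := Nat.le_mul_of_pos_right _ (by omega)
  rw [add_mul _ n, add_mul _ 1, mul_assoc _ _ (X + 1)]
  omega

theorem exists_exp (j c e : ℕ) : ∃ c' : ℕ, ∀ X : ℕ,
    j * (2 ^ 2 ^ (c * (X + 1))) ^ e ≤ 2 ^ 2 ^ (c' * (X + 1)) := by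
  refine ⟨c + (e + j + 1), fun X => ?_⟩
  obtain ⟨a, ha⟩ : ∃ a, a = c * (X + 1) := ⟨_, rfl⟩
  have h1 : a + e + j + 1 ≤ (c + (e + j + 1)) * (X + 1) := by
    have : e + j + 1 ≤ (e + j + 1) * (X + 1) := Nat.le_mul_of_pos_right _ (by omega)
    rw [add_mul, ← ha]
    omega
  have h2 : j ≤ 2 ^ (a + e + j) :=
    Nat.lt_two_pow_self.le.trans (Nat.pow_le_pow_right (by norm_num) (by omega))
  have h3 : 2 ^ a * e ≤ 2 ^ (a + e + j) := by
    refine le_trans ?_ (Nat.pow_le_pow_right (by norm_num) (Nat.le_add_right (a + e) j))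
    rw [pow_add]
    exact Nat.mul_le_mul_left _ Nat.lt_two_pow_self.le
  rw [← ha, ← pow_mul]
  calc j * 2 ^ (2 ^ a * e) ≤ 2 ^ j * 2 ^ (2 ^ a * e) :=
        Nat.mul_le_mul_right _ Nat.lt_two_pow_self.le
    _ = 2 ^ (j + 2 ^ a * e) := by rw [pow_add]
    _ ≤ 2 ^ 2 ^ (a + e + j + 1) := by
        refine Nat.pow_le_pow_right (by norm_num) ?_
        rw [pow_succ]
        omega
    _ ≤ _ := Nat.pow_le_pow_right (by norm_num) (Nat.pow_le_pow_right (by norm_num) h1)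

open Pointwise in
theorem exists_bl {G : Type} [Group G] (S : Finset G) {ι : Type} [Fintype ι] (P : ι → Pl) (n : ℕ)
    (ρ : ∀ l, G →* (P l).A n) : ∃ (bl : Bl G) (C : ℕ) (a : ∀ l, Ac G bl C (P l) n),
      S ⊆ bl.B 1 ∧ ∀ l, (a l).ρ = ρ l := by
  classical
  obtain ⟨S', hS'⟩ : ∃ S' : Finset G, S' = insert 1 (S ∪ S⁻¹) := ⟨_, rfl⟩
  have h1 : (1 : G) ∈ S' := hS' ▸ Finset.mem_insert_self _ _
  have h2 : S'⁻¹ = S' := by
    ext g
    simp only [hS', Finset.mem_inv', Finset.mem_insert, Finset.mem_union, inv_eq_one, inv_inv]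
    tauto
  choose c hc using fun (l : ι) (s : G) => Pl.exists_lip (ρ l s)
  obtain ⟨C, hC⟩ : ∃ C : ℕ, ∀ l, ∀ s ∈ S', c l s ≤ C :=
    ⟨Finset.univ.sup fun l => S'.sup (c l), fun l s hs =>
      (Finset.le_sup (f := c l) hs).trans
        (Finset.le_sup (f := fun l => S'.sup (c l)) (Finset.mem_univ l))⟩
  have h3 : ∀ l m, ∀ s ∈ S' ^ m,
      Pl.sc ((C * m : ℕ) : ℤ) ((P l).L0 n) ≤ Pl.ac (ρ l s) ((P l).L0 n) := by
    intro l m
    induction m with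
    | zero =>
      intro s hs
      rw [pow_zero, Finset.mem_one] at hs
      rw [hs, map_one, Pl.ac_one, mul_zero, Nat.cast_zero, Pl.sc_zero]
    | succ m ih =>
      intro s hs
      rw [pow_succ] at hs
      obtain ⟨g, hg, h, hh, rfl⟩ := Finset.mem_mul.1 hs
      have h4 : Pl.sc (C : ℤ) ((P l).L0 n) ≤ Pl.ac (ρ l h) ((P l).L0 n) :=
        (Pl.sc_anti (Nat.cast_le.2 (hC l h hh)) _).trans (hc l h)
      rw [map_mul, Pl.ac_mul, mul_add, mul_one, add_comm, Nat.cast_add, Pl.sc_add]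
      refine le_trans ?_ ((Pl.ac (ρ l g)).monotone h4)
      rw [Pl.ac_sc]
      exact (Pl.sc (C : ℤ)).monotone (ih g hg)
  refine ⟨⟨fun m => S' ^ m, S'.card, ?_, ?_, ?_, ?_, fun m => Finset.card_pow_le⟩, C,
    fun l => ⟨ρ l, fun {m s} hs => h3 l m s hs⟩, ?_, fun l => rfl⟩
  · rw [pow_zero]
    exact Finset.mem_one.2 rfl
  · intro a b g h hg hh
    rw [pow_add]
    exact Finset.mul_mem_mul hg hh
  · intro a g hg
    rw [← h2, inv_pow]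
    exact Finset.inv_mem_inv hg
  · intro a b g hab hg
    exact Finset.pow_subset_pow_right h1 hab hg
  · intro g hg
    show g ∈ S' ^ 1
    rw [pow_one, hS']
    exact Finset.mem_insert_of_mem (Finset.mem_union_left _ hg)

end Pool.Agent.MP_f7db47_al.GN
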