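import Pool.Agent.MP_f7db47_al.GN.NTree
import Pool.Agent.MP_f7db47_al.GN.NFin
import Pool.Agent.MP_f7db47_al.GN.NPar
import Pool.Agent.MP_f7db47_al.TreeMain

/-!
Free actions on lattices.
-/

namespace Pool.Agent.MP_f7db47_al.GN

open Matrix Pl

universe v

variable {R : Type v} [Ring R]

theorem g1_lat {G : Type} [Group G] {ι : Type} [Fintype ι] (P : ι → Pl) (n : ℕ)
    (ρ : ∀ l, G →* (P l).A n)
    (hfree : ∀ g : G, (∀ l, ∃ Y, Lat Y ∧ ac (ρ l g) Y = Y) → ∀ l, ρ l g = 1)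
    (hab : ∀ H : Subgroup G, (∀ x ∈ H, ∀ y ∈ H, ∀ l, ρ l (x * y) = ρ l (y * x)) → QQ R H) :
    G1 R G := by
  classical
  intro J _ _ A B h1 h2
  obtain ⟨sA, hA, -⟩ := exists_finset_msup A
  obtain ⟨sB, hB, -⟩ := exists_finset_msup B
  obtain ⟨bl, C, a, hS, ha⟩ := exists_bl (sA ∪ sB) P n ρ
  let F : FR G J := ⟨fun t _ g _ => g ∈ bl.B t, fun _ => bl.one, bl.mono, bl.mul⟩
  have h0 : QQ R PUnit.{1} := (hab ⊥ (by
    intro x hx y hy l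
    rw [Subgroup.mem_bot.1 hx, Subgroup.mem_bot.1 hy])).sub 1 fun _ _ _ => rfl
  obtain ⟨kf, Nf, e, ht⟩ := tree (R := R) n (Fintype.card ι * n)
  obtain ⟨R₀, hR, hf⟩ := fin_step h0 (Fintype.card ι * n) Nf kf (n * (C + 6))
  obtain ⟨c, hc⟩ := exists_pars n C (2 ^ (Fintype.card ι * n) * R₀) (Fintype.card ι * n) bl.s₀
  obtain ⟨c', hc'⟩ := exists_exp (Fintype.card J) c e
  obtain ⟨X, hX⟩ := hf c'
  obtain ⟨Uf, p, hp, hq⟩ := hc X
  exact ht G ι P bl C _ _ X R₀ _ _ a Uf p hp le_rfl hR (by positivity) hq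
    (hX G ι P n bl C _ a Uf (by simpa only [ha] using hfree) (by simpa only [ha] using hab))
    J F ⟨Fintype.card ι * n, fun _ => n, fun _ => 0, fun _ => _, fun _ _ => ⊤, fun _ _ _ => ⊥⟩
    A B ⟨bl.inv, id⟩ (hc' X) (Nd.root_inv a F _ X _ _) (fun _ => le_rfl) h1 h2
    (fun i j g hg => hS (Finset.mem_union_left _ (hA i j g hg)))
    fun i j g hg => hS (Finset.mem_union_right _ (hB i j g hg))

theorem qq_lat {G : Type} [Group G] {ι : Type} [Fintype ι] (P : ι → Pl) (n : ℕ)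
    (ρ : ∀ l, G →* (P l).A n)
    (hfree : ∀ g : G, (∀ l, ∃ Y, Lat Y ∧ ac (ρ l g) Y = Y) → ∀ l, ρ l g = 1)
    (hab : ∀ H : Subgroup G, (∀ x ∈ H, ∀ y ∈ H, ∀ l, ρ l (x * y) = ρ l (y * x)) → QQ R H) :
    QQ R G := by
  intro Q _ hQ Δ _ f hf
  let p : Δ →* G := (MonoidHom.fst _ _).comp f
  refine g1_lat P n (fun l => (ρ l).comp p) (fun g => hfree (p g)) fun H hH => ?_
  refine qq_of_le' hQ f hf (H.map p) (hab _ ?_) H fun x hx => ⟨x, hx, rfl⟩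
  rintro _ ⟨a, ha, rfl⟩ _ ⟨b, hb, rfl⟩ l
  rw [← map_mul, ← map_mul]
  exact hH a ha b hb l

end Pool.Agent.MP_f7db47_al.GN
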