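import Pool.Agent.MP_f7db47_al.GN.GA
import Pool.Agent.MP_f7db47_al.GN.GB
import Pool.Agent.MP_f7db47_al.GN.NCore
import Pool.Agent.MP_f7db47_al.PT.Val

/-!
General linear groups in positive characteristic.
-/

namespace Pool.Agent.MP_f7db47_al.GN

open Pl

universe v

theorem GC_domain (p : ℕ) [Fact p.Prime] (A : Type) [CommRing A] [IsDomain A]
    [Algebra (ZMod p) A] [Algebra.FiniteType (ZMod p) A] (n : ℕ) :
    ∃ (ι : Type) (_ : Fintype ι) (P : ι → Pl) (ρ : ∀ l, GL (Fin n) A →* (P l).A n),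
      ∀ g, (∀ l, ∃ Y, Lat Y ∧ ac (ρ l g) Y = Y) → IsOfFinOrder g := by
  obtain ⟨L, _, φ, m, v, -, h1, h2⟩ := PT.exists_vals p A
  choose P ρ hρ using fun i => exists_place (v i) (h1 i) n
  refine ⟨Fin m, inferInstance, P, fun i => (ρ i).comp (Matrix.GeneralLinearGroup.map φ),
    fun g hg => finOrder_of_integral p A n g fun j => h2 _ fun i => ?_⟩
  have h3 : (Matrix.GeneralLinearGroup.map φ g).val.charpoly = g.val.charpoly.map φ :=
    Matrix.charpoly_map g.val φ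
  have := hρ i _ (hg i) j
  rwa [h3, Polynomial.coeff_map] at this

theorem GC_prime (A : Type) [CommRing A] (hfg : Algebra.FiniteType ℤ A) (N : ℕ) (hN : 0 < N)
    (hA : (N : A) = 0) (n : ℕ) (Q : Ideal A) (hQ : Q.IsPrime) :
    ∃ (ι : Type) (_ : Fintype ι) (P : ι → Pl) (ρ : ∀ l, GL (Fin n) (A ⧸ Q) →* (P l).A n),
      ∀ g, (∀ l, ∃ Y, Lat Y ∧ ac (ρ l g) Y = Y) → IsOfFinOrder g := by
  have hc : CharP (A ⧸ Q) (ringChar (A ⧸ Q)) := ringChar.charP _
  have hN' : (N : A ⧸ Q) = 0 := by rw [← map_natCast (Ideal.Quotient.mk Q), hA, map_zero]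
  have hp : (ringChar (A ⧸ Q)).Prime := by
    refine (CharP.char_is_prime_or_zero (A ⧸ Q) _).resolve_right fun h => ?_
    have := (ringChar.spec (A ⧸ Q) N).1 hN'
    rw [h, zero_dvd_iff] at this
    omega
  have : Fact (ringChar (A ⧸ Q)).Prime := ⟨hp⟩
  letI := ZMod.algebra (A ⧸ Q) (ringChar (A ⧸ Q))
  have h1 : Algebra.FiniteType ℤ (A ⧸ Q) :=
    hfg.of_surjective (Ideal.Quotient.mk Q).toIntAlgHom Ideal.Quotient.mk_surjective
  have h2 : Algebra.FiniteType (ZMod (ringChar (A ⧸ Q))) (A ⧸ Q) :=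
    Algebra.FiniteType.of_restrictScalars_finiteType ℤ _ _
  exact GC_domain (ringChar (A ⧸ Q)) (A ⧸ Q) n

theorem gln_places (A : Type) [CommRing A] (hfg : Algebra.FiniteType ℤ A) (N : ℕ) (hN : 0 < N)
    (hA : (N : A) = 0) (n : ℕ) :
    ∃ (ι : Type) (_ : Fintype ι) (P : ι → Pl) (ρ : ∀ l, GL (Fin n) A →* (P l).A n),
      ∀ g, (∀ l, ∃ Y, Lat Y ∧ ac (ρ l g) Y = Y) → IsOfFinOrder g := by
  have hno : IsNoetherianRing A := Algebra.FiniteType.isNoetherianRing ℤ A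
  have hfin : Finite (minimalPrimes A) := (minimalPrimes.finite_of_isNoetherianRing A).to_subtype
  have := Fintype.ofFinite (minimalPrimes A)
  choose ι hι P ρ h2 using fun Q : minimalPrimes A =>
    GC_prime A hfg N hN hA n Q.1 (Ideal.minimalPrimes_isPrime Q.2)
  refine ⟨Σ Q, ι Q, inferInstance, fun l => P l.1 l.2, fun l =>
    (ρ l.1 l.2).comp (Matrix.GeneralLinearGroup.map (Ideal.Quotient.mk l.1.1)), fun g hg => ?_⟩
  have h3 : ∀ Q : minimalPrimes A, ∃ n : ℕ, 0 < n ∧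
      Matrix.GeneralLinearGroup.map (Ideal.Quotient.mk Q.1) g ^ n = 1 := fun Q =>
    isOfFinOrder_iff_pow_eq_one.1 (h2 Q _ fun i => hg ⟨Q, i⟩)
  choose k hk h4 using h3
  have hpos : 0 < ∏ Q, k Q := Finset.prod_pos fun Q _ => hk Q
  refine IsOfFinOrder.of_pow (n := ∏ Q, k Q) (finOrder_of_nil A N hN hA n _ fun i j => ?_)
    hpos.ne'
  rw [← mem_nilradical, nilradical, ← Ideal.sInf_minimalPrimes, Ideal.mem_sInf]
  intro Q hQ
  obtain ⟨c, hc⟩ := Finset.dvd_prod_of_mem k (Finset.mem_univ ⟨Q, hQ⟩)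
  have h5 : Matrix.GeneralLinearGroup.map (Ideal.Quotient.mk Q) (g ^ ∏ Q, k Q) = 1 := by
    rw [map_pow, hc, pow_mul, h4 ⟨Q, hQ⟩, one_pow]
  have h6 : Ideal.Quotient.mk Q ((g ^ ∏ Q, k Q).val i j) =
      (1 : Matrix (Fin n) (Fin n) (A ⧸ Q)) i j :=
    congrArg (fun g : GL (Fin n) (A ⧸ Q) => g.val i j) h5
  rw [← Ideal.Quotient.eq_zero_iff_mem, Matrix.sub_apply, map_sub, h6, sub_eq_zero,
    Matrix.one_apply, Matrix.one_apply]
  split_ifs <;> simp

theorem qq_gln {R : Type v} [Ring R] {G : Type} [Group G] {A : Type} [CommRing A] {N n : ℕ}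
    (hN : 0 < N) (hA : (N : A) = 0) (f : G →* GL (Fin n) A)
    (ht : ∀ g : G, IsOfFinOrder (f g) → f g = 1)
    (hab : ∀ H : Subgroup G, (∀ a ∈ H, ∀ b ∈ H, f (a * b) = f (b * a)) → QQ R H) : QQ R G := by
  refine PT.qq_loc fun K hK => ?_
  obtain ⟨A₀, f₀, hfg, hf₀⟩ := exists_fg_subring ((Group.fg_iff_subgroup_fg K).2 hK) A n
    (f.comp K.subtype)
  obtain ⟨ι, _, P, ρ, hρ⟩ := gln_places A₀ hfg N hN (Subtype.ext (by simpa using hA)) n
  have hinj : ∀ g : K, f g = 1 → f₀ g = 1 := by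
    intro g hg
    have := (hf₀ g).trans hg
    ext i j
    simpa [Matrix.one_apply, apply_ite] using congrArg (fun M : GL (Fin n) A => M.val i j) this
  have key : ∀ g : K, IsOfFinOrder (f₀ g) → f g = 1 := fun g hg =>
    ht g ((hf₀ g) ▸ MonoidHom.isOfFinOrder _ hg)
  refine qq_lat P n (fun i => (ρ i).comp f₀) (fun g hg i => ?_) fun H hH => ?_
  · rw [MonoidHom.comp_apply, hinj g (key g (hρ _ hg)), map_one]
  · refine (hab (H.map K.subtype) ?_).sub
      (H.equivMapOfInjective _ (Subgroup.subtype_injective _)).toMonoidHom (MulEquiv.injective _)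
    rintro _ ⟨a, ha, rfl⟩ _ ⟨b, hb, rfl⟩
    have := key ((a * b)⁻¹ * (b * a)) (hρ _ fun i => ⟨(P i).L0 n, ⟨0, by simp [sc_zero]⟩, by
      have h := hH a ha b hb i
      simp only [MonoidHom.comp_apply] at h
      rw [map_mul, map_mul, map_inv, map_inv, h, inv_mul_cancel, ac_one]⟩)
    rwa [Subgroup.coe_mul, map_mul, Subgroup.coe_inv, map_inv, inv_mul_eq_one] at this

end Pool.Agent.MP_f7db47_al.GN
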