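import Pool.Agent.MP_f7db47_al.PT.GLa

/-!
Elements of finite order in general linear groups.
-/

namespace Pool.Agent.MP_f7db47_al.GN

theorem GA_nil {A : Type} [CommRing A] {n : ℕ} (X : Matrix (Fin n) (Fin n) A)
    (h : ∀ i j, IsNilpotent (X i j)) : IsNilpotent X := by
  let I : Ideal A := Ideal.span (Set.range fun c : Fin n × Fin n => X c.1 c.2)
  have h1 : I.FG := Submodule.fg_span (Set.finite_range _)
  obtain ⟨k, hk⟩ := h1.isNilpotent_iff_le_nilradical.2 (Ideal.span_le.2 (by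
    rintro _ ⟨c, rfl⟩
    exact h c.1 c.2))
  have h2 : ∀ m i j, (X ^ m) i j ∈ I ^ m := by
    intro m
    induction m with
    | zero => intro i j; simp
    | succ m ih =>
      intro i j
      rw [pow_succ, pow_succ, Matrix.mul_apply]
      exact Ideal.sum_mem _ fun l _ =>
        Ideal.mul_mem_mul (ih i l) (Ideal.subset_span ⟨(l, j), rfl⟩)
  refine ⟨k, Matrix.ext fun i j => ?_⟩
  have h3 := h2 k i j
  rw [hk] at h3
  exact h3

/-- The invertible matrices defined over a subring. -/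
def GA_sub {A : Type} [CommRing A] (n : ℕ) (A₀ : Subring A) : Subgroup (GL (Fin n) A) where
  carrier := {g | (∀ i j, g.val i j ∈ A₀) ∧ ∀ i j, (g⁻¹).val i j ∈ A₀}
  one_mem' := by
    have : ∀ i j : Fin n, (1 : Matrix (Fin n) (Fin n) A) i j ∈ A₀ := fun i j => by
      rw [Matrix.one_apply]
      split_ifs
      · exact A₀.one_mem
      · exact A₀.zero_mem
    exact ⟨this, by simpa using this⟩
  mul_mem' := by
    rintro a b ⟨h1, h2⟩ ⟨h3, h4⟩
    refine ⟨fun i j => ?_, fun i j => ?_⟩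
    · rw [Units.val_mul, Matrix.mul_apply]
      exact A₀.sum_mem fun l _ => A₀.mul_mem (h1 _ _) (h3 _ _)
    · rw [mul_inv_rev, Units.val_mul, Matrix.mul_apply]
      exact A₀.sum_mem fun l _ => A₀.mul_mem (h4 _ _) (h2 _ _)
  inv_mem' := by
    rintro a ⟨h1, h2⟩
    exact ⟨h2, by rw [inv_inv]; exact h1⟩

theorem GA_inj {A : Type} [CommRing A] (n : ℕ) (A₀ : Subring A) :
    Function.Injective (Matrix.GeneralLinearGroup.map (n := Fin n) A₀.subtype) := by
  intro a b h
  refine Units.ext (Matrix.ext fun i j => Subtype.ext ?_)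
  exact congrArg (fun g : GL (Fin n) A => g.val i j) h

theorem GA_range {A : Type} [CommRing A] {n : ℕ} (A₀ : Subring A) (g : GL (Fin n) A)
    (hg : g ∈ GA_sub n A₀) :
    g ∈ (Matrix.GeneralLinearGroup.map (n := Fin n) A₀.subtype).range := by
  have hi : Function.Injective (A₀.subtype.mapMatrix (m := Fin n)) := fun a b h =>
    Matrix.ext fun i j => Subtype.ext (congrArg (fun M : Matrix (Fin n) (Fin n) A => M i j) h)
  let M : Matrix (Fin n) (Fin n) A₀ := fun i j => ⟨_, hg.1 i j⟩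
  let M' : Matrix (Fin n) (Fin n) A₀ := fun i j => ⟨_, hg.2 i j⟩
  have e1 : A₀.subtype.mapMatrix M = g.val := rfl
  have e2 : A₀.subtype.mapMatrix M' = (g⁻¹).val := rfl
  refine ⟨⟨M, M', hi ?_, hi ?_⟩, Units.ext e1⟩
  · rw [map_mul, map_one, e1, e2, Units.mul_inv]
  · rw [map_mul, map_one, e1, e2, Units.inv_mul]

theorem finOrder_of_integral (p : ℕ) [Fact p.Prime] (B : Type) [CommRing B] [Algebra (ZMod p) B]
    (n : ℕ) (g : GL (Fin n) B) (h : ∀ i, IsIntegral (ZMod p) (g.val.charpoly.coeff i)) :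
    IsOfFinOrder g := by
  let S := Algebra.adjoin (ZMod p) (g.val.charpoly.coeffs : Set B)
  have hfin : Module.Finite (ZMod p) S := by
    refine Algebra.finite_adjoin_of_finite_of_isIntegral (Finset.finite_toSet _) fun x hx => ?_
    obtain ⟨i, -, rfl⟩ := Polynomial.mem_coeffs_iff.1 hx
    exact h i
  have hF : Finite S := Module.finite_of_finite (ZMod p)
  obtain ⟨q, h1, -, h2⟩ := Polynomial.lifts_and_natDegree_eq_and_monic (f := algebraMap S B)
    ((Polynomial.lifts_iff_coeffs_subset_range _).2 fun x hx =>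
      ⟨⟨x, Algebra.subset_adjoin hx⟩, rfl⟩) g.val.charpoly_monic
  have h3 : IsIntegral S g.val := ⟨q, h2, by
    rw [← Polynomial.aeval_def, ← Polynomial.aeval_map_algebraMap B, h1,
      Matrix.aeval_self_charpoly]⟩
  have h4 : Module.Finite S (Algebra.adjoin S {g.val}).toSubmodule :=
    Module.Finite.iff_fg.2 h3.fg_adjoin_singleton
  have h5 : Finite (Algebra.adjoin S {g.val}).toSubmodule := Module.finite_of_finite S
  rw [← finite_powers]
  refine Set.Finite.of_finite_image (f := Units.val) ?_ Units.val_injective.injOn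
  refine (Set.toFinite ((Algebra.adjoin S {g.val}).toSubmodule : Set _)).subset ?_
  rintro _ ⟨_, ⟨m, rfl⟩, rfl⟩
  rw [Units.val_pow_eq_pow_val]
  exact pow_mem (Algebra.self_mem_adjoin_singleton S g.val) m

theorem finOrder_of_nil (A : Type) [CommRing A] (N : ℕ) (hN : 0 < N) (hA : (N : A) = 0) (n : ℕ)
    (g : GL (Fin n) A) (h : ∀ i j, IsNilpotent ((g.val - 1) i j)) : IsOfFinOrder g := by
  obtain ⟨k, hk⟩ := GA_nil _ h
  have hC : (N : Polynomial A) = 0 := by rw [← Polynomial.C_eq_natCast, hA, map_zero]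
  obtain ⟨m, hm, w, hw⟩ := PT.GLa_dvd N hN hC Polynomial.X k
  have h3 := congrArg (Polynomial.aeval (g.val - 1)) hw
  simp only [map_sub, map_pow, map_add, map_one, map_mul, Polynomial.aeval_X] at h3
  rw [pow_succ, hk, zero_mul, zero_mul, add_sub_cancel, sub_eq_zero] at h3
  exact isOfFinOrder_iff_pow_eq_one.2 ⟨m, hm, Units.ext (by simpa using h3)⟩

theorem exists_fg_subring {K : Type} [Group K] (hK : Group.FG K) (A : Type) [CommRing A] (n : ℕ)
    (f : K →* GL (Fin n) A) :
    ∃ (A₀ : Subring A) (f₀ : K →* GL (Fin n) A₀), Algebra.FiniteType ℤ A₀ ∧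
      ∀ g, Matrix.GeneralLinearGroup.map A₀.subtype (f₀ g) = f g := by
  obtain ⟨S, hS, hfin⟩ := Group.fg_iff.1 hK
  have := hfin.to_subtype
  let T : Set A := Set.range (fun c : S × Fin n × Fin n => (f c.1).val c.2.1 c.2.2) ∪
    Set.range (fun c : S × Fin n × Fin n => ((f c.1)⁻¹).val c.2.1 c.2.2)
  have hT : T.Finite := (Set.finite_range _).union (Set.finite_range _)
  let A₀ : Subring A := (Algebra.adjoin ℤ T).toSubring
  have hmem : ∀ g, f g ∈ GA_sub n A₀ := by
    have : (⊤ : Subgroup K) ≤ (GA_sub n A₀).comap f := by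
      rw [← hS, Subgroup.closure_le]
      intro s hs
      exact ⟨fun i j => Algebra.subset_adjoin (Or.inl ⟨(⟨s, hs⟩, i, j), rfl⟩),
        fun i j => Algebra.subset_adjoin (Or.inr ⟨(⟨s, hs⟩, i, j), rfl⟩)⟩
    exact fun g => this (Subgroup.mem_top g)
  let e := MonoidHom.ofInjective (GA_inj n A₀)
  refine ⟨A₀, e.symm.toMonoidHom.comp (f.codRestrict _ fun g => GA_range A₀ _ (hmem g)), ?_,
    fun g => ?_⟩
  · have h1 : (Algebra.adjoin ℤ T).FG := ⟨hT.toFinset, by simp⟩
    have h2 := (Subalgebra.fg_iff_finiteType _).1 h1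
    exact h2
  · exact congrArg Subtype.val (e.apply_symm_apply ⟨f g, GA_range A₀ _ (hmem g)⟩)

end Pool.Agent.MP_f7db47_al.GN
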