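import Mathlib

/-!
Clique complexes: definitions.
-/

namespace Pool.Agent.MP_f7db47_al.GN

variable {V : Type}

/-- Cliques inside `B`. The empty set is a clique. -/
def Clq (Adj : V → V → Prop) (B σ : Finset V) : Prop :=
  σ ⊆ B ∧ ∀ x ∈ σ, ∀ y ∈ σ, x ≠ y → Adj x y

/-- Chains of cliques with `n` elements inside `B`. -/
def Ch (Adj : V → V → Prop) (B : Finset V) (n : ℕ) (c : Finset V →₀ ℤ) : Prop :=
  ∀ σ, c σ ≠ 0 → Clq Adj B σ ∧ σ.card = n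

/-- The linear extension of a map defined on simplices. -/
noncomputable def lin {W : Type} (x : Finset V → (Finset W →₀ ℤ)) :
    (Finset V →₀ ℤ) →ₗ[ℤ] (Finset W →₀ ℤ) :=
  Finsupp.linearCombination ℤ x

variable [LinearOrder V]

/-- The boundary of a simplex, in the augmented complex. -/
noncomputable def bd1 (σ : Finset V) : Finset V →₀ ℤ :=
  ∑ v ∈ σ, Finsupp.single (σ.erase v) ((-1) ^ (σ.filter (· < v)).card)

/-- The boundary operator. -/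
noncomputable def bd : (Finset V →₀ ℤ) →ₗ[ℤ] (Finset V →₀ ℤ) := lin bd1

/-- The augmented clique complex is exact. -/
def Acyc (Adj : V → V → Prop) (B : Finset V) : Prop :=
  ∀ n c, Ch Adj B n c → bd c = 0 → ∃ c', Ch Adj B (n + 1) c' ∧ bd c' = c

omit [LinearOrder V] in
/-- A dismantling of the graph. -/
def Dism (Adj : V → V → Prop) (B : Finset V) : Prop :=
  ∃ (rk : V → ℤ) (z₀ : V) (f : V → V), z₀ ∈ B ∧ ∀ z ∈ B, z ≠ z₀ → rk z₀ < rk z ∧ f z ∈ B ∧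
    rk (f z) < rk z ∧ ∀ w ∈ B, (w = z ∨ Adj w z) → rk w ≤ rk z → (w = f z ∨ Adj w (f z))

/-- The data for the transfer: acyclic complexes `K j` and acyclic carriers. -/
structure TrD {G J : Type} [Group G] (r₁ r₂ : J → G → J → Prop) (K : J → Finset V)
    (Adj : J → V → V → Prop) (C₁ C₂ : J → G → J → Finset V → Finset V) (n : ℕ) : Prop where
  r12 : ∀ {i g j}, r₁ i g j → r₂ i g j
  rmul : ∀ {i g j g' k}, r₁ i g j → r₁ j g' k → r₂ i (g * g') k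
  symm : ∀ j x y, Adj j x y → Adj j y x
  dim : ∀ j σ, Clq (Adj j) (K j) σ → σ.card ≤ n
  acyc : ∀ j, Acyc (Adj j) (K j)
  sub₁ : ∀ {i g j} σ, r₂ i g j → C₁ i g j σ ⊆ K i
  sub₂ : ∀ {i g j} σ, r₂ i g j → C₂ i g j σ ⊆ K i
  mono₁ : ∀ {i g j σ τ}, r₂ i g j → τ ⊆ σ → C₁ i g j τ ⊆ C₁ i g j σ
  mono₂ : ∀ {i g j σ τ}, r₂ i g j → τ ⊆ σ → C₂ i g j τ ⊆ C₂ i g j σ
  acyc₁ : ∀ {i g j σ}, r₂ i g j → Clq (Adj j) (K j) σ → σ.Nonempty → Acyc (Adj i) (C₁ i g j σ)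
  acyc₂ : ∀ {i g j σ}, r₂ i g j → Clq (Adj j) (K j) σ → σ.Nonempty → Acyc (Adj i) (C₂ i g j σ)
  self : ∀ {j σ}, Clq (Adj j) (K j) σ → σ ⊆ C₁ j 1 j σ
  le₁₂ : ∀ {i g j} σ, r₂ i g j → C₁ i g j σ ⊆ C₂ i g j σ
  comp : ∀ {i g j g' k σ τ}, r₁ i g j → r₁ j g' k → Clq (Adj k) (K k) σ → σ.Nonempty →
    Clq (Adj j) (K j) τ → τ.Nonempty → τ ⊆ C₁ j g' k σ → C₁ i g j τ ⊆ C₂ i (g * g') k σ

end Pool.Agent.MP_f7db47_al.GN
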