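import Pool.Agent.MP_f7db47_al.GN.CAcyc

/-!
The acyclic carrier theorem.
-/

namespace Pool.Agent.MP_f7db47_al.GN

variable {V W : Type} [LinearOrder V] [LinearOrder W]

omit [LinearOrder V] [LinearOrder W] in
theorem CExt_lin_single (x : Finset V → (Finset W →₀ ℤ)) (σ : Finset V) :
    lin x (Finsupp.single σ 1) = x σ := by
  simp [lin]

omit [LinearOrder V] [LinearOrder W] in
theorem CExt_lin_eq (x : Finset V → (Finset W →₀ ℤ)) (c : Finset V →₀ ℤ) :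
    lin x c = ∑ τ ∈ c.support, c τ • x τ := by
  simp [lin, Finsupp.linearCombination_apply, Finsupp.sum]

omit [LinearOrder V] [LinearOrder W] in
theorem CExt_lin_congr {x y : Finset V → (Finset W →₀ ℤ)} {c : Finset V →₀ ℤ}
    (h : ∀ τ, c τ ≠ 0 → x τ = y τ) : lin x c = lin y c := by
  rw [CExt_lin_eq, CExt_lin_eq]
  exact Finset.sum_congr rfl fun τ hτ => by rw [h τ (Finsupp.mem_support_iff.1 hτ)]

omit [LinearOrder V] [LinearOrder W] in
theorem CExt_map_lin {U : Type} (f : (Finset W →₀ ℤ) →ₗ[ℤ] (Finset U →₀ ℤ))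
    (x : Finset V → (Finset W →₀ ℤ)) (c : Finset V →₀ ℤ) :
    f (lin x c) = lin (fun τ => f (x τ)) c := by
  simp only [CExt_lin_eq, map_sum, map_smul]

omit [LinearOrder V] [LinearOrder W] in
theorem CExt_lin_add_smul (x y : Finset V → (Finset W →₀ ℤ)) (ε : ℤ) (c : Finset V →₀ ℤ) :
    lin (fun τ => x τ + ε • y τ) c = lin x c + ε • lin y c := by
  simp only [CExt_lin_eq, smul_add, Finset.sum_add_distrib, Finset.smul_sum, smul_comm ε]

omit [LinearOrder V] [LinearOrder W] in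
theorem CExt_lin_sub (x y : Finset V → (Finset W →₀ ℤ)) (c : Finset V →₀ ℤ) :
    lin (fun τ => x τ - y τ) c = lin x c - lin y c := by
  simp only [CExt_lin_eq, smul_sub, Finset.sum_sub_distrib]

omit [LinearOrder V] in
theorem CExt_lin_id (c : Finset V →₀ ℤ) : lin (fun τ => Finsupp.single τ 1) c = c := by
  rw [CExt_lin_eq]
  simp only [Finsupp.smul_single, smul_eq_mul, mul_one]
  exact c.sum_single

theorem CExt_bd_single (σ : Finset V) : bd (Finsupp.single σ 1) = bd1 σ := CExt_lin_single _ _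

theorem CExt_bd1_empty : bd1 (∅ : Finset V) = 0 := by simp [bd1]

theorem CExt_bd1_ne {σ τ : Finset V} (h : bd1 σ τ ≠ 0) : ∃ v ∈ σ, τ = σ.erase v := by
  rw [bd1, Finsupp.finsetSum_apply] at h
  obtain ⟨v, hv, h⟩ := Finset.exists_ne_zero_of_sum_ne_zero h
  exact ⟨v, hv, (Finsupp.single_apply_ne_zero.1 h).1⟩

omit [LinearOrder V] in
theorem CExt_clq_sub {Adj : V → V → Prop} {B σ τ : Finset V} (h : Clq Adj B σ) (hτ : τ ⊆ σ) :
    Clq Adj B τ :=
  ⟨hτ.trans h.1, fun x hx y hy => h.2 x (hτ hx) y (hτ hy)⟩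

omit [LinearOrder V] in
theorem CExt_ch_mono {Adj : V → V → Prop} {B B' : Finset V} {n : ℕ} {c : Finset V →₀ ℤ}
    (h : Ch Adj B n c) (hB : B ⊆ B') : Ch Adj B' n c :=
  fun σ hσ => ⟨⟨(h σ hσ).1.1.trans hB, (h σ hσ).1.2⟩, (h σ hσ).2⟩

omit [LinearOrder V] in
theorem CExt_ch_zero (Adj : V → V → Prop) (B : Finset V) (n : ℕ) : Ch Adj B n 0 :=
  fun _ hσ => absurd rfl hσ

omit [LinearOrder V] in
theorem CExt_ch_add_smul {Adj : V → V → Prop} {B : Finset V} {n : ℕ} {c c' : Finset V →₀ ℤ}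
    (h : Ch Adj B n c) (h' : Ch Adj B n c') (ε : ℤ) : Ch Adj B n (c + ε • c') := by
  intro σ hσ
  by_cases h0 : c σ = 0
  · refine h' σ fun h1 => hσ ?_
    simp [h0, h1]
  · exact h σ h0

omit [LinearOrder V] in
theorem CExt_ch_single {Adj : V → V → Prop} {B σ : Finset V} {n : ℕ} (h : Clq Adj B σ)
    (hn : σ.card = n) : Ch Adj B n (Finsupp.single σ 1) := by
  intro τ hτ
  obtain rfl := (Finsupp.single_apply_ne_zero.1 hτ).1
  exact ⟨h, hn⟩

omit [LinearOrder V] [LinearOrder W] in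
theorem CExt_ch_lin {Adj : W → W → Prop} {B : Finset W} {n : ℕ}
    {x : Finset V → (Finset W →₀ ℤ)} {c : Finset V →₀ ℤ} (h : ∀ τ, c τ ≠ 0 → Ch Adj B n (x τ)) :
    Ch Adj B n (lin x c) := by
  intro σ hσ
  rw [CExt_lin_eq, Finsupp.finsetSum_apply] at hσ
  obtain ⟨τ, hτ, h1⟩ := Finset.exists_ne_zero_of_sum_ne_zero hσ
  refine h τ (Finsupp.mem_support_iff.1 hτ) σ fun h2 => h1 ?_
  simp [h2]

theorem CExt_bd_lin {x ψ : Finset V → (Finset W →₀ ℤ)} {ε : ℤ} {c : Finset V →₀ ℤ}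
    (h : ∀ τ, c τ ≠ 0 → bd (x τ) = ψ τ + ε • lin x (bd1 τ)) :
    bd (lin x c) = lin ψ c + ε • lin x (bd c) := by
  rw [CExt_map_lin, CExt_lin_congr h, CExt_lin_add_smul, ← CExt_map_lin]
  rfl

theorem extend {Adj : V → V → Prop} {K : Finset V} {Adj' : W → W → Prop}
    (Car : Finset V → Finset W) (hmono : ∀ σ τ, τ ⊆ σ → Car τ ⊆ Car σ)
    (hac : ∀ σ, Clq Adj K σ → σ.Nonempty → Acyc Adj' (Car σ)) (sh : ℕ) (ε : ℤ)
    (ψ : Finset V → (Finset W →₀ ℤ)) (x₀ : Finset W →₀ ℤ) (h₀ : bd x₀ = ψ ∅)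
    (hx₀ : ∀ σ, Clq Adj K σ → σ.Nonempty → Ch Adj' (Car σ) sh x₀)
    (hψ : ∀ σ n, Clq Adj K σ → σ.card = n + 1 → Ch Adj' (Car σ) (n + sh) (ψ σ))
    (hc : ∀ σ, Clq Adj K σ → bd (ψ σ) + ε • lin ψ (bd1 σ) = 0) :
    ∃ x : Finset V → (Finset W →₀ ℤ), x ∅ = x₀ ∧ ∀ σ, Clq Adj K σ → σ.Nonempty →
      Ch Adj' (Car σ) (σ.card + sh) (x σ) ∧ bd (x σ) = ψ σ + ε • lin x (bd1 σ) := by
  classical
  have key : ∀ m : ℕ, ∃ x : Finset V → (Finset W →₀ ℤ), x ∅ = x₀ ∧ ∀ σ, Clq Adj K σ →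
      σ.Nonempty → σ.card ≤ m →
      Ch Adj' (Car σ) (σ.card + sh) (x σ) ∧ bd (x σ) = ψ σ + ε • lin x (bd1 σ) := by
    intro m
    induction m with
    | zero =>
      exact ⟨fun _ => x₀, rfl, fun σ _ hσ h => absurd hσ.card_pos (by omega)⟩
    | succ m ih =>
      obtain ⟨x, hx0, hx⟩ := ih
      have fill : ∀ σ, ∃ c, Clq Adj K σ → σ.card = m + 1 →
          Ch Adj' (Car σ) (σ.card + sh) c ∧ bd c = ψ σ + ε • lin x (bd1 σ) := by
        intro σ
        by_cases hσ : Clq Adj K σ ∧ σ.card = m + 1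
        swap
        · exact ⟨0, fun h1 h2 => absurd ⟨h1, h2⟩ hσ⟩
        obtain ⟨h1, h2⟩ := hσ
        have hne : σ.Nonempty := Finset.card_pos.1 (by omega)
        have hch : Ch Adj' (Car σ) (m + sh) (ψ σ + ε • lin x (bd1 σ)) := by
          refine CExt_ch_add_smul (hψ σ m h1 h2) (CExt_ch_lin fun τ hτ => ?_) ε
          obtain ⟨v, hv, rfl⟩ := CExt_bd1_ne hτ
          have hcard : (σ.erase v).card = m := by rw [Finset.card_erase_of_mem hv]; omega
          rcases (σ.erase v).eq_empty_or_nonempty with he | he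
          · have hm : m = 0 := by rw [← hcard, he]; rfl
            rw [he, hx0, hm, zero_add]
            exact hx₀ σ h1 hne
          · have := (hx _ (CExt_clq_sub h1 (σ.erase_subset v)) he hcard.le).1
            rw [hcard] at this
            exact CExt_ch_mono this (hmono _ _ (σ.erase_subset v))
        have hcy : bd (ψ σ + ε • lin x (bd1 σ)) = 0 := by
          have h3 : bd (lin x (bd1 σ)) = lin ψ (bd1 σ) + ε • lin x (bd (bd1 σ)) := by
            refine CExt_bd_lin fun τ hτ => ?_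
            obtain ⟨v, hv, rfl⟩ := CExt_bd1_ne hτ
            have hcard : (σ.erase v).card = m := by rw [Finset.card_erase_of_mem hv]; omega
            rcases (σ.erase v).eq_empty_or_nonempty with he | he
            · rw [he, hx0, h₀, CExt_bd1_empty, map_zero, smul_zero, add_zero]
            · exact (hx _ (CExt_clq_sub h1 (σ.erase_subset v)) he hcard.le).2
          have h4 : bd (bd1 σ) = 0 := by rw [← CExt_bd_single, bd_bd]
          rw [map_add, map_smul, h3, h4, map_zero, smul_zero, add_zero, hc σ h1]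
        obtain ⟨c, hc1, hc2⟩ := hac σ h1 hne _ _ hch hcy
        refine ⟨c, fun _ _ => ⟨?_, hc2⟩⟩
        rwa [h2, Nat.add_right_comm]
      choose y hy using fill
      refine ⟨fun σ => if σ.card = m + 1 then y σ else x σ, by simp [hx0], fun σ h1 hne hle => ?_⟩
      have hl : lin (fun σ => if σ.card = m + 1 then y σ else x σ) (bd1 σ) = lin x (bd1 σ) := by
        refine CExt_lin_congr fun τ hτ => ?_
        obtain ⟨v, hv, rfl⟩ := CExt_bd1_ne hτ
        have := Finset.card_erase_of_mem hv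
        have := hne.card_pos
        rw [if_neg (by omega)]
      rw [hl]
      by_cases h2 : σ.card = m + 1
      · simp only [if_pos h2]
        exact hy σ h1 h2
      · simp only [if_neg h2]
        exact hx σ h1 hne (by omega)
  obtain ⟨x, hx0, hx⟩ := key K.card
  exact ⟨x, hx0, fun σ h1 hne => hx σ h1 hne (Finset.card_le_card h1.1)⟩

/-- Chain maps, homotopies and contractions for the transfer. -/
theorem TrD.chain {G J : Type} [Group G] {r₁ r₂ : J → G → J → Prop} {K : J → Finset V}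
    {Adj : J → V → V → Prop} {C₁ C₂ : J → G → J → Finset V → Finset V} {n : ℕ}
    (h : TrD r₁ r₂ K Adj C₁ C₂ n) :
    ∃ (φ : J → G → J → Finset V → (Finset V →₀ ℤ))
      (H : J → G → J → G → J → Finset V → (Finset V →₀ ℤ)) (o : J → V)
      (s : J → Finset V → (Finset V →₀ ℤ)),
      (∀ j σ, φ j 1 j σ = Finsupp.single σ 1) ∧
      (∀ i g j, φ i g j ∅ = Finsupp.single ∅ 1) ∧
      (∀ i g j σ, r₂ i g j → Clq (Adj j) (K j) σ → σ.Nonempty →
        Ch (Adj i) (C₁ i g j σ) σ.card (φ i g j σ) ∧ bd (φ i g j σ) = lin (φ i g j) (bd1 σ)) ∧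
      (∀ i g j g' k, H i g j g' k ∅ = 0) ∧
      (∀ i g j g' k σ, r₁ i g j → r₁ j g' k → Clq (Adj k) (K k) σ → σ.Nonempty →
        Ch (Adj i) (C₂ i (g * g') k σ) (σ.card + 1) (H i g j g' k σ) ∧
        bd (H i g j g' k σ) + lin (H i g j g' k) (bd1 σ) =
          lin (φ i g j) (φ j g' k σ) - φ i (g * g') k σ) ∧
      (∀ j, o j ∈ K j ∧ s j ∅ = Finsupp.single {o j} 1) ∧
      ∀ j σ, Clq (Adj j) (K j) σ → σ.Nonempty → Ch (Adj j) (K j) (σ.card + 1) (s j σ) ∧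
        bd (s j σ) + lin (s j) (bd1 σ) = Finsupp.single σ 1 := by
  have hφ : ∀ i g j, ∃ φ : Finset V → (Finset V →₀ ℤ),
      (g = 1 ∧ i = j → ∀ σ, φ σ = Finsupp.single σ 1) ∧ φ ∅ = Finsupp.single ∅ 1 ∧
      (r₂ i g j → ∀ σ, Clq (Adj j) (K j) σ → σ.Nonempty →
        Ch (Adj i) (C₁ i g j σ) σ.card (φ σ) ∧ bd (φ σ) = lin φ (bd1 σ)) := by
    intro i g j
    by_cases h1 : g = 1 ∧ i = j
    · obtain ⟨rfl, rfl⟩ := h1
      refine ⟨fun σ => Finsupp.single σ 1, fun _ _ => rfl, rfl, fun _ σ hσ _ => ⟨?_, ?_⟩⟩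
      · exact CExt_ch_single ⟨h.self hσ, hσ.2⟩ rfl
      · rw [CExt_bd_single, CExt_lin_id]
    by_cases h2 : r₂ i g j
    · obtain ⟨x, hx0, hx⟩ := extend (Adj := Adj j) (K := K j) (Adj' := Adj i) (C₁ i g j)
        (fun σ τ hτ => h.mono₁ h2 hτ) (fun σ hσ hne => h.acyc₁ h2 hσ hne) 0 1 (fun _ => 0)
        (Finsupp.single ∅ 1) (by rw [CExt_bd_single, CExt_bd1_empty])
        (fun σ _ _ => CExt_ch_single ⟨Finset.empty_subset _, by simp⟩ rfl)
        (fun σ n _ _ => CExt_ch_zero _ _ _) (fun σ _ => by simp [CExt_lin_eq])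
      refine ⟨x, fun h3 => absurd h3 h1, hx0, fun _ σ hσ hne => ?_⟩
      simpa using hx σ hσ hne
    · exact ⟨fun _ => Finsupp.single ∅ 1, fun h3 => absurd h3 h1, rfl, fun h3 => absurd h3 h2⟩
  choose φ hφ1 hφ0 hφ using hφ
  have hH : ∀ i g j g' k, ∃ H : Finset V → (Finset V →₀ ℤ), H ∅ = 0 ∧
      (r₁ i g j → r₁ j g' k → ∀ σ, Clq (Adj k) (K k) σ → σ.Nonempty →
        Ch (Adj i) (C₂ i (g * g') k σ) (σ.card + 1) (H σ) ∧
        bd (H σ) + lin H (bd1 σ) = lin (φ i g j) (φ j g' k σ) - φ i (g * g') k σ) := by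
    intro i g j g' k
    by_cases h1 : r₁ i g j ∧ r₁ j g' k
    swap
    · exact ⟨fun _ => 0, rfl, fun h2 h3 => absurd ⟨h2, h3⟩ h1⟩
    obtain ⟨h1, h2⟩ := h1
    have h3 := h.rmul h1 h2
    have hsup : ∀ σ τ, Clq (Adj k) (K k) σ → σ.Nonempty → φ j g' k σ τ ≠ 0 →
        Clq (Adj j) (K j) τ ∧ τ.Nonempty ∧ τ ⊆ C₁ j g' k σ ∧ τ.card = σ.card := by
      intro σ τ hσ hne hτ
      obtain ⟨h4, h5⟩ := (hφ j g' k (h.r12 h2) σ hσ hne).1 τ hτ
      exact ⟨⟨h4.1.trans (h.sub₁ σ (h.r12 h2)), h4.2⟩,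
        Finset.card_pos.1 (h5 ▸ hne.card_pos), h4.1, h5⟩
    have h0 : lin (φ i g j) (φ j g' k ∅) - φ i (g * g') k ∅ = 0 := by
      rw [hφ0, CExt_lin_single, hφ0, hφ0, sub_self]
    obtain ⟨x, hx0, hx⟩ := extend (Adj := Adj k) (K := K k) (Adj' := Adj i) (C₂ i (g * g') k)
      (fun σ τ hτ => h.mono₂ h3 hτ) (fun σ hσ hne => h.acyc₂ h3 hσ hne) 1 (-1)
      (fun σ => lin (φ i g j) (φ j g' k σ) - φ i (g * g') k σ) 0 (by rw [map_zero, h0])
      (fun σ _ _ => CExt_ch_zero _ _ _) (fun σ n hσ hn => by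
        have hne : σ.Nonempty := Finset.card_pos.1 (by omega)
        rw [sub_eq_add_neg, ← neg_one_smul ℤ (φ i (g * g') k σ), ← hn]
        refine CExt_ch_add_smul (CExt_ch_lin fun τ hτ => ?_)
          (CExt_ch_mono (hφ _ _ _ h3 σ hσ hne).1 (h.le₁₂ σ h3)) _
        obtain ⟨h4, h5, h6, h7⟩ := hsup σ τ hσ hne hτ
        rw [← h7]
        exact CExt_ch_mono (hφ _ _ _ (h.r12 h1) τ h4 h5).1 (h.comp h1 h2 hσ hne h4 h5 h6))
      (fun σ hσ => by
        rcases σ.eq_empty_or_nonempty with rfl | hne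
        · rw [h0, CExt_bd1_empty, map_zero, map_zero, smul_zero, add_zero]
        have h4 : bd (lin (φ i g j) (φ j g' k σ)) =
            lin (fun _ => 0) (φ j g' k σ) + (1 : ℤ) • lin (φ i g j) (bd (φ j g' k σ)) := by
          refine CExt_bd_lin fun τ hτ => ?_
          obtain ⟨h4, h5, -, -⟩ := hsup σ τ hσ hne hτ
          rw [zero_add, one_smul]
          exact (hφ _ _ _ (h.r12 h1) τ h4 h5).2
        rw [map_sub, h4, (hφ _ _ _ (h.r12 h2) σ hσ hne).2, (hφ _ _ _ h3 σ hσ hne).2,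
          CExt_lin_sub, CExt_map_lin]
        simp [CExt_lin_eq (fun _ => 0)])
    refine ⟨x, hx0, fun _ _ σ hσ hne => ⟨(hx σ hσ hne).1, ?_⟩⟩
    rw [(hx σ hσ hne).2, neg_one_smul, neg_add_cancel_right]
  choose H hH0 hH using hH
  have hs : ∀ j, ∃ (o : V) (s : Finset V → (Finset V →₀ ℤ)),
      (o ∈ K j ∧ s ∅ = Finsupp.single {o} 1) ∧
      ∀ σ, Clq (Adj j) (K j) σ → σ.Nonempty → Ch (Adj j) (K j) (σ.card + 1) (s σ) ∧
        bd (s σ) + lin s (bd1 σ) = Finsupp.single σ 1 := by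
    intro j
    obtain ⟨c, hc1, hc2⟩ := h.acyc j 0 (Finsupp.single ∅ 1)
      (CExt_ch_single ⟨Finset.empty_subset _, by simp⟩ rfl)
      (by rw [CExt_bd_single, CExt_bd1_empty])
    have hc0 : c ≠ 0 := by
      rintro rfl
      rw [map_zero] at hc2
      exact one_ne_zero (Finsupp.single_eq_zero.1 hc2.symm)
    obtain ⟨τ, hτ⟩ := Finsupp.ne_iff.1 hc0
    obtain ⟨h1, h2⟩ := hc1 τ hτ
    obtain ⟨o, rfl⟩ := Finset.card_eq_one.1 h2
    obtain ⟨x, hx0, hx⟩ := extend (Adj := Adj j) (K := K j) (Adj' := Adj j) (fun _ => K j)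
      (fun σ τ _ => subset_rfl) (fun σ _ _ => h.acyc j) 1 (-1) (fun σ => Finsupp.single σ 1)
      (Finsupp.single {o} 1) (by rw [CExt_bd_single]; simp [bd1, Finset.filter_singleton])
      (fun σ _ _ => CExt_ch_single h1 rfl) (fun σ n hσ hn => CExt_ch_single hσ hn)
      (fun σ _ => by rw [CExt_bd_single, CExt_lin_id, neg_one_smul, add_neg_cancel])
    refine ⟨o, x, ⟨h1.1 (Finset.mem_singleton_self o), hx0⟩, fun σ hσ hne =>
      ⟨(hx σ hσ hne).1, ?_⟩⟩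
    rw [(hx σ hσ hne).2, neg_one_smul, neg_add_cancel_right]
  choose o s hs0 hs using hs
  exact ⟨φ, H, o, s, fun j σ => hφ1 j 1 j ⟨rfl, rfl⟩ σ, hφ0,
    fun i g j σ h1 h2 h3 => hφ i g j h1 σ h2 h3, hH0,
    fun i g j g' k σ h1 h2 h3 h4 => hH i g j g' k h1 h2 σ h3 h4, hs0, hs⟩

end Pool.Agent.MP_f7db47_al.GN
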