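import Pool.Agent.MP_f7db47_al.GN.DC

/-!
Dismantlable graphs have acyclic clique complexes.
-/

namespace Pool.Agent.MP_f7db47_al.GN

variable {V : Type} [LinearOrder V]

/-- The sign of a vertex with respect to a simplex. -/
def CAcyc_sg (y : V) (σ : Finset V) : ℤ := (-1) ^ (σ.filter (· < y)).card

theorem CAcyc_sg_insert (v : V) {a : V} {σ : Finset V} (h : a ∉ σ) :
    CAcyc_sg v (insert a σ) = (if a < v then -1 else 1) * CAcyc_sg v σ := by
  unfold CAcyc_sg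
  rw [Finset.filter_insert]
  split_ifs
  · rw [Finset.card_insert_of_notMem fun h' => h (Finset.mem_filter.1 h').1, pow_succ']
  · rw [one_mul]

theorem CAcyc_sg_sq (v : V) (σ : Finset V) : CAcyc_sg v σ * CAcyc_sg v σ = 1 := by
  unfold CAcyc_sg
  rw [← mul_pow]
  simp

/-- The cone over a simplex. -/
noncomputable def CAcyc_cone (y : V) (σ : Finset V) : Finset V →₀ ℤ :=
  if y ∈ σ then 0 else Finsupp.single (insert y σ) (CAcyc_sg y σ)

omit [LinearOrder V] in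
theorem CAcyc_lin {W : Type} (x : Finset V → (Finset W →₀ ℤ)) (σ : Finset V) (a : ℤ) :
    lin x (Finsupp.single σ a) = a • x σ := Finsupp.linearCombination_single ℤ a σ

theorem CAcyc_bd1 (σ : Finset V) :
    bd1 σ = ∑ v ∈ σ, Finsupp.single (σ.erase v) (CAcyc_sg v σ) := rfl

theorem CAcyc_hom1 (y : V) (σ : Finset V) :
    bd (CAcyc_cone y σ) + lin (CAcyc_cone y) (bd1 σ) = Finsupp.single σ 1 := by
  rw [CAcyc_bd1, map_sum]
  simp only [CAcyc_lin]
  by_cases h : y ∈ σ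
  · rw [CAcyc_cone, if_pos h, map_zero, zero_add, Finset.sum_eq_single_of_mem y h]
    · have := CAcyc_sg_insert y (Finset.notMem_erase y σ)
      rw [Finset.insert_erase h, if_neg (lt_irrefl y), one_mul] at this
      rw [CAcyc_cone, if_neg (Finset.notMem_erase y σ), Finset.insert_erase h, Finsupp.smul_single,
        smul_eq_mul, ← this, CAcyc_sg_sq]
    · intro v _ hv
      rw [CAcyc_cone, if_pos (Finset.mem_erase.2 ⟨hv.symm, h⟩), smul_zero]
  · rw [CAcyc_cone, if_neg h, bd, CAcyc_lin, CAcyc_bd1, Finset.sum_insert h, smul_add,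
      Finset.erase_insert h, CAcyc_sg_insert y h, if_neg (lt_irrefl y), one_mul,
      Finsupp.smul_single, smul_eq_mul, CAcyc_sg_sq, add_assoc, Finset.smul_sum,
      ← Finset.sum_add_distrib, Finset.sum_eq_zero, add_zero]
    intro v hv
    have hvy : v ≠ y := fun e => h (e ▸ hv)
    have h1 := CAcyc_sg_insert y (Finset.notMem_erase v σ)
    rw [Finset.insert_erase hv] at h1
    rw [CAcyc_cone, if_neg fun h' => h (Finset.mem_of_mem_erase h'), Finsupp.smul_single,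
      Finsupp.smul_single, Finset.erase_insert_of_ne hvy.symm, ← Finsupp.single_add,
      CAcyc_sg_insert v h, h1, smul_eq_mul, smul_eq_mul]
    rcases lt_or_gt_of_ne hvy with h2 | h2
    · rw [if_pos h2, if_neg h2.not_gt]
      exact Finsupp.single_eq_zero.2 (by ring)
    · rw [if_pos h2, if_neg h2.not_gt]
      exact Finsupp.single_eq_zero.2 (by ring)

theorem CAcyc_hom (y : V) (c : Finset V →₀ ℤ) :
    bd (lin (CAcyc_cone y) c) + lin (CAcyc_cone y) (bd c) = c := by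
  induction c using Finsupp.induction_linear with
  | zero => simp
  | add a b ha hb =>
    simp only [map_add]
    rw [add_add_add_comm, ha, hb]
  | single σ a =>
    rw [CAcyc_lin, map_smul]
    conv_lhs => enter [2]; rw [bd, CAcyc_lin, map_smul]
    rw [← smul_add, CAcyc_hom1, Finsupp.smul_single, smul_eq_mul, mul_one]

theorem CAcyc_bd_bd1 (σ : Finset V) : bd (bd1 σ) = 0 := by
  induction σ using Finset.induction_on with
  | empty => simp [bd1]
  | insert y σ h ih =>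
    have h1 := congrArg bd (CAcyc_hom1 y σ)
    have h2 := CAcyc_hom y (bd1 σ)
    rw [ih, map_zero, add_zero] at h2
    rw [map_add, h2] at h1
    have h3 : bd (Finsupp.single σ (1 : ℤ)) = bd1 σ := by rw [bd, CAcyc_lin, one_smul]
    rw [h3, add_eq_right, CAcyc_cone, if_neg h] at h1
    have h4 : bd (Finsupp.single (insert y σ) (CAcyc_sg y σ)) =
        CAcyc_sg y σ • bd1 (insert y σ) := by rw [bd, CAcyc_lin]
    rw [h4, map_smul] at h1
    rw [← one_smul ℤ (bd (bd1 (insert y σ))), ← CAcyc_sg_sq y σ, mul_smul, h1, smul_zero]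

theorem bd_bd (c : Finset V →₀ ℤ) : bd (bd c) = 0 := by
  induction c using Finsupp.induction_linear with
  | zero => simp
  | add a b ha hb => rw [map_add, map_add, ha, hb, add_zero]
  | single σ a =>
    have : bd (Finsupp.single σ a) = a • bd1 σ := CAcyc_lin _ _ _
    rw [this, map_smul, CAcyc_bd_bd1, smul_zero]

omit [LinearOrder V] in
theorem CAcyc_lin_ne {W : Type} {x : Finset V → (Finset W →₀ ℤ)} {c : Finset V →₀ ℤ}
    {τ : Finset W} (h : lin x c τ ≠ 0) : ∃ σ, c σ ≠ 0 ∧ x σ τ ≠ 0 := by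
  rw [lin, Finsupp.linearCombination_apply, Finsupp.sum, Finsupp.finsetSum_apply] at h
  obtain ⟨σ, -, h2⟩ := Finset.exists_ne_zero_of_sum_ne_zero h
  rw [Finsupp.smul_apply, smul_eq_mul] at h2
  exact ⟨σ, mul_ne_zero_iff.1 h2⟩

theorem CAcyc_bd_ne {c : Finset V →₀ ℤ} {τ : Finset V} (h : bd c τ ≠ 0) :
    ∃ σ, c σ ≠ 0 ∧ ∃ v ∈ σ, τ = σ.erase v := by
  obtain ⟨σ, h1, h2⟩ := CAcyc_lin_ne h
  rw [CAcyc_bd1, Finsupp.finsetSum_apply] at h2
  obtain ⟨v, hv, h3⟩ := Finset.exists_ne_zero_of_sum_ne_zero h2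
  exact ⟨σ, h1, v, hv, (Finsupp.single_apply_ne_zero.1 h3).1⟩

theorem CAcyc_cone_ne {y : V} {c : Finset V →₀ ℤ} {τ : Finset V}
    (h : lin (CAcyc_cone y) c τ ≠ 0) : ∃ σ, c σ ≠ 0 ∧ y ∉ σ ∧ τ = insert y σ := by
  obtain ⟨σ, h1, h2⟩ := CAcyc_lin_ne h
  unfold CAcyc_cone at h2
  split_ifs at h2 with h3
  · simp at h2
  · exact ⟨σ, h1, h3, (Finsupp.single_apply_ne_zero.1 h2).1⟩

theorem CAcyc_clq {Adj : V → V → Prop} (hs : ∀ x y, Adj x y → Adj y x) {B σ : Finset V} {y : V}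
    (hy : y ∈ B) (h : Clq Adj B σ) (h' : ∀ w ∈ σ, w = y ∨ Adj w y) : Clq Adj B (insert y σ) := by
  refine ⟨Finset.insert_subset hy h.1, fun a ha b hb hab => ?_⟩
  rcases Finset.mem_insert.1 ha with rfl | ha' <;> rcases Finset.mem_insert.1 hb with rfl | hb'
  · exact absurd rfl hab
  · exact hs _ _ ((h' b hb').resolve_left hab.symm)
  · exact (h' a ha').resolve_left hab
  · exact h.2 a ha' b hb' hab

theorem CAcyc_ch {Adj : V → V → Prop} (hs : ∀ x y, Adj x y → Adj y x) {B : Finset V} {y : V}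
    (hy : y ∈ B) {n : ℕ} {c : Finset V →₀ ℤ} (h : Ch Adj B n c)
    (h' : ∀ σ, c σ ≠ 0 → ∀ w ∈ σ, w = y ∨ Adj w y) : Ch Adj B (n + 1) (lin (CAcyc_cone y) c) := by
  intro τ hτ
  obtain ⟨σ, h1, h2, rfl⟩ := CAcyc_cone_ne hτ
  exact ⟨CAcyc_clq hs hy (h σ h1).1 (h' σ h1), by rw [Finset.card_insert_of_notMem h2, (h σ h1).2]⟩

theorem CAcyc_step {Adj : V → V → Prop} (hs : ∀ x y, Adj x y → Adj y x) {B : Finset V} {y z : V}
    (hy : y ∈ B) (hyz : y ≠ z) (hd : ∀ w ∈ B, (w = z ∨ Adj w z) → (w = y ∨ Adj w y))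
    (h : Acyc Adj (B.erase z)) : Acyc Adj B := by
  intro n c hc h0
  obtain ⟨cz, hcz⟩ : ∃ cz, cz = c.filter (z ∈ ·) := ⟨_, rfl⟩
  have a1 : ∀ σ, cz σ ≠ 0 → c σ ≠ 0 ∧ z ∈ σ := fun σ h => by
    rw [hcz, Finsupp.filter_apply] at h
    by_cases h' : z ∈ σ
    · exact ⟨by simpa [h'] using h, h'⟩
    · simp [h'] at h
  have a2 : ∀ σ, (c - cz) σ ≠ 0 → c σ ≠ 0 ∧ z ∉ σ := fun σ h => by
    rw [hcz, Finsupp.sub_apply, Finsupp.filter_apply] at h
    by_cases h' : z ∈ σ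
    · simp [h'] at h
    · exact ⟨by simpa [h'] using h, h'⟩
  have a3 : ∀ σ, cz σ ≠ 0 → ∀ w ∈ σ, w = y ∨ Adj w y := fun σ h w hw => by
    obtain ⟨b1, b2⟩ := a1 σ h
    refine hd w ((hc σ b1).1.1 hw) (or_iff_not_imp_left.2 fun e => (hc σ b1).1.2 w hw z b2 e)
  have a4 : Ch Adj B (n + 1) (lin (CAcyc_cone y) cz) :=
    CAcyc_ch hs hy (fun σ h => hc σ (a1 σ h).1) a3
  have a5 : c - bd (lin (CAcyc_cone y) cz) = (c - cz) + lin (CAcyc_cone y) (bd cz) := by
    rw [eq_sub_of_add_eq (CAcyc_hom y cz)]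
    abel
  have a6 : Ch Adj (B.erase z) n (c - bd (lin (CAcyc_cone y) cz)) := by
    intro τ hτ
    rw [a5, Finsupp.add_apply] at hτ
    by_cases h1 : (c - cz) τ = 0
    · rw [h1, zero_add] at hτ
      obtain ⟨ρ, b1, b2, rfl⟩ := CAcyc_cone_ne hτ
      obtain ⟨σ, b3, v, hv, b4⟩ := CAcyc_bd_ne b1
      have b5 : bd (c - cz) ρ ≠ 0 := by
        rw [map_sub, h0, zero_sub, Finsupp.neg_apply]
        exact neg_ne_zero.2 b1
      obtain ⟨σ', b6, v', -, b7⟩ := CAcyc_bd_ne b5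
      have b8 : z ∉ ρ := fun h' => (a2 σ' b6).2 (Finset.mem_of_mem_erase (b7 ▸ h'))
      have b9 : ρ ⊆ σ := b4 ▸ Finset.erase_subset v σ
      obtain ⟨c1, c2⟩ := hc σ (a1 σ b3).1
      refine ⟨CAcyc_clq hs (Finset.mem_erase.2 ⟨hyz, hy⟩)
        ⟨Finset.subset_erase.2 ⟨b9.trans c1.1, b8⟩, fun a ha b hb => c1.2 a (b9 ha) b (b9 hb)⟩
        fun w hw => a3 σ b3 w (b9 hw), ?_⟩
      rw [Finset.card_insert_of_notMem b2, b4, Finset.card_erase_add_one hv, c2]
    · obtain ⟨b1, b2⟩ := a2 τ h1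
      exact ⟨⟨Finset.subset_erase.2 ⟨(hc τ b1).1.1, b2⟩, (hc τ b1).1.2⟩, (hc τ b1).2⟩
  obtain ⟨e, he1, he2⟩ := h n _ a6 (by rw [map_sub, h0, bd_bd, sub_zero])
  refine ⟨e + lin (CAcyc_cone y) cz, fun τ hτ => ?_, by rw [map_add, he2, sub_add_cancel]⟩
  rw [Finsupp.add_apply] at hτ
  by_cases h1 : e τ = 0
  · rw [h1, zero_add] at hτ
    exact a4 τ hτ
  · exact ⟨⟨(he1 τ h1).1.1.trans (Finset.erase_subset z B), (he1 τ h1).1.2⟩, (he1 τ h1).2⟩

theorem Dism.acyc {Adj : V → V → Prop} (hs : ∀ x y, Adj x y → Adj y x) {B : Finset V}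
    (h : Dism Adj B) : Acyc Adj B := by
  induction B using Finset.strongInduction with
  | H B ih =>
    obtain ⟨rk, z₀, f, h0, H⟩ := h
    obtain ⟨z, hz, hm⟩ := B.exists_max_image rk ⟨z₀, h0⟩
    by_cases e : z = z₀
    · intro n c hc hb
      have h1 := CAcyc_hom z₀ c
      rw [hb, map_zero, add_zero] at h1
      refine ⟨_, CAcyc_ch hs h0 hc fun σ hσ w hw => Or.inl ?_, h1⟩
      by_contra h2
      have hw' := (hc σ hσ).1.1 hw
      exact (H w hw' h2).1.not_ge (e ▸ hm w hw')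
    · obtain ⟨-, a2, a3, a4⟩ := H z hz e
      refine CAcyc_step hs a2 (fun e' => a3.ne (congrArg rk e')) (fun w hw h' => a4 w hw h' (hm w hw))
        (ih _ (Finset.erase_ssubset hz) ⟨rk, z₀, f, Finset.mem_erase.2 ⟨Ne.symm e, h0⟩,
          fun u hu hu0 => ?_⟩)
      have hu' := Finset.mem_of_mem_erase hu
      obtain ⟨b1, b2, b3, b4⟩ := H u hu' hu0
      exact ⟨b1, Finset.mem_erase.2 ⟨fun e' => (b3.trans_le (hm u hu')).ne (congrArg rk e'), b2⟩, b3,
        fun w hw => b4 w (Finset.mem_of_mem_erase hw)⟩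

end Pool.Agent.MP_f7db47_al.GN
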