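import Pool.Agent.MP_f7db47_al.GN.DA

/-!
Calculus of controlled isomorphisms.
-/

set_option linter.unusedSectionVars false

namespace Pool.Agent.MP_f7db47_al.GN

open Matrix

universe v

variable {R : Type v} [Ring R] {G : Type} [Group G] {Λ Λ' : Type} {I J K L : Type}

theorem AIso_sub_mul {α : Type*} {X Y : Type} [Ring α] [Fintype J] (A : Matrix I J α)
    (B : Matrix J K α) (a : X → I) (b : Y → K) (P : J → Prop) [DecidablePred P]
    (h : ∀ x j, ¬ P j → A (a x) j = 0) : (A * B).submatrix a b =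
      (A.submatrix a (Subtype.val : {j // P j} → J) : Matrix X {j // P j} α) *
        (B.submatrix (Subtype.val : {j // P j} → J) b : Matrix {j // P j} Y α) := by
  ext x y
  simp only [submatrix_apply, mul_apply]
  rw [← Fintype.sum_subtype_add_sum_subtype P, Finset.sum_eq_zero (s := Finset.univ)
    (f := fun j : {j // ¬ P j} => A (a x) j * B j (b y)) fun j _ => by rw [h x j j.2, zero_mul],
    add_zero]

theorem AIso_diag [DecidableEq I] (F : FR G Λ) (k : ℕ) (l : I → Λ) (P : I → Prop)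
    [DecidablePred P] :
    Ctl (F.rel k) l l (diagonal fun i => if P i then (1 : MonoidAlgebra R G) else 0) := by
  intro i j
  by_cases h : i = j
  · subst h
    rw [diagonal_apply_eq]
    split_ifs
    · exact sup_one (F.mono k.zero_le (F.refl _))
    · exact sup_zero _
  · rw [diagonal_apply_ne _ h]
    exact sup_zero _

theorem AIso_congr [Fintype I] [Fintype J] {p q : Matrix I I (MonoidAlgebra R G)}
    {p' : Matrix J J (MonoidAlgebra R G)} {f : Matrix J I (MonoidAlgebra R G)}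
    {g : Matrix I J (MonoidAlgebra R G)} {r : Λ → G → Λ → Prop} {l m : I → Λ} {l' : J → Λ}
    (h : Iso r l l' p p' f g) (h1 : l = m) (h2 : p = q) : Iso r m l' q p' f g :=
  h1 ▸ h2 ▸ h

theorem Ctl.mono {r r' : Λ → G → Λ → Prop} {li : I → Λ} {lj : J → Λ}
    {f : Matrix I J (MonoidAlgebra R G)} (h : Ctl r li lj f)
    (hr : ∀ a g b, r a g b → r' a g b) : Ctl r' li lj f :=
  fun i j => (h i j).mono fun g hg => hr _ g _ hg

/-- Change of labels. -/
theorem Ctl.relab {r : Λ → G → Λ → Prop} {r' : Λ' → G → Λ' → Prop} {li : I → Λ} {lj : J → Λ}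
    {mi : I → Λ'} {mj : J → Λ'} {f : Matrix I J (MonoidAlgebra R G)} (h : Ctl r li lj f)
    (hr : ∀ i g j, r (li i) g (lj j) → r' (mi i) g (mj j)) : Ctl r' mi mj f :=
  fun i j => (h i j).mono fun g hg => hr i g j hg

theorem Ctl.le (F : FR G Λ) {k k' : ℕ} {li : I → Λ} {lj : J → Λ}
    {f : Matrix I J (MonoidAlgebra R G)} (h : Ctl (F.rel k) li lj f) (hk : k ≤ k') :
    Ctl (F.rel k') li lj f :=
  h.mono fun _ _ _ e => F.mono hk e

theorem Ctl.mul [Fintype J] (F : FR G Λ) {k k' : ℕ} {li : I → Λ} {lj : J → Λ} {lk : K → Λ}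
    {f : Matrix I J (MonoidAlgebra R G)} {g : Matrix J K (MonoidAlgebra R G)}
    (hf : Ctl (F.rel k) li lj f) (hg : Ctl (F.rel k') lj lk g) :
    Ctl (F.rel (k + k')) li lk (f * g) :=
  fun i k => sup_sum _ _ fun j _ => (hf i j).mul (hg j k) fun _ ha _ hb => F.comp ha hb

theorem ctl_zero (r : Λ → G → Λ → Prop) (li : I → Λ) (lj : J → Λ) :
    Ctl r li lj (0 : Matrix I J (MonoidAlgebra R G)) :=
  fun _ _ => sup_zero _

theorem Ctl.add {r : Λ → G → Λ → Prop} {li : I → Λ} {lj : J → Λ}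
    {f g : Matrix I J (MonoidAlgebra R G)} (hf : Ctl r li lj f) (hg : Ctl r li lj g) :
    Ctl r li lj (f + g) :=
  fun i j => (hf i j).add (hg i j)

theorem Ctl.neg {r : Λ → G → Λ → Prop} {li : I → Λ} {lj : J → Λ}
    {f : Matrix I J (MonoidAlgebra R G)} (hf : Ctl r li lj f) : Ctl r li lj (-f) :=
  fun i j => (hf i j).neg

theorem Ctl.sub {r : Λ → G → Λ → Prop} {li : I → Λ} {lj : J → Λ}
    {f g : Matrix I J (MonoidAlgebra R G)} (hf : Ctl r li lj f) (hg : Ctl r li lj g) :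
    Ctl r li lj (f - g) :=
  fun i j => (hf i j).sub (hg i j)

theorem ctl_one [DecidableEq I] (F : FR G Λ) (k : ℕ) (l : I → Λ) :
    Ctl (F.rel k) l l (1 : Matrix I I (MonoidAlgebra R G)) :=
  AIso_diag F k l fun _ => True

/-- Diagonal matrices of zeros and ones. -/
theorem ctl_diag [DecidableEq I] (F : FR G Λ) (k : ℕ) (l : I → Λ) (P : I → Prop)
    [DecidablePred P] :
    Ctl (F.rel k) l l (diagonal fun i => if P i then (1 : MonoidAlgebra R G) else 0) :=
  AIso_diag F k l P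

theorem Ctl.fromBlocks {r : Λ → G → Λ → Prop} {li : I → Λ} {lj : J → Λ} {lk : K → Λ}
    {ll : L → Λ} {A : Matrix I K (MonoidAlgebra R G)} {B : Matrix I L (MonoidAlgebra R G)}
    {C : Matrix J K (MonoidAlgebra R G)} {D : Matrix J L (MonoidAlgebra R G)}
    (hA : Ctl r li lk A) (hB : Ctl r li ll B) (hC : Ctl r lj lk C) (hD : Ctl r lj ll D) :
    Ctl r (Sum.elim li lj) (Sum.elim lk ll) (fromBlocks A B C D) :=
  fun i j => match i, j with
    | .inl i, .inl j => hA i j
    | .inl i, .inr j => hB i j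
    | .inr i, .inl j => hC i j
    | .inr i, .inr j => hD i j

theorem Ctl.submatrix {r : Λ → G → Λ → Prop} {li : I → Λ} {lj : J → Λ}
    {f : Matrix I J (MonoidAlgebra R G)} (h : Ctl r li lj f) (a : K → I) (b : L → J) :
    Ctl r (fun x => li (a x)) (fun x => lj (b x)) (f.submatrix a b) :=
  fun i j => h (a i) (b j)

section Std

variable [Fintype I] [Fintype J]

theorem Std.idem {l : I → Λ} {e : Matrix I I (MonoidAlgebra R G)} (h : Std l e) : e * e = e :=
  by
  obtain ⟨e, h1, rfl, -⟩ := h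
  exact (Matrix.map_mul (f := MonoidAlgebra.singleOneRingHom (R := R) (M := G))).symm.trans
    (by rw [h1]; rfl)

theorem Std.ctl (F : FR G Λ) (k : ℕ) {l : I → Λ} {e : Matrix I I (MonoidAlgebra R G)}
    (h : Std l e) : Ctl (F.rel k) l l e :=
  by
  obtain ⟨e, -, rfl, h3⟩ := h
  intro i j
  by_cases h : e i j = 0
  · rw [map_apply, h, MonoidAlgebra.single_zero]
    exact sup_zero _
  · refine sup_single ?_ _
    rw [Set.mem_ofPred_eq, h3 i j h]
    exact F.mono k.zero_le (F.refl _)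

theorem Std.map_aug {l : I → Λ} {e : Matrix I I (MonoidAlgebra R G)} (h : Std l e) :
    e.map (aug R G) = e :=
  by
  obtain ⟨e, -, rfl, -⟩ := h
  ext1 i j
  simp [aug]

theorem Std.eq_of_ne {l : I → Λ} {e : Matrix I I (MonoidAlgebra R G)} (h : Std l e) {i j : I}
    (hij : e i j ≠ 0) : l i = l j :=
  by
  obtain ⟨e, -, rfl, h3⟩ := h
  exact h3 i j fun h => hij (by rw [map_apply, h, MonoidAlgebra.single_zero])

theorem Std.sum {l : I → Λ} {l' : J → Λ} {e : Matrix I I (MonoidAlgebra R G)}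
    {e' : Matrix J J (MonoidAlgebra R G)} (h : Std l e) (h' : Std l' e') :
    Std (Sum.elim l l') (fromBlocks e 0 0 e') :=
  by
  obtain ⟨e, h1, rfl, h3⟩ := h
  obtain ⟨e', h1', rfl, h3'⟩ := h'
  refine ⟨fromBlocks e 0 0 e', by simp [fromBlocks_multiply, h1, h1'], ?_, ?_⟩
  · ext1 i j
    rcases i with i | i <;> rcases j with j | j <;> simp
  · rintro (i | i) (j | j) h
    · exact h3 i j h
    · exact absurd rfl h
    · exact absurd rfl h
    · exact h3' i j h

theorem Std.relab {l : I → Λ} {m : I → Λ'} {e : Matrix I I (MonoidAlgebra R G)} (h : Std l e)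
    (hm : ∀ i j, e i j ≠ 0 → m i = m j) : Std m e :=
  by
  obtain ⟨e, h1, rfl, -⟩ := h
  exact ⟨e, h1, rfl, fun i j h => hm i j fun h' => h (by simpa using h')⟩

theorem std_one [DecidableEq I] (l : I → Λ) : Std l (1 : Matrix I I (MonoidAlgebra R G)) :=
  ⟨1, Matrix.mul_one 1, (Matrix.map_one _ (by simp) rfl).symm, fun i j h => by
    rw [show i = j from by_contra fun e => h (Matrix.one_apply_ne e)]⟩

/-- Restriction to a set of indices that is a union of fibres of the labelling. -/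
theorem Std.restrict {l : I → Λ} {e : Matrix I I (MonoidAlgebra R G)} (h : Std l e)
    (P : I → Prop) [DecidablePred P] (hP : ∀ i j, e i j ≠ 0 → (P i ↔ P j)) :
    Std (fun x : {i // P i} => l x.1) (e.submatrix Subtype.val Subtype.val) :=
  by
  obtain ⟨e, h1, rfl, h3⟩ := h
  refine ⟨e.submatrix Subtype.val Subtype.val, ?_, rfl, fun i j h => h3 _ _ h⟩
  rw [← AIso_sub_mul e e _ _ P, h1]
  exact fun x j hj => by_contra fun h => hj ((hP _ _ fun h' => h (by simpa using h')).1 x.2)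

end Std

section Iso

variable [Fintype I] [Fintype J] [Fintype K] [Fintype L]
variable {p : Matrix I I (MonoidAlgebra R G)} {p' : Matrix J J (MonoidAlgebra R G)}
  {f : Matrix J I (MonoidAlgebra R G)} {g : Matrix I J (MonoidAlgebra R G)}
  {r : Λ → G → Λ → Prop} {l : I → Λ} {l' : J → Λ}

theorem Iso.pf (h : Iso r l l' p p' f g) : p' * f = f :=
  by rw [← h.fg, Matrix.mul_assoc, h.gf, h.fp]

theorem Iso.gp (h : Iso r l l' p p' f g) : g * p' = g :=
  by rw [← h.fg, ← Matrix.mul_assoc, h.gf, h.pg]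

theorem Iso.idem (h : Iso r l l' p p' f g) : p * p = p :=
  by
  conv_lhs => rw [← h.gf]
  rw [Matrix.mul_assoc, ← Matrix.mul_assoc f, h.fg, h.pf, h.gf]

theorem Iso.symm (h : Iso r l l' p p' f g) : Iso r l' l p' p g f :=
  ⟨h.fg, h.gf, h.gp, h.pf, h.cg, h.cf⟩

theorem Iso.relab {r' : Λ' → G → Λ' → Prop} {m : I → Λ'} {m' : J → Λ'} (h : Iso r l l' p p' f g)
    (h1 : ∀ j γ i, r (l' j) γ (l i) → r' (m' j) γ (m i))
    (h2 : ∀ i γ j, r (l i) γ (l' j) → r' (m i) γ (m' j)) : Iso r' m m' p p' f g :=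
  ⟨h.gf, h.fg, h.fp, h.pg, h.cf.relab h1, h.cg.relab h2⟩

theorem Iso.le (F : FR G Λ) {k k' : ℕ} (h : Iso (F.rel k) l l' p p' f g) (hk : k ≤ k') :
    Iso (F.rel k') l l' p p' f g :=
  ⟨h.gf, h.fg, h.fp, h.pg, h.cf.le F hk, h.cg.le F hk⟩

theorem iso_refl (hp : p * p = p) (hc : Ctl r l l p) : Iso r l l p p p p :=
  ⟨hp, hp, hp, hp, hc, hc⟩

theorem Iso.trans (F : FR G Λ) {k k' : ℕ} {l'' : K → Λ} {p'' : Matrix K K (MonoidAlgebra R G)}
    {f' : Matrix K J (MonoidAlgebra R G)} {g' : Matrix J K (MonoidAlgebra R G)}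
    (h : Iso (F.rel k) l l' p p' f g) (h' : Iso (F.rel k') l' l'' p' p'' f' g') :
    Iso (F.rel (k + k')) l l'' p p'' (f' * f) (g * g') :=
  ⟨by rw [Matrix.mul_assoc, ← Matrix.mul_assoc g', h'.gf, h.pf, h.gf],
    by rw [Matrix.mul_assoc, ← Matrix.mul_assoc f, h.fg, h'.pg, h'.fg],
    by rw [Matrix.mul_assoc, h.fp], by rw [← Matrix.mul_assoc, h.pg],
    Nat.add_comm k' k ▸ h'.cf.mul F h.cf, h.cg.mul F h'.cg⟩

theorem Iso.sum {m : K → Λ} {m' : L → Λ} {q : Matrix K K (MonoidAlgebra R G)}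
    {q' : Matrix L L (MonoidAlgebra R G)} {f' : Matrix L K (MonoidAlgebra R G)}
    {g' : Matrix K L (MonoidAlgebra R G)} (h : Iso r l l' p p' f g) (h' : Iso r m m' q q' f' g') :
    Iso r (Sum.elim l m) (Sum.elim l' m') (fromBlocks p 0 0 q) (fromBlocks p' 0 0 q')
      (fromBlocks f 0 0 f') (fromBlocks g 0 0 g') :=
  ⟨by simp [fromBlocks_multiply, h.gf, h'.gf], by simp [fromBlocks_multiply, h.fg, h'.fg],
    by simp [fromBlocks_multiply, h.fp, h'.fp], by simp [fromBlocks_multiply, h.pg, h'.pg],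
    h.cf.fromBlocks (ctl_zero _ _ _) (ctl_zero _ _ _) h'.cf,
    h.cg.fromBlocks (ctl_zero _ _ _) (ctl_zero _ _ _) h'.cg⟩

theorem Iso.reindex (h : Iso r l l' p p' f g) (a : K ≃ I) (b : L ≃ J) :
    Iso r (fun x => l (a x)) (fun x => l' (b x)) (p.submatrix a a) (p'.submatrix b b)
      (f.submatrix b a) (g.submatrix a b) :=
  ⟨by rw [submatrix_mul_equiv, h.gf], by rw [submatrix_mul_equiv, h.fg],
    by rw [submatrix_mul_equiv, h.fp], by rw [submatrix_mul_equiv, h.pg],
    h.cf.submatrix _ _, h.cg.submatrix _ _⟩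

/-- Restriction of an isomorphism that respects a partition of the indices. -/
theorem Iso.restrict (h : Iso r l l' p p' f g) (P : I → Prop) [DecidablePred P] (P' : J → Prop)
    [DecidablePred P'] (hf : ∀ j i, f j i ≠ 0 → (P' j ↔ P i))
    (hg : ∀ i j, g i j ≠ 0 → (P i ↔ P' j)) :
    Iso r (fun x : {i // P i} => l x.1) (fun x : {j // P' j} => l' x.1)
      (p.submatrix Subtype.val Subtype.val) (p'.submatrix Subtype.val Subtype.val)
      (f.submatrix Subtype.val Subtype.val) (g.submatrix Subtype.val Subtype.val) :=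
  by
  have h1 : ∀ (x : {j // P' j}) i, ¬ P i → f x.1 i = 0 := fun x i hi =>
    by_contra fun e => hi ((hf _ _ e).1 x.2)
  have h2 : ∀ (x : {i // P i}) j, ¬ P' j → g x.1 j = 0 := fun x j hj =>
    by_contra fun e => hj ((hg _ _ e).1 x.2)
  refine ⟨by rw [← AIso_sub_mul g f _ _ P' h2, h.gf], by rw [← AIso_sub_mul f g _ _ P h1, h.fg],
    by rw [← AIso_sub_mul f p _ _ P h1, h.fp], ?_, h.cf.submatrix _ _, h.cg.submatrix _ _⟩
  rw [← AIso_sub_mul p g _ _ P, h.pg]
  intro x i hi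
  rw [← h.gf, mul_apply]
  refine Finset.sum_eq_zero fun j _ => ?_
  by_cases hj : P' j
  · rw [h1 ⟨j, hj⟩ i hi, mul_zero]
  · rw [h2 x j hj, zero_mul]

end Iso

section SS

variable [Fintype I] [DecidableEq I] [Fintype J] [DecidableEq J]
variable {p : Matrix I I (MonoidAlgebra R G)} {p' : Matrix J J (MonoidAlgebra R G)}
  {l : I → Λ} {l' : J → Λ}

theorem SS.relab {r : Λ → G → Λ → Prop} {r' : Λ' → G → Λ' → Prop} (h : SS r l p) (π : Λ → Λ')
    (hr : ∀ a g b, r a g b → r' (π a) g (π b)) : SS r' (fun i => π (l i)) p :=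
  by
  obtain ⟨E, M, i1, i2, i3, i4, lE, lM, eE, eM, f, g, h1, h2, h3⟩ := h
  refine ⟨E, M, i1, i2, i3, i4, fun x => π (lE x), fun x => π (lM x), eE, eM, f, g,
    h1.relab fun i j e => by rw [h1.eq_of_ne e], h2.relab fun i j e => by rw [h2.eq_of_ne e],
    h3.relab ?_ ?_⟩
  · rintro j γ (i | i) e <;> exact hr _ _ _ e
  · rintro (i | i) γ j e <;> exact hr _ _ _ e

theorem SS.le (F : FR G Λ) {k k' : ℕ} (h : SS (F.rel k) l p) (hk : k ≤ k') :
    SS (F.rel k') l p :=
  h.relab id fun _ _ _ e => F.mono hk e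

theorem SS.of_iso (F : FR G Λ) {k k' : ℕ} {f : Matrix J I (MonoidAlgebra R G)}
    {g : Matrix I J (MonoidAlgebra R G)} (h : Iso (F.rel k) l l' p p' f g)
    (h' : SS (F.rel k') l' p') : SS (F.rel (k + k')) l p :=
  by
  obtain ⟨E, M, i1, i2, i3, i4, lE, lM, eE, eM, f', g', h1, h2, h3⟩ := h'
  exact ⟨E, M, i1, i2, i3, i4, lE, lM, eE, eM, _, _, h1, h2,
    (h.sum (iso_refl h1.idem (h1.ctl F k))).trans F h3⟩

theorem SS.sum {r : Λ → G → Λ → Prop} (h : SS r l p) (h' : SS r l' p') :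
    SS r (Sum.elim l l') (fromBlocks p 0 0 p') :=
  by
  obtain ⟨E, M, i1, i2, i3, i4, lE, lM, eE, eM, f, g, h1, h2, h3⟩ := h
  obtain ⟨E', M', j1, j2, j3, j4, lE', lM', eE', eM', f', g', k1, k2, k3⟩ := h'
  refine ⟨E ⊕ E', M ⊕ M', inferInstance, inferInstance, inferInstance, inferInstance, _, _, _, _,
    _, _, h1.sum k1, h2.sum k2, AIso_congr ((h3.sum k3).reindex (Equiv.sumSumSumComm I J E E')
      (Equiv.refl _)) ?_ ?_⟩
  · funext x
    rcases x with (x | x) | (x | x) <;> rfl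
  · ext1 x y
    rcases x with (x | x) | (x | x) <;> rcases y with (y | y) | (y | y) <;> rfl

theorem SS.of_sum_std {r : Λ → G → Λ → Prop} (h' : Std l' p')
    (h : SS r (Sum.elim l l') (fromBlocks p 0 0 p')) : SS r l p :=
  by
  obtain ⟨E, M, i1, i2, i3, i4, lE, lM, eE, eM, f, g, h1, h2, h3⟩ := h
  refine ⟨J ⊕ E, M, inferInstance, inferInstance, i3, i4, _, _, _, _, _, _, h'.sum h1, h2,
    AIso_congr (h3.reindex (Equiv.sumAssoc I J E).symm (Equiv.refl _)) ?_ ?_⟩
  · funext x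
    rcases x with x | (x | x) <;> rfl
  · ext1 x y
    rcases x with x | (x | x) <;> rcases y with y | (y | y) <;> rfl

theorem SS.of_reindex {r : Λ → G → Λ → Prop} (a : J ≃ I)
    (h : SS r (fun x => l (a x)) (p.submatrix a a)) : SS r l p :=
  by
  obtain ⟨E, M, i1, i2, i3, i4, lE, lM, eE, eM, f, g, h1, h2, h3⟩ := h
  refine ⟨E, M, i1, i2, i3, i4, _, _, _, _, _, _, h1, h2,
    AIso_congr (h3.reindex (Equiv.sumCongr a.symm (Equiv.refl E)) (Equiv.refl _)) ?_ ?_⟩
  · funext x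
    rcases x with x | x <;> simp
  · ext1 x y
    rcases x with x | x <;> rcases y with y | y <;> simp

theorem SS.of_split {r : Λ → G → Λ → Prop} (P : I → Prop) [DecidablePred P]
    (hP : ∀ i j, p i j ≠ 0 → (P i ↔ P j))
    (h : SS r (fun x : {i // P i} => l x.1) (p.submatrix Subtype.val Subtype.val))
    (h' : SS r (fun x : {i // ¬ P i} => l x.1) (p.submatrix Subtype.val Subtype.val)) :
    SS r l p :=
  by
  refine SS.of_reindex (Equiv.sumCompl P) ?_
  convert h.sum h' using 1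
  · funext x
    rcases x with x | x <;> rfl
  · ext1 x y
    rcases x with x | x <;> rcases y with y | y
    · rfl
    · exact by_contra fun e => y.2 ((hP _ _ e).1 x.2)
    · exact by_contra fun e => x.2 ((hP _ _ e).2 y.2)
    · rfl

end SS

end Pool.Agent.MP_f7db47_al.GN
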