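import Pool.Agent.MP_f7db47_al.GN.AIso

/-!
Torsion of isomorphisms between standard idempotents.
-/

set_option linter.unusedSectionVars false

namespace Pool.Agent.MP_f7db47_al.GN

open Matrix

universe v

variable {R : Type v} [Ring R] {G : Type} [Group G] {Λ : Type} {I J K L : Type}
  [Fintype I] [DecidableEq I] [Fintype J] [DecidableEq J] [Fintype K] [DecidableEq K]
  [Fintype L] [DecidableEq L]

lemma ATriv_single (g : G) (c : R) :
    aug R G (MonoidAlgebra.single g c) = MonoidAlgebra.single 1 c := by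
  rw [aug, MonoidAlgebra.mapDomainRingHom_apply, MonoidAlgebra.mapDomain_single]
  rfl

lemma ATriv_ex (x : MonoidAlgebra R G) : ∃ c, aug R G x = MonoidAlgebra.single 1 c := by
  induction x using MonoidAlgebra.induction_linear with
  | zero => exact ⟨0, by simp⟩
  | add a b ha hb =>
    obtain ⟨c, hc⟩ := ha
    obtain ⟨d, hd⟩ := hb
    exact ⟨c + d, by rw [map_add, hc, hd, MonoidAlgebra.single_add]⟩
  | single g r => exact ⟨r, ATriv_single g r⟩

lemma ATriv_aug_aug (A : Matrix I J (MonoidAlgebra R G)) :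
    (A.map (aug R G)).map (aug R G) = A.map (aug R G) := by
  ext1 i j
  obtain ⟨c, hc⟩ := ATriv_ex (A i j)
  simp only [map_apply, hc, ATriv_single]

lemma ATriv_base {A : Matrix I J (MonoidAlgebra R G)} (hA : A.map (aug R G) = A) :
    ∃ U : Matrix I J R, A = U.map (MonoidAlgebra.single 1) := by
  choose c hc using ATriv_ex (R := R) (G := G)
  refine ⟨fun i j => c (A i j), ?_⟩
  ext1 i j
  rw [map_apply, ← hc]
  exact (congrFun (congrFun hA i) j).symm

lemma ATriv_mul (A : Matrix I J (MonoidAlgebra R G)) (B : Matrix J K (MonoidAlgebra R G)) :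
    (A * B).map (aug R G) = A.map (aug R G) * B.map (aug R G) := Matrix.map_mul

lemma ATriv_one : (1 : Matrix I I (MonoidAlgebra R G)).map (aug R G) = 1 :=
  Matrix.map_one _ (map_zero _) (map_one _)

/-- Invertible matrices that are fixed by the augmentation come from `R`. -/
theorem T_of_aug {A B : Matrix I I (MonoidAlgebra R G)} (hAB : A * B = 1) (hBA : B * A = 1)
    (hA : A.map (aug R G) = A) : T A := by
  have hB : B.map (aug R G) = B := by
    have h1 : B.map (aug R G) * A = 1 := by rw [← hA, ← ATriv_mul, hBA, ATriv_one]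
    rw [← mul_one (B.map (aug R G)), ← hAB, ← mul_assoc, h1, one_mul]
  obtain ⟨U, rfl⟩ := ATriv_base hA
  obtain ⟨V, rfl⟩ := ATriv_base hB
  have hinj : Function.Injective fun M : Matrix I I R =>
      M.map (MonoidAlgebra.single (1 : G)) :=
    Matrix.map_injective (MonoidAlgebra.single_right_injective)
  refine T_gen (Gen.base U V (hinj ?_) (hinj ?_))
  · rw [map_single_mul, mul_one] at hAB
    exact hAB.trans map_single_one_one.symm
  · rw [map_single_mul, mul_one] at hBA
    exact hBA.trans map_single_one_one.symm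

theorem T_of_triv {A B : Matrix I I (MonoidAlgebra R G)} (hAB : A * B = 1) (hBA : B * A = 1)
    (h : Triv 1 A B) : T A := by
  rw [Triv, sub_self, add_zero] at h
  refine T_cancel_left (T_of_aug (B := A.map (aug R G)) ?_ ?_ (ATriv_aug_aug B)) h
  · rw [← ATriv_mul, hBA, ATriv_one]
  · rw [← ATriv_mul, hAB, ATriv_one]

lemma ATriv_comm (X : Matrix I J (MonoidAlgebra R G)) (Y : Matrix J I (MonoidAlgebra R G))
    (h : T (1 + Y * X)) : T (1 + X * Y) := by
  have := T_one_sub_comm (-X) Y (by rwa [Matrix.mul_neg, sub_neg_eq_add])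
  rwa [Matrix.neg_mul, sub_neg_eq_add] at this

/-- the diagonal matrix of group elements -/
noncomputable def ATrivD (R : Type v) [Ring R] (w : I → G) : Matrix I I (MonoidAlgebra R G) :=
  diagonal fun i => MonoidAlgebra.single (w i) 1

lemma ATriv_D_mul (w w' : I → G) (h : ∀ i, w i * w' i = 1) : ATrivD R w * ATrivD R w' = 1 := by
  rw [ATrivD, ATrivD, diagonal_mul_diagonal, ← diagonal_one]
  congr 1
  funext i
  rw [MonoidAlgebra.single_mul_single, h, one_mul]
  rfl

lemma ATriv_D_aug (w : I → G) : (ATrivD R w).map (aug R G) = 1 := by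
  rw [ATrivD, diagonal_map (map_zero _), ← diagonal_one]
  congr 1
  funext i
  exact ATriv_single _ _

lemma ATriv_D_comm {l : I → Λ} {e : Matrix I I (MonoidAlgebra R G)} (he : Std l e) (u : Λ → G) :
    ATrivD R (fun i => u (l i)) * e = e * ATrivD R fun i => u (l i) := by
  obtain ⟨e₀, -, rfl, h⟩ := he
  ext1 i j
  rw [ATrivD, diagonal_mul, mul_diagonal, map_apply, MonoidAlgebra.single_mul_single,
    MonoidAlgebra.single_mul_single, one_mul, one_mul, mul_one, mul_one]
  by_cases h0 : e₀ i j = 0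
  · simp [h0]
  · rw [h i j h0]

lemma ATriv_D_T {l : I → Λ} {e : Matrix I I (MonoidAlgebra R G)} (he : Std l e) (u : Λ → G) :
    T (1 + (ATrivD R (fun i => u (l i)) - 1) * e) := by
  classical
  obtain ⟨e₀, h1, rfl, h⟩ := he
  have h0 : ∀ i j, u (l i) ≠ u (l j) → e₀ i j = 0 := fun i j hij => by
    by_contra h2
    exact hij (by rw [h i j h2])
  refine (stdTS R G).of_blocks (fun i => u (l i)) (proj_comm _ fun i j hij => ?_) fun y => ?_
  · have hne : i ≠ j := fun e => hij (by rw [e])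
    simp [ATrivD, Matrix.sub_mul, diagonal_mul, hne, h0 i j hij]
  · have hc := proj_comm (Λ := R) (fun i => u (l i)) h0 y
    have hi : proj R (fun i => u (l i)) y * e₀ * (proj R (fun i => u (l i)) y * e₀) =
        proj R (fun i => u (l i)) y * e₀ := by
      rw [mul_assoc, ← mul_assoc e₀, ← hc, mul_assoc, h1, ← mul_assoc, proj_mul_self]
    have := T_gen (Gen.idem (G := G) _ hi y)
    change T _
    convert this using 1
    rw [mul_add, mul_one, ← add_assoc, sub_add_cancel, Matrix.sub_mul, one_mul, mul_sub,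
      sub_add_eq_add_sub, add_sub_assoc]
    congr 2
    · ext1 i j
      rw [proj_mul_apply, map_apply, proj_mul_apply, ATrivD, diagonal_mul, map_apply,
        MonoidAlgebra.single_mul_single, one_mul, mul_one]
      split_ifs with hy
      · rw [hy]
      · simp
    · ext1 i j
      rw [proj_mul_apply, map_apply, map_apply, proj_mul_apply]
      split_ifs with hy
      · rfl
      · simp

lemma ATriv_sub {S : Type*} [Ring S] (A : Matrix I J S) (B : Matrix J K S) (P' : J → Prop)
    [DecidablePred P'] (i : I) (k : K) (h : ∀ j, ¬ P' j → A i j = 0) :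
    (A * B) i k = ∑ j : {j // P' j}, A i j * B j k := by
  rw [Matrix.mul_apply, ← Fintype.sum_subtype_add_sum_subtype P',
    Finset.sum_eq_zero (s := (Finset.univ : Finset {j // ¬ P' j}))
      fun j _ => by rw [h j j.2, zero_mul], add_zero]

variable {e : Matrix I I (MonoidAlgebra R G)} {e' : Matrix J J (MonoidAlgebra R G)}
  {f : Matrix J I (MonoidAlgebra R G)} {g : Matrix I J (MonoidAlgebra R G)}
  {r r' : Λ → G → Λ → Prop} {l : I → Λ} {l' : J → Λ}

theorem Triv.comp {l'' : K → Λ} {Λ' : Type} {r' : Λ' → G → Λ' → Prop} {m' : J → Λ'} {m'' : K → Λ'}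
    {e'' : Matrix K K (MonoidAlgebra R G)} {f' : Matrix K J (MonoidAlgebra R G)}
    {g' : Matrix J K (MonoidAlgebra R G)} (he : Std l e) (he' : Std l' e') (he'' : Std l'' e'')
    (h : Iso r l l' e e' f g) (h' : Iso r' m' m'' e' e'' f' g') (t : Triv e f g)
    (t' : Triv e' f' g') : Triv e (f' * f) (g * g') := by
  have a1 : f.map (aug R G) * g.map (aug R G) = e' := by rw [← ATriv_mul, h.fg, he'.map_aug]
  have a2 : f.map (aug R G) * e = f.map (aug R G) := by
    conv_lhs => rw [← he.map_aug, ← ATriv_mul, h.fp]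
  have a3 : ∀ X : Matrix J I (MonoidAlgebra R G),
      f.map (aug R G) * (g.map (aug R G) * X) = e' * X := fun X => by
    rw [← Matrix.mul_assoc, a1]
  have t1 : T (1 + g.map (aug R G) * ((g'.map (aug R G) * f' - e') * f.map (aug R G))) := by
    apply ATriv_comm
    rw [Matrix.mul_assoc, a1, Matrix.sub_mul, Matrix.mul_assoc, h'.fp, he'.idem]
    rw [Triv] at t'
    convert t' using 1
    abel
  have t2 := T_mul t1 t
  rw [Triv, ATriv_mul]
  convert t2 using 1
  simp only [Matrix.add_mul, Matrix.mul_add, Matrix.mul_sub, Matrix.sub_mul, Matrix.mul_assoc,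
    Matrix.one_mul, Matrix.mul_one, a2, a3, h.pf]
  abel

theorem Triv.of_sum {m : K → Λ} {q : Matrix K K (MonoidAlgebra R G)} (hq : Std m q)
    (t : Triv (fromBlocks e 0 0 q) (fromBlocks f 0 0 q) (fromBlocks g 0 0 q)) : Triv e f g := by
  apply T_of_stab (K := K)
  rw [Triv, fromBlocks_map, Matrix.map_zero _ (map_zero _), Matrix.map_zero _ (map_zero _),
    hq.map_aug, fromBlocks_multiply, ← fromBlocks_one, sub_eq_add_neg, fromBlocks_neg,
    fromBlocks_add, fromBlocks_add] at t
  convert t using 2 <;> simp [hq.idem, sub_eq_add_neg]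

theorem Triv.of_split (h : Iso r l l' e e' f g) (P : I → Prop) [DecidablePred P] (P' : J → Prop)
    [DecidablePred P'] (hf : ∀ j i, f j i ≠ 0 → (P' j ↔ P i))
    (hg : ∀ i j, g i j ≠ 0 → (P i ↔ P' j))
    (t : Triv (e.submatrix (Subtype.val : {i // P i} → I) Subtype.val)
      (f.submatrix (Subtype.val : {j // P' j} → J) Subtype.val)
      (g.submatrix Subtype.val Subtype.val))
    (t' : Triv (e.submatrix (Subtype.val : {i // ¬ P i} → I) Subtype.val)
      (f.submatrix (Subtype.val : {j // ¬ P' j} → J) Subtype.val)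
      (g.submatrix Subtype.val Subtype.val)) : Triv e f g := by
  apply T_of_submatrix (Equiv.sumCompl P)
  have := T_upper_block ((g.map (aug R G) * f + (1 - e)).submatrix
    (Subtype.val : {i // P i} → I) (Subtype.val : {i // ¬ P i} → I)) t t'
  have hg0 : ∀ i j, ¬ (P i ↔ P' j) → g i j = 0 := fun i j hij => by
    by_contra h0
    exact hij (hg i j h0)
  have hf0 : ∀ j i, ¬ (P' j ↔ P i) → f j i = 0 := fun j i hij => by
    by_contra h0
    exact hij (hf j i h0)
  convert this using 1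
  ext1 i k
  rcases i with i | i <;> rcases k with k | k
  · simp only [submatrix_apply, Equiv.sumCompl_apply_inl, fromBlocks_apply₁₁, Matrix.add_apply,
      Matrix.sub_apply]
    rw [ATriv_sub _ _ P' _ _ fun j hj => by
      rw [map_apply, hg0 _ j fun e => hj (e.1 i.2), map_zero]]
    simp only [Matrix.mul_apply, map_apply, submatrix_apply, one_apply, Subtype.ext_iff]
  · rfl
  · simp only [submatrix_apply, Equiv.sumCompl_apply_inl, Equiv.sumCompl_apply_inr,
      fromBlocks_apply₂₁, Matrix.add_apply, Matrix.sub_apply, Matrix.zero_apply]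
    have hne : i.1 ≠ k.1 := fun e => i.2 (e ▸ k.2)
    have hz : ∀ j, g i j = 0 ∨ f j k = 0 := fun j => by
      by_cases hj : P' j
      · exact Or.inl (hg0 _ _ fun e => i.2 (e.2 hj))
      · exact Or.inr (hf0 _ _ fun e => hj (e.2 k.2))
    rw [← h.gf, Matrix.mul_apply, Matrix.mul_apply, one_apply_ne hne,
      Finset.sum_eq_zero fun j _ => by rcases hz j with h0 | h0 <;> simp [h0],
      Finset.sum_eq_zero fun j _ => by rcases hz j with h0 | h0 <;> simp [h0]]
    simp
  · simp only [submatrix_apply, Equiv.sumCompl_apply_inr, fromBlocks_apply₂₂, Matrix.add_apply,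
      Matrix.sub_apply]
    rw [ATriv_sub _ _ (fun j => ¬ P' j) _ _ fun j hj => by
      rw [map_apply, hg0 _ j fun e => i.2 (e.2 (not_not.1 hj)), map_zero]]
    simp only [Matrix.mul_apply, map_apply, submatrix_apply, one_apply, Subtype.ext_iff]

/-- Block diagonal isomorphisms. -/
theorem triv_block (B : Gpd G Λ) (hB : ∀ a, G1 R (B.grp a)) (he : Std l e) (he' : Std l' e')
    (h : Iso B.r l l' e e' f g) : Triv e f g := by
  classical
  let s : Setoid Λ := ⟨fun a b => ∃ γ, B.r a γ b, ⟨fun a => ⟨1, B.refl a⟩,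
    fun ⟨a, ha⟩ => ⟨a⁻¹, B.symm ha⟩, fun ⟨a, ha⟩ ⟨b, hb⟩ => ⟨a * b, B.trans ha hb⟩⟩⟩
  obtain ⟨c, hc, hcc⟩ : ∃ c : Λ → Λ, (∀ a, ∃ γ, B.r (c a) γ a) ∧
      ∀ a b γ, B.r a γ b → c a = c b :=
    ⟨fun a => (Quotient.mk s a).out, fun a => Quotient.mk_out (s := s) a, fun a b γ h => by
      simp only [Quotient.sound (s := s) ⟨γ, h⟩]⟩
  choose u hu using hc
  obtain ⟨D, hD⟩ : ∃ D, D = ATrivD R fun i => u (l i) := ⟨_, rfl⟩
  obtain ⟨Di, hDi⟩ : ∃ D, D = ATrivD R fun i => (u (l i))⁻¹ := ⟨_, rfl⟩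
  obtain ⟨E, hE⟩ : ∃ D, D = ATrivD R fun j => u (l' j) := ⟨_, rfl⟩
  obtain ⟨Ei, hEi⟩ : ∃ D, D = ATrivD R fun j => (u (l' j))⁻¹ := ⟨_, rfl⟩
  have d1 : D * Di = 1 := by rw [hD, hDi]; exact ATriv_D_mul _ _ fun _ => mul_inv_cancel _
  have d2 : Di * D = 1 := by rw [hD, hDi]; exact ATriv_D_mul _ _ fun _ => inv_mul_cancel _
  have d3 : E * Ei = 1 := by rw [hE, hEi]; exact ATriv_D_mul _ _ fun _ => mul_inv_cancel _
  have d4 : Ei * E = 1 := by rw [hE, hEi]; exact ATriv_D_mul _ _ fun _ => inv_mul_cancel _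
  have c1 : D * e = e * D := by rw [hD]; exact ATriv_D_comm he u
  have c2 : Di * e = e * Di := by rw [hDi]; exact ATriv_D_comm he fun a => (u a)⁻¹
  have c3 : E * e' = e' * E := by rw [hE]; exact ATriv_D_comm he' u
  have c4 : Ei * e' = e' * Ei := by rw [hEi]; exact ATriv_D_comm he' fun a => (u a)⁻¹
  obtain ⟨af, haf⟩ : ∃ x, x = f.map (aug R G) := ⟨_, rfl⟩
  obtain ⟨ag, hag⟩ : ∃ x, x = g.map (aug R G) := ⟨_, rfl⟩
  have a1 : af * ag = e' := by rw [haf, hag, ← ATriv_mul, h.fg, he'.map_aug]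
  have a2 : ag * af = e := by rw [haf, hag, ← ATriv_mul, h.gf, he.map_aug]
  have a3 : af * e = af := by
    rw [haf]
    conv_lhs => rw [← he.map_aug, ← ATriv_mul, h.fp]
  have a4 : e * ag = ag := by
    rw [hag]
    conv_lhs => rw [← he.map_aug, ← ATriv_mul, h.pg]
  have a5 : ag * e' = ag := by rw [← a1, ← Matrix.mul_assoc, a2, a4]
  obtain ⟨ft, hft⟩ : ∃ x, x = E * f * Di := ⟨_, rfl⟩
  obtain ⟨gt, hgt⟩ : ∃ x, x = D * g * Ei := ⟨_, rfl⟩
  have b1 : ft * gt = e' := by
    rw [hft, hgt, Matrix.mul_assoc, Matrix.mul_assoc D, ← Matrix.mul_assoc Di, d2, Matrix.one_mul,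
      Matrix.mul_assoc, ← Matrix.mul_assoc f, h.fg, ← c4, ← Matrix.mul_assoc, d3, Matrix.one_mul]
  have b2 : gt * ft = e := by
    rw [hft, hgt, Matrix.mul_assoc, Matrix.mul_assoc E, ← Matrix.mul_assoc Ei, d4, Matrix.one_mul,
      Matrix.mul_assoc, ← Matrix.mul_assoc g, h.gf, ← c2, ← Matrix.mul_assoc, d1, Matrix.one_mul]
  have b3 : ft * e = ft := by
    rw [hft, Matrix.mul_assoc, c2, ← Matrix.mul_assoc, Matrix.mul_assoc E, h.fp]
  have b4 : e * gt = gt := by
    rw [hgt, ← Matrix.mul_assoc, ← Matrix.mul_assoc, ← c1, Matrix.mul_assoc D, h.pg]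
  have b5 : e' * ft = ft := by rw [← b1, Matrix.mul_assoc, b2, b3]
  have ee := he.idem
  have hu1 : IsUnit (ag * ft + (1 - e)) := by
    refine ⟨⟨_, gt * af + (1 - e), ?_, ?_⟩, rfl⟩
    · simp only [Matrix.add_mul, Matrix.mul_add, Matrix.mul_sub, Matrix.sub_mul, Matrix.mul_assoc,
        Matrix.one_mul, Matrix.mul_one, b3, ee, ← Matrix.mul_assoc ft gt, b1,
        ← Matrix.mul_assoc ag e', a5, a2, ← Matrix.mul_assoc e gt, b4]
      abel
    · simp only [Matrix.add_mul, Matrix.mul_add, Matrix.mul_sub, Matrix.sub_mul, Matrix.mul_assoc,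
        Matrix.one_mul, Matrix.mul_one, a3, ee, ← Matrix.mul_assoc af ag, a1, b5, b2,
        ← Matrix.mul_assoc e ag, a4]
      abel
  have s1 : MSup2 (fun i j => {γ | B.r (c (l i)) γ (c (l' j))}) ag := by
    intro i j
    rw [hag, map_apply]
    by_cases h0 : g i j = 0
    · rw [h0, map_zero]; exact sup_zero _
    · obtain ⟨x, hx⟩ := ATriv_ex (g i j)
      obtain ⟨γ, hγ⟩ : ∃ γ, (g i j).coeff γ ≠ 0 := by
        by_contra! h1
        exact h0 (by ext γ; exact h1 γ)
      rw [hx]
      have h2 : B.r (c (l i)) 1 (c (l' j)) := by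
        rw [hcc _ _ _ (h.cg i j γ hγ)]
        exact B.refl _
      exact sup_single (S := {γ | B.r (c (l i)) γ (c (l' j))}) h2 _
  have s2 : MSup2 (fun j i => {γ | B.r (c (l' j)) γ (c (l i))}) ft := by
    intro j i
    rw [hft, hE, hDi, ATrivD, ATrivD, mul_diagonal, diagonal_mul]
    exact ((sup_single (S := {γ | B.r (c (l' j)) γ (l' j)}) (hu _) 1).mul
      (U := {γ | B.r (c (l' j)) γ (l i)}) (h.cf j i) fun _ ha _ hb => B.trans ha hb).mul
      (sup_single (S := {γ | B.r (l i) γ (c (l i))}) (B.symm (hu _)) 1)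
      fun _ ha _ hb => B.trans ha hb
  have s3 : MSup2 (fun i j => {γ | B.r (c (l i)) γ (c (l j))}) e := by
    intro i j
    obtain ⟨e₀, -, rfl, h1⟩ := he
    rw [map_apply]
    by_cases h0 : e₀ i j = 0
    · rw [h0, MonoidAlgebra.single_zero]; exact sup_zero _
    · have h2 : B.r (c (l i)) 1 (c (l j)) := by
        rw [h1 i j h0]
        exact B.refl _
      exact sup_single (S := {γ | B.r (c (l i)) γ (c (l j))}) h2 _
  have t2 : T (ag * ft + (1 - e)) :=
    PT.T_of_groupoid (fun i j => {γ | B.r (c (l i)) γ (c (l j))}) (fun _ => B.refl _)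
      (fun _ _ _ _ ha _ hb => B.trans ha hb) (fun _ _ _ ha => B.symm ha)
      (fun i H hH => by
        have : H = B.grp (c (l i)) := SetLike.coe_injective hH
        rw [this]; exact hB _)
      ((s1.mul s2 fun _ _ _ _ ha _ hb => B.trans ha hb).add
        ((msup2_one fun _ => B.refl _).sub s3)) hu1
  have t1 : T (1 + ag * ((Ei - 1) * af)) := by
    apply ATriv_comm
    rw [Matrix.mul_assoc, a1, hEi]
    exact ATriv_D_T he' fun a => (u a)⁻¹
  have t3 : T (1 + (D - 1) * e) := by rw [hD]; exact ATriv_D_T he u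
  have b6 : ft * (D * e) = E * f := by
    rw [hft, Matrix.mul_assoc, ← Matrix.mul_assoc Di, d2, Matrix.one_mul, Matrix.mul_assoc, h.fp]
  have b7 : e * (D * e) = D * e := by rw [c1, ← Matrix.mul_assoc, ee]
  have b8 : e' * (E * f) = E * f := by rw [← Matrix.mul_assoc, ← c3, Matrix.mul_assoc, h.pf]
  have e23 : (ag * ft + (1 - e)) * (1 + (D - 1) * e) = ag * (E * f) + (1 - e) := by
    simp only [Matrix.add_mul, Matrix.mul_add, Matrix.mul_sub, Matrix.sub_mul, Matrix.mul_assoc,
      Matrix.one_mul, Matrix.mul_one, b3, b6, b7, ee]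
    abel
  have t := T_mul t1 (T_mul t2 t3)
  rw [e23] at t
  rw [Triv, ← hag]
  convert t using 1
  simp only [Matrix.add_mul, Matrix.mul_add, Matrix.mul_sub, Matrix.sub_mul, Matrix.mul_assoc,
    Matrix.one_mul, Matrix.mul_one, a3, ← Matrix.mul_assoc af ag, a1, b8,
    ← Matrix.mul_assoc Ei E, d4]
  abel

end Pool.Agent.MP_f7db47_al.GN
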