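import Pool.Agent.MP_f7db47_al.GN.DA
import Pool.Agent.MP_f7db47_al.GN.DC

/-!
Lattices over discrete valuation rings: definitions.
-/

namespace Pool.Agent.MP_f7db47_al.GN

/-- A discrete valuation ring with its field of fractions and a uniformizer. -/
structure Pl where
  O : Type
  K : Type
  [i1 : CommRing O]
  [i2 : IsDomain O]
  [i3 : IsDiscreteValuationRing O]
  [i4 : Field K]
  [i5 : Algebra O K]
  [i6 : IsFractionRing O K]
  π : O
  hπ : Irreducible π

attribute [instance] Pl.i1 Pl.i2 Pl.i3 Pl.i4 Pl.i5 Pl.i6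

namespace Pl

variable (P : Pl) (n : ℕ)

/-- The vector space. -/
abbrev V : Type := Fin n → P.K

/-- The submodules over the valuation ring. -/
abbrev L : Type := Submodule P.O (P.V n)

/-- The subspaces. -/
abbrev S : Type := Submodule P.K (P.V n)

/-- The general linear group. -/
abbrev A : Type := P.V n ≃ₗ[P.K] P.V n

/-- The uniformizer as a unit of the field. -/
noncomputable def ϖ : P.Kˣ :=
  Units.mk0 (algebraMap P.O P.K P.π)
    ((map_ne_zero_iff _ (IsFractionRing.injective P.O P.K)).2 P.hπ.ne_zero)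

/-- The standard lattice. -/
def L0 : P.L n := Submodule.pi Set.univ fun _ => (1 : Submodule P.O P.K)

variable {P n}

/-- The action of the general linear group. -/
noncomputable def ac (u : P.A n) : P.L n ≃o P.L n :=
  Submodule.orderIsoMapComap (u.restrictScalars P.O)

/-- Multiplication by `π ^ e`. -/
noncomputable def sc (e : ℤ) : P.L n ≃o P.L n := ac (LinearEquiv.smulOfUnit (P.ϖ ^ e))

/-- A subspace as a submodule. -/
def rs (W : P.S n) : P.L n := W.restrictScalars P.O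

/-- The standard lattice of a subspace. -/
def La (W : P.S n) : P.L n := P.L0 n ⊓ rs W

/-- The image of a subspace. -/
noncomputable def im (u : P.A n) (W : P.S n) : P.S n := W.map u.toLinearMap

/-- Submodules commensurable with the standard lattice. -/
def Lat (Y : P.L n) : Prop := ∃ a : ℕ, sc a (P.L0 n) ≤ Y ∧ Y ≤ sc (-a) (P.L0 n)

/-- `W'` is the subspace on which `z` is large, for all `z` between `z` and `z'`. -/
def Gap (W : P.S n) (z z' : P.L n) (Tm Tp : ℤ) (W' : P.S n) : Prop :=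
  W' ≤ W ∧ sc (-Tp) (La W') ≤ z ∧ z' ⊓ sc (-Tp) (La W) ≤ rs W' ⊔ sc (-Tm) (La W)

end Pl

/-- Division rounded up. -/
def cd (q : ℕ) (i : ℤ) : ℤ := -(-i / q)

/-- Balls in a group. -/
structure Bl (G : Type) [Group G] where
  B : ℕ → Finset G
  s₀ : ℕ
  one : 1 ∈ B 0
  mul : ∀ {a b g h}, g ∈ B a → h ∈ B b → g * h ∈ B (a + b)
  inv : ∀ {a g}, g ∈ B a → g⁻¹ ∈ B a
  mono : ∀ {a b g}, a ≤ b → g ∈ B a → g ∈ B b
  card : ∀ m, (B m).card ≤ s₀ ^ m

/-- A linear action at one place, with balls and a Lipschitz constant. -/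
structure Ac (G : Type) [Group G] (bl : Bl G) (C : ℕ) (P : Pl) (n : ℕ) where
  ρ : G →* P.A n
  lip : ∀ {m s}, s ∈ bl.B m → Pl.sc ((C * m : ℕ) : ℤ) (P.L0 n) ≤ Pl.ac (ρ s) (P.L0 n)

open Classical in
/-- Functions supported in `F` with values bounded by `b`. -/
noncomputable def boxF {G : Type} (F : Finset G) (b : ℕ) : Finset (G → ℤ) :=
  (Fintype.piFinset fun _ : F => Finset.Icc (-(b : ℤ)) b).image
    fun f s => if h : s ∈ F then f ⟨s, h⟩ else 0

/-- Adjacency in the tropical projective space. -/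
def AdjT {G : Type} (F : Finset G) (x y : G → ℤ) : Prop :=
  x ≠ y ∧ ∃ δ : ℤ, ∀ s ∈ F, x s ≤ y s + δ ∧ y s + δ ≤ x s + 1

namespace Ac

open Pl

variable {G : Type} [Group G] {bl : Bl G} {C : ℕ} {P : Pl} {n : ℕ} (a : Ac G bl C P n)

/-- The generators. -/
noncomputable def gen (W : P.S n) (s : G) : P.L n := ac (a.ρ s) (P.L0 n) ⊓ rs W

/-- The filtration spanned by the generators, placed at heights `η`. -/
noncomputable def Xf (q : ℕ) (W : P.S n) (F : Finset G) (η : G → ℤ) (i : ℤ) : P.L n :=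
  ⨆ s ∈ F, sc (cd q (i - η s)) (a.gen W s)

/-- Closed height functions. -/
def Clo (q : ℕ) (W : P.S n) (F : Finset G) (η : G → ℤ) : Prop :=
  ∀ s ∈ F, ∀ e : ℤ, a.gen W s ≤ a.Xf q W F η e → e ≤ η s

open Classical in
/-- The vertices of the tropical hull. -/
noncomputable def Kv (q : ℕ) (W : P.S n) (m : ℕ) : Finset (G → ℤ) :=
  (boxF (bl.B m) (q * C * m)).filter fun η => a.Clo q W (bl.B m) η ∧ η 1 = 0

/-- `u` transports `W₂` seen from `g` to `W₁`, compatibly with the generators. -/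
def Tr (U : ℕ) (g : G) (W₁ W₂ : P.S n) (u : P.A n) : Prop :=
  im u W₂ = W₁ ∧ ∀ s, g * s ∈ bl.B U → ac u (a.gen W₂ s) = a.gen W₁ (g * s)

/-- The gap test with margin. -/
def GP (q : ℕ) (W : P.S n) (η : G → ℤ) (α β : ℕ) (Tm Tp : ℤ) (x : ℕ) (W' : P.S n) : Prop :=
  Gap W (a.Xf q W (bl.B (α + x)) η 0) (a.Xf q W (bl.B (β - x)) η 0)
    (Tm + (2 * C + 2) * x) (Tp - (2 * C + 2) * x) W'

/-- The low part of the projection at level `m`. -/
noncomputable def low (q : ℕ) (W W' : P.S n) (η : G → ℤ) (τ : ℤ) (m : ℕ) (i : ℤ) : P.L n :=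
  rs W' ⊔ (a.Xf q W (bl.B m) η i ⊓ sc (cd q i - τ) (La W))

/-- The soft projection. -/
noncomputable def psi (q : ℕ) (W W' : P.S n) (η : G → ℤ) (τ : ℤ) (α β : ℕ) (i : ℤ) : P.L n :=
  ⨆ m ∈ Finset.Icc α β, a.low q W W' η τ m (i + m - α)

end Ac

/-- Closeness of height functions. -/
def HC {G : Type} [Group G] (bl : Bl G) (m t : ℕ) (g : G) (η₁ η₂ : G → ℤ) (δ : ℤ) : Prop :=
  ∀ s ∈ bl.B (m - t), g⁻¹ * s ∈ bl.B (m - t) → |η₁ s - η₂ (g⁻¹ * s) - δ| ≤ t

section Stretch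

variable {α : Type} [PartialOrder α]

open Classical in
/-- Periodic filtrations with few jumps. -/
structure Per (π : α ≃o α) (q n : ℕ) (Ψ : ℤ → α) : Prop where
  anti : Antitone Ψ
  per : ∀ i, Ψ (i + q) = π (Ψ i)
  ne : ∀ i, Ψ (i + q) ≠ Ψ i
  brk : ∀ i : ℤ, ((Finset.Ico i (i + q)).filter fun j => Ψ (j + 1) ≠ Ψ j).card ≤ n

omit [PartialOrder α] in
/-- No interval of constancy has length close to `θ`. -/
def SelD (Ψ : ℤ → α) (θ h : ℕ) : Prop :=
  ∀ i : ℤ, Ψ (i + (θ - 4 * h)) = Ψ i → ∃ i', Ψ i' = Ψ i ∧ Ψ (i' + (θ + 4 * h)) = Ψ i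

omit [PartialOrder α] in
/-- Enumeration of the long intervals of constancy. -/
def IsEnum (Ψ : ℤ → α) (θ : ℕ) (ι : ℤ → ℤ) : Prop :=
  StrictMono ι ∧ Set.range ι = {i | Ψ (i + θ) = Ψ i ∧ Ψ (i - 1) ≠ Ψ i} ∧ ι (-1) < 0 ∧ 0 ≤ ι 0

end Stretch

open Classical in
/-- The depth at which a property holds. -/
noncomputable def dep (p : ℕ → Prop) (Rt : ℕ) : ℕ := Nat.findGreatest p Rt

end Pool.Agent.MP_f7db47_al.GN
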