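import Pool.Agent.MP_f7db47_al.GN.DL

/-!
The tree of nodes: definitions.
-/

namespace Pool.Agent.MP_f7db47_al.GN

/-- The numerical parameters of one stage. -/
structure Par where
  q : ℕ
  m : ℕ
  lam : ℕ
  U : ℕ
  Rt : ℕ
  X : ℕ
  T : ℕ → ℕ

/-- The inequalities between the parameters. -/
structure Par.OK (p : Par) (n C U' : ℕ) : Prop where
  q0 : 0 < p.q
  q1 : n * (4 * p.Rt * (2 * n + 1)) < p.q
  q2 : 2 * p.Rt ≤ p.q
  anti : Antitone p.T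
  t1 : 1 ≤ p.T n
  t2 : ∀ i < n, 2 * p.T (i + 1) + 6 * (2 * C + 2) * p.Rt + 2 * p.X + 3 + (4 * C + 2) * p.Rt +
    (2 * C + 1) * U' ≤ p.T i
  lam1 : ∀ i, 5 * p.Rt + p.q * (p.T i + 2 * (2 * C + 2) * p.Rt + 1) ≤ p.lam
  m1 : n * p.lam + 2 * p.Rt ≤ p.m
  u1 : p.m ≤ p.U
  u2 : p.T 0 ≤ p.U
  u3 : U' ≤ p.U

/-- The place of the truncation. -/
def Par.tau (p : Par) (C τ : ℕ) : ℕ := p.T (τ + 1) + 2 * (2 * C + 2) * p.Rt + 1

/-- The threshold for long intervals. -/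
def Par.th (p : Par) (κ : ℕ) : ℕ := 4 * p.Rt * (2 * κ + 1)

namespace Ac

open Pl

variable {G : Type} [Group G] {bl : Bl G} {C : ℕ} {P : Pl} {n : ℕ} (a : Ac G bl C P n)

/-- Two vertices of tropical hulls that are close. -/
structure Pair (q m U t : ℕ) (g : G) (W₁ W₂ : P.S n) (η₁ η₂ : G → ℤ) (u : P.A n) (δ : ℤ) :
    Prop where
  q0 : 0 < q
  k1 : η₁ ∈ a.Kv q W₁ m
  k2 : η₂ ∈ a.Kv q W₂ m
  gt : g ∈ bl.B t
  tr : a.Tr U g W₁ W₂ u
  mU : m ≤ U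
  hc : HC bl m t g η₁ η₂ δ
  t2 : 2 * t ≤ m

variable (p : Par) (W : P.S n) (η : G → ℤ) (τ κ : ℕ)

/-- The test number `τ`. -/
def gp (x : ℕ) (W' : P.S n) : Prop :=
  a.GP p.q W η (τ * p.lam) ((τ + 1) * p.lam) (p.T (τ + 1)) (p.T τ) x W'

open Classical in
/-- The subspace found by the test. -/
noncomputable def wit : P.S n :=
  if h : ∃ W', a.gp p W η τ p.Rt W' then h.choose else ⊥

/-- The depth of the test. -/
noncomputable def dG : ℕ := dep (fun h => ∃ W', a.gp p W η τ (p.Rt - h) W') p.Rt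

/-- The filtration of the quotient. -/
noncomputable def Psi : ℤ → P.L n :=
  a.psi p.q W (a.wit p W η τ) η (p.tau C τ) (τ * p.lam + 2 * p.Rt) ((τ + 1) * p.lam - 3 * p.Rt)

/-- The depth of the selection of long intervals. -/
noncomputable def dS : ℕ := dep (SelD (a.Psi p W η τ) (p.th κ)) p.Rt

open Classical in
/-- The enumeration of the long intervals. -/
noncomputable def en : ℤ → ℤ :=
  if h : ∃ ι, IsEnum (a.Psi p W η τ) (p.th κ) ι then h.choose else id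

/-- The new lattices. -/
noncomputable def Nn (c : ℤ) : P.L n :=
  a.Psi p W η τ (a.en p W η τ κ c) ⊓ sc (-((p.X + p.tau C τ : ℕ) : ℤ)) (La W)

open Classical in
/-- The vertices of the complex over a label of height `h`. -/
noncomputable def Kn (q m h : ℕ) (W : P.S n) : Finset (G → ℤ) :=
  if 0 < h then a.Kv q W m else {0}

end Ac

/-- Symmetric filtered relations that are compatible with the balls. -/
structure FR.Good {G : Type} [Group G] {Λ : Type} (F : FR G Λ) (bl : Bl G) : Prop where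
  symm : ∀ {t x g y}, F.rel t x g y → F.rel t y g⁻¹ x
  ball : ∀ {t x g y}, F.rel t x g y → g ∈ bl.B t

/-- A node. -/
structure Nd {ι : Type} (P : ι → Pl) (n β : ℕ) (Λ : Type) where
  r : ℕ
  rk : ι → ℕ
  ω : ι → ℤ
  h : Λ → ℕ
  W : Λ → ∀ l, (P l).S n
  Z : Λ → (Fin β → ℤ) → ∀ l, (P l).L n

/-- The box of radius `X`. -/
def Bx {κ : Type} (X : ℕ) (v : κ → ℤ) : Prop := ∀ i, |v i| ≤ (X : ℤ)

namespace Nd

open Pl

variable {ι : Type} {P : ι → Pl} {n β : ℕ} {Λ Λ' : Type}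

/-- Pull back of a node. -/
def pull (ν : Nd P n β Λ) (π : Λ' → Λ) : Nd P n β Λ' :=
  ⟨ν.r, ν.rk, ν.ω, fun x => ν.h (π x), fun x => ν.W (π x), fun x => ν.Z (π x)⟩

variable {G : Type} [Group G] {bl : Bl G} {C : ℕ} (a : ∀ l, Ac G bl C (P l) n)

/-- The invariant of a node. -/
structure Inv [Fintype ι] (F : FR G Λ) (Rt X cδ U : ℕ) (ν : Nd P n β Λ) : Prop where
  rle : ν.r ≤ β
  rks : ∑ l, ν.rk l ≤ ν.r
  hle : ∀ x, ν.h x ≤ Rt
  lip : ∀ {t x g y}, F.rel t x g y → ν.h y ≤ ν.h x + t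
  rank : ∀ x l, 0 < ν.h x → Module.finrank (P l).K (ν.W x l) = ν.rk l
  dep : ∀ x v v', (∀ i : Fin β, ν.r ≤ i → v i = v' i) → ν.Z x v = ν.Z x v'
  lat : ∀ x v l, 0 < ν.h x → Bx X v → ∃ c : ℕ,
    sc c ((P l).L0 n) ≤ ν.Z x v l ⊔ sc (ν.ω l) (La (ν.W x l)) ∧
      ν.Z x v l ≤ sc (-c) ((P l).L0 n)
  close : ∀ {t x g y}, F.rel t x g y → t < ν.h x → t < ν.h y → ∃ δ : Fin β → ℤ,
    Bx (cδ * (t + 1)) δ ∧ (∀ i : Fin β, (i : ℕ) < ν.r → δ i = 0) ∧ ∀ l, ∃ u,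
      (a l).Tr U g (ν.W x l) (ν.W y l) u ∧ ∀ v, Bx X v → Bx X (v + δ) → ∀ Y,
        sc (ν.ω l) (La (ν.W x l)) ≤ Y → Y ≤ sc (ν.ω l - U) (La (ν.W x l)) →
        Y ⊔ ν.Z x v l = ac ((a l).ρ g) (ac u⁻¹ Y ⊔ ν.Z y (v + δ) l)

open Classical in
/-- The children of a node. -/
noncomputable def child [DecidableEq ι] (p : Par) (ν : Nd P n β Λ) (l : ι) (π : Λ' → Λ)
    (η : Λ' → G → ℤ) (τ κ d : ℕ) : Nd P n β Λ' where
  r := ν.r - 1
  rk := Function.update ν.rk l (min d (ν.rk l - 1))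
  ω := Function.update ν.ω l (ν.ω l - p.X - 1 - ((p.X + p.tau C τ : ℕ) : ℤ) - ((C * p.Rt : ℕ) : ℤ))
  h x := if Module.finrank (P l).K ((a l).wit p (ν.W (π x) l) (η x) τ) = d then
    min (ν.h (π x) / 2)
      (min ((a l).dG p (ν.W (π x) l) (η x) τ) ((a l).dS p (ν.W (π x) l) (η x) τ κ)) else 0
  W x := Function.update (ν.W (π x)) l ((a l).wit p (ν.W (π x) l) (η x) τ)
  Z x v := Function.update (ν.Z (π x) v) l (ν.Z (π x) v l ⊔ sc (ν.ω l - p.X - 1)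
    ((a l).Nn p (ν.W (π x) l) (η x) τ κ (if h : ν.r - 1 < β then v ⟨ν.r - 1, h⟩ else 0)))

end Nd

end Pool.Agent.MP_f7db47_al.GN
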