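import Pool.Agent.MP_f7db47_al.GN.DL

/-!
Boxes in tropically convex sets are dismantlable.
-/

namespace Pool.Agent.MP_f7db47_al.GN

variable {G : Type}

/-- The least shift that puts `y` above `u` on `E`. -/
lemma Trop_shift (E : Finset G) (hE : E.Nonempty) (u : G → ℤ) : ∃ d : (G → ℤ) → ℤ, ∀ y,
    (∀ s ∈ E, u s ≤ y s + d y) ∧ ∃ s ∈ E, y s + d y = u s := by
  have h : ∀ y : G → ℤ, ∃ d : ℤ, (∀ s ∈ E, u s ≤ y s + d) ∧ ∃ s ∈ E, y s + d = u s := by
    intro y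
    obtain ⟨s, hs, h⟩ := E.exists_max_image (fun s => u s - y s) hE
    exact ⟨u s - y s, fun t ht => by have := h t ht; omega, s, hs, by omega⟩
  choose d hd using h
  exact ⟨d, hd⟩

open Classical in
/-- Normalisation. -/
noncomputable def Trop_nm (F : Finset G) (o : G) (x : G → ℤ) : G → ℤ :=
  fun s => if s ∈ F then x s - x o else 0

lemma Trop_nm_mem {F : Finset G} {o : G} (x : G → ℤ) {s : G} (hs : s ∈ F) :
    Trop_nm F o x s = x s - x o := if_pos hs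

lemma Trop_nmK {F : Finset G} {o : G} (ho : o ∈ F) {Cl : (G → ℤ) → Prop}
    (hcongr : ∀ x y, (∀ s ∈ F, x s = y s) → Cl x → Cl y)
    (hshift : ∀ x (c : ℤ), Cl x → Cl fun s => x s + c) {K : Finset (G → ℤ)}
    (hK : ∀ x, x ∈ K ↔ Cl x ∧ x o = 0 ∧ ∀ s ∉ F, x s = 0) {x : G → ℤ} (hx : Cl x) :
    Trop_nm F o x ∈ K :=
  (hK _).2 ⟨hcongr _ _ (fun s hs => by rw [Trop_nm_mem x hs, sub_eq_add_neg])
    (hshift x (-x o) hx), by rw [Trop_nm_mem x ho, sub_self], fun s hs => if_neg hs⟩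

/-- The least closed function above `u` on `E`. -/
lemma Trop_cl {F : Finset G} {o : G} (ho : o ∈ F) {Cl : (G → ℤ) → Prop}
    (hcongr : ∀ x y, (∀ s ∈ F, x s = y s) → Cl x → Cl y)
    (hshift : ∀ x (c : ℤ), Cl x → Cl fun s => x s + c)
    (hmin : ∀ x y, Cl x → Cl y → Cl fun s => min (x s) (y s)) {K : Finset (G → ℤ)}
    (hK : ∀ x, x ∈ K ↔ Cl x ∧ x o = 0 ∧ ∀ s ∉ F, x s = 0) (hKne : K.Nonempty) {E : Finset G}
    (hE : E ⊆ F) (hne : E.Nonempty) (u : G → ℤ) : ∃ c, Cl c ∧ (∀ s ∈ E, u s ≤ c s) ∧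
      ∀ x, Cl x → (∀ s ∈ E, u s ≤ x s) → ∀ s ∈ F, c s ≤ x s := by
  obtain ⟨d, hd⟩ := Trop_shift E hne u
  have h := Finset.inf'_induction hKne (fun y s => y s + d y)
    (p := fun c => Cl c ∧ ∀ s ∈ E, u s ≤ c s)
    (fun a ha b hb => ⟨hmin a b ha.1 hb.1, fun s hs => le_min (ha.2 s hs) (hb.2 s hs)⟩)
    fun y hy => ⟨hshift y _ ((hK y).1 hy).1, (hd y).1⟩
  refine ⟨_, h.1, h.2, fun x hx hu s hs => ?_⟩
  have h1 := Finset.inf'_le (fun y s => y s + d y) (Trop_nmK ho hcongr hshift hK hx) s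
  obtain ⟨t, ht, h2⟩ := (hd (Trop_nm F o x)).2
  have h3 := hu t ht
  rw [Trop_nm_mem x (hE ht)] at h2
  refine le_trans h1 ?_
  show Trop_nm F o x s + _ ≤ _
  rw [Trop_nm_mem x hs]
  omega

theorem adjT_symm (F : Finset G) (x y : G → ℤ) (h : AdjT F x y) : AdjT F y x := by
  obtain ⟨h1, δ, h2⟩ := h
  exact ⟨h1.symm, 1 - δ, fun s hs => by have := h2 s hs; omega⟩

/-- Adjacent normalised vertices are comparable and at distance at most one. -/
theorem AdjT.norm {F : Finset G} {o : G} (ho : o ∈ F) {x y : G → ℤ} (hx : x o = 0) (hy : y o = 0)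
    (h : AdjT F x y) :
    (∀ s ∈ F, x s ≤ y s ∧ y s ≤ x s + 1) ∨ ∀ s ∈ F, y s ≤ x s ∧ x s ≤ y s + 1 := by
  obtain ⟨-, δ, h2⟩ := h
  have h0 := h2 o ho
  rcases (by omega : δ = 1 ∨ δ = 0) with rfl | rfl
  · exact Or.inr fun s hs => by have := h2 s hs; omega
  · exact Or.inl fun s hs => by have := h2 s hs; omega

theorem box_dism (F F' : Finset G) (hF : F' ⊆ F) (hne : F'.Nonempty) (o : G) (ho : o ∈ F)
    (Cl : (G → ℤ) → Prop) (hcongr : ∀ x y, (∀ s ∈ F, x s = y s) → Cl x → Cl y)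
    (hshift : ∀ x (c : ℤ), Cl x → Cl fun s => x s + c)
    (hmin : ∀ x y, Cl x → Cl y → Cl fun s => min (x s) (y s)) (K : Finset (G → ℤ))
    (hK : ∀ x, x ∈ K ↔ Cl x ∧ x o = 0 ∧ ∀ s ∉ F, x s = 0) (lo hi : G → ℤ) (B : Finset (G → ℤ))
    (hB : ∀ y, y ∈ B ↔ y ∈ K ∧ ∃ δ : ℤ, ∀ s ∈ F', lo s ≤ y s + δ ∧ y s + δ ≤ hi s)
    (hBne : B.Nonempty) : Dism (AdjT F) B := by
  obtain ⟨y₀, hy₀⟩ := hBne
  have hKne : K.Nonempty := ⟨y₀, ((hB y₀).1 hy₀).1⟩
  obtain ⟨d, hd⟩ := Trop_shift F' hne lo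
  obtain ⟨l, hl1, hl2, hl3⟩ := Trop_cl ho hcongr hshift hmin hK hKne hF hne lo
  choose cl hc1 hc2 hc3 using Trop_cl ho hcongr hshift hmin hK hKne (Finset.Subset.refl F) ⟨o, ho⟩
  have hcl : ∀ z ∈ B, Cl fun s => z s + d z := fun z hz =>
    hshift z _ ((hK z).1 ((hB z).1 hz).1).1
  have hlo : ∀ z ∈ B, ∀ s ∈ F, l s ≤ z s + d z := fun z hz => hl3 _ (hcl z hz) (hd z).1
  have hH : ∀ y, Cl y → ∀ z ∈ B, (∀ s ∈ F, l s ≤ y s) → (∀ s ∈ F, y s ≤ z s + d z) →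
      Trop_nm F o y ∈ B ∧ ∀ s ∈ F, Trop_nm F o y s + d (Trop_nm F o y) = y s := by
    intro y hy z hz h1 h2
    obtain ⟨-, δ, hδ⟩ := (hB z).1 hz
    obtain ⟨t, ht, h3⟩ := (hd z).2
    refine ⟨(hB _).2 ⟨Trop_nmK ho hcongr hshift hK hy, y o, fun s hs => ?_⟩, fun s hs => ?_⟩
    · have := hl2 s hs
      have := h1 s (hF hs)
      have := h2 s (hF hs)
      have := hδ s hs
      have := hδ t ht
      rw [Trop_nm_mem y (hF hs)]
      omega
    · obtain ⟨t', ht', h4⟩ := (hd (Trop_nm F o y)).2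
      have h5 := (hd (Trop_nm F o y)).1 t ht
      rw [Trop_nm_mem y (hF ht)] at h5
      rw [Trop_nm_mem y (hF ht')] at h4
      have := h2 t (hF ht)
      have := hl2 t' ht'
      have := h1 t' (hF ht')
      rw [Trop_nm_mem y hs]
      omega
  obtain ⟨h01, h02⟩ := hH l hl1 y₀ hy₀ (fun _ _ => le_rfl) (hlo y₀ hy₀)
  refine ⟨fun z => ∑ s ∈ F, (z s + d z), Trop_nm F o l,
    fun z => Trop_nm F o (cl fun s => max (z s + d z - 1) (l s)), h01, fun z hz hz0 => ?_⟩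
  obtain ⟨y, hy⟩ : ∃ y, y = cl fun s => max (z s + d z - 1) (l s) := ⟨_, rfl⟩
  have y1 : Cl y := hy ▸ hc1 _
  have y2 : ∀ s ∈ F, z s + d z - 1 ≤ y s ∧ l s ≤ y s := fun s hs =>
    max_le_iff.1 (hy ▸ hc2 _ s hs)
  have y3 : ∀ x, Cl x → (∀ s ∈ F, z s + d z - 1 ≤ x s ∧ l s ≤ x s) → ∀ s ∈ F, y s ≤ x s :=
    fun x hx h => hy ▸ hc3 _ x hx fun s hs => max_le_iff.2 (h s hs)
  have y4 := y3 _ (hcl z hz) fun s hs => ⟨by omega, hlo z hz s hs⟩
  obtain ⟨y5, y6⟩ := hH y y1 z hz (fun s hs => (y2 s hs).2) y4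
  obtain ⟨t, ht, hmax⟩ := F.exists_max_image (fun s => z s + d z - l s) ⟨o, ho⟩
  have hpos : l t < z t + d z := by
    by_contra hle
    obtain ⟨-, z1, z2⟩ := (hK z).1 ((hB z).1 hz).1
    refine hz0 (funext fun s => ?_)
    by_cases hs : s ∈ F
    · have := hmax s hs
      have := hmax o ho
      have := hlo z hz s hs
      have := hlo z hz o ho
      rw [Trop_nm_mem l hs]
      omega
    · rw [z2 s hs]
      exact (if_neg hs).symm
  simp only [← hy]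
  refine ⟨?_, y5, ?_, fun w hw hadj hrk => ?_⟩
  · rw [Finset.sum_congr rfl h02]
    exact Finset.sum_lt_sum (hlo z hz) ⟨t, ht, hpos⟩
  · rw [Finset.sum_congr rfl y6]
    refine Finset.sum_lt_sum y4 ⟨t, ht, ?_⟩
    have h := y3 _ (hmin _ _ (hcl z hz) (hshift l (z t + d z - l t - 1) hl1)) (fun s hs => by
      have := hmax s hs
      have := hlo z hz s hs
      omega) t ht
    omega
  · have h1 : ∀ s ∈ F, z s + d z - 1 ≤ w s + d w ∧ w s + d w ≤ z s + d z := by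
      rcases hadj with rfl | ⟨-, δ, hδ⟩
      · exact fun s _ => by omega
      obtain ⟨a, ha, h2⟩ := (hd z).2
      obtain ⟨b, hb, h3⟩ := (hd w).2
      have := (hd w).1 a ha
      have := (hd z).1 b hb
      have := hδ a (hF ha)
      have := hδ b (hF hb)
      rcases (by omega : δ + d w - d z = 0 ∨ δ + d w - d z = 1) with h4 | h4
      · exact fun s hs => by have := hδ s hs; omega
      · have h5 : ∀ s ∈ F, z s + d z ≤ w s + d w := fun s hs => by have := hδ s hs; omega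
        have h6 := (Finset.sum_eq_sum_iff_of_le h5).1 (le_antisymm (Finset.sum_le_sum h5) hrk)
        exact fun s hs => by have := h6 s hs; omega
    have h7 := y3 _ (hcl w hw) fun s hs => ⟨(h1 s hs).1, hlo w hw s hs⟩
    refine or_iff_not_imp_left.2 fun hne' => ⟨hne', y o + 1 - d w, fun s hs => ?_⟩
    have := h7 s hs
    have := h1 s hs
    have := y2 s hs
    rw [Trop_nm_mem y hs]
    omega

theorem mem_boxF {F : Finset G} {b : ℕ} {x : G → ℤ} :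
    x ∈ boxF F b ↔ (∀ s ∈ F, |x s| ≤ b) ∧ ∀ s ∉ F, x s = 0 := by
  simp only [boxF, Finset.mem_image, Fintype.mem_piFinset, Finset.mem_Icc]
  constructor
  · rintro ⟨f, hf, rfl⟩
    exact ⟨fun s hs => by simp only [dif_pos hs]; exact abs_le.2 (hf _), fun s hs => dif_neg hs⟩
  · rintro ⟨h1, h2⟩
    refine ⟨fun s => x s, fun s => abs_le.1 (h1 s s.2), funext fun s => ?_⟩
    split_ifs with h
    · rfl
    · exact (h2 s h).symm

theorem card_boxF (F : Finset G) (b : ℕ) : (boxF F b).card ≤ (2 * b + 1) ^ F.card := by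
  classical
  rw [boxF]
  refine (@Finset.card_image_le _ _ _ _ (_)).trans (le_of_eq ?_)
  rw [@Fintype.card_piFinset _ (_), Finset.prod_const, Finset.card_univ, Fintype.card_coe,
    Int.card_Icc]
  congr 1
  omega

end Pool.Agent.MP_f7db47_al.GN
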