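import Pool.Agent.MP_f7db47_al.GN.LBasic
import Pool.Agent.MP_f7db47_al.GN.Trop

/-!
The tropical hull of finitely many lattices.
-/

namespace Pool.Agent.MP_f7db47_al.GN

theorem cd_mono {q : ℕ} (hq : 0 < q) {i j : ℤ} (h : i ≤ j) : cd q i ≤ cd q j :=
  neg_le_neg (Int.ediv_le_ediv (by exact_mod_cast hq) (neg_le_neg h))

theorem cd_add {q : ℕ} (hq : 0 < q) (i c : ℤ) : cd q (i + q * c) = cd q i + c :=
  by
  have h : -(i + q * c) = -i + q * -c := by ring
  rw [cd, cd, h, Int.add_mul_ediv_left _ _ (by exact_mod_cast hq.ne')]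
  ring

theorem cd_zero (q : ℕ) : cd q 0 = 0 :=
  by simp [cd]

theorem cd_spec {q : ℕ} (hq : 0 < q) (i : ℤ) : i ≤ q * cd q i ∧ q * cd q i < i + q :=
  by
  have h0 : (0 : ℤ) < q := by exact_mod_cast hq
  have h1 := Int.emod_add_mul_ediv (-i) q
  have h2 := Int.emod_nonneg (-i) h0.ne'
  have h3 := Int.emod_lt_of_pos (-i) h0
  rw [cd, mul_neg]
  constructor <;> linarith

namespace Ac

open Pl

variable {G : Type} [Group G] {bl : Bl G} {C : ℕ} {P : Pl} {n : ℕ} (a : Ac G bl C P n)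
  {q : ℕ} {W : P.S n}

theorem LFine_sc {e : ℤ} {Y Z : P.L n} (h : sc e Y ≤ Z) : Y ≤ sc (-e) Z := by
  have := (sc (-e)).monotone h
  rwa [← sc_add, neg_add_cancel, sc_zero] at this

theorem LFine_congr {F : Finset G} {x y : G → ℤ} {i j : ℤ} (h : ∀ s ∈ F, i - x s = j - y s) :
    a.Xf q W F x i = a.Xf q W F y j :=
  iSup_congr fun s => iSup_congr fun hs => by rw [h s hs]

theorem gen_one (W : P.S n) : a.gen W 1 = La W :=
  by rw [gen, map_one, ac_one, La]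

theorem gen_le (W : P.S n) (s : G) : a.gen W s ≤ rs W :=
  inf_le_right

theorem le_gen (W : P.S n) {m : ℕ} {s : G} (hs : s ∈ bl.B m) :
    sc ((C * m : ℕ) : ℤ) (La W) ≤ a.gen W s :=
  by
  rw [La, map_inf, sc_rs]
  exact inf_le_inf_right _ (a.lip hs)

theorem gen_le_sc (W : P.S n) {m : ℕ} {s : G} (hs : s ∈ bl.B m) :
    a.gen W s ≤ sc (-((C * m : ℕ) : ℤ)) (La W) :=
  by
  have h := (ac (a.ρ s)).monotone (a.lip (bl.inv hs))
  rw [map_inv, ac_ac_inv, ac_sc] at h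
  rw [La, map_inf, sc_rs]
  exact inf_le_inf_right _ (LFine_sc h)

theorem Xf_anti (hq : 0 < q) (W : P.S n) (F : Finset G) (η : G → ℤ) : Antitone (a.Xf q W F η) :=
  fun i j h => iSup₂_mono fun s _ => sc_anti (cd_mono hq (by linarith)) _

theorem Xf_per (hq : 0 < q) (W : P.S n) (F : Finset G) (η : G → ℤ) (i c : ℤ) :
    a.Xf q W F η (i + q * c) = sc c (a.Xf q W F η i) :=
  by
  simp only [Xf, OrderIso.map_iSup]
  refine iSup_congr fun s => iSup_congr fun _ => ?_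
  rw [← sc_add, add_comm c, ← cd_add hq]
  congr 3
  ring

theorem Xf_le_rs (q : ℕ) (W : P.S n) (F : Finset G) (η : G → ℤ) (i : ℤ) :
    a.Xf q W F η i ≤ rs W :=
  iSup₂_le fun s _ => ((sc _).monotone (a.gen_le W s)).trans_eq (sc_rs _ W)

theorem Xf_mono (hq : 0 < q) (W : P.S n) {F F' : Finset G} {η η' : G → ℤ} {i i' : ℤ}
    (hF : F ⊆ F') (h : ∀ s ∈ F, i' - η' s ≤ i - η s) : a.Xf q W F η i ≤ a.Xf q W F' η' i' :=
  iSup₂_le fun s hs => le_iSup₂_of_le (f := fun s (_ : s ∈ F') => sc (cd q (i' - η' s)) (a.gen W s))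
    s (hF hs) (sc_anti (cd_mono hq (h s hs)) _)

theorem gen_le_Xf (q : ℕ) (W : P.S n) {F : Finset G} (η : G → ℤ) {s : G} (hs : s ∈ F) :
    a.gen W s ≤ a.Xf q W F η (η s) :=
  le_iSup₂_of_le (f := fun t (_ : t ∈ F) => sc (cd q (η s - η t)) (a.gen W t)) s hs
    (by rw [sub_self, cd_zero, sc_zero])

theorem Clo.bound (hq : 0 < q) {m k : ℕ} {η : G → ℤ} (h : a.Clo q W (bl.B m) η) (h1 : η 1 = 0)
    (hk : k ≤ m) {s : G} (hs : s ∈ bl.B k) : |η s| ≤ ((q * C * k : ℕ) : ℤ) :=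
  by
  have h2 : (1 : G) ∈ bl.B m := bl.mono (Nat.zero_le m) bl.one
  have h3 := bl.mono hk hs
  have h4 := h s h3 (η 1 + q * -((C * k : ℕ) : ℤ)) (by
    rw [a.Xf_per hq]
    exact (a.gen_le_sc W hs).trans ((sc _).monotone (a.gen_one W ▸ a.gen_le_Xf q W η h2)))
  have h5 := h 1 h2 (η s + q * -((C * k : ℕ) : ℤ)) (by
    rw [a.Xf_per hq, gen_one]
    exact LFine_sc ((a.le_gen W hs).trans (a.gen_le_Xf q W η h3)))
  push_cast at h4 h5 ⊢
  rw [abs_le]
  constructor <;> linarith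

theorem mem_Kv (hq : 0 < q) {m : ℕ} {η : G → ℤ} :
    η ∈ a.Kv q W m ↔ a.Clo q W (bl.B m) η ∧ η 1 = 0 ∧ ∀ s ∉ bl.B m, η s = 0 :=
  by
  classical
  rw [Kv, Finset.mem_filter, mem_boxF]
  exact ⟨fun h => ⟨h.2.1, h.2.2, h.1.2⟩, fun h =>
    ⟨⟨fun s hs => Clo.bound a hq h.1 h.2.1 le_rfl hs, h.2.2⟩, h.1, h.2.1⟩⟩

theorem card_Kv (q : ℕ) (W : P.S n) (m : ℕ) :
    (a.Kv q W m).card ≤ (2 * (q * C * m) + 1) ^ bl.s₀ ^ m :=
  by
  classical
  exact (Finset.card_filter_le _ _).trans ((card_boxF _ _).trans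
    (Nat.pow_le_pow_right (Nat.succ_pos _) (bl.card m)))

theorem Clo.congr {F : Finset G} {x y : G → ℤ} (h : ∀ s ∈ F, x s = y s) (hx : a.Clo q W F x) :
    a.Clo q W F y :=
  fun s hs e he => h s hs ▸ hx s hs e
    (he.trans_eq (LFine_congr a fun t ht => by rw [h t ht]))

theorem Clo.shift {F : Finset G} {x : G → ℤ} (c : ℤ) (hx : a.Clo q W F x) :
    a.Clo q W F fun s => x s + c :=
  fun s hs e he => by
  have := hx s hs (e - c) (he.trans_eq (LFine_congr a fun t _ => by ring))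
  show e ≤ x s + c
  linarith

theorem Clo.min (hq : 0 < q) {F : Finset G} {x y : G → ℤ} (hx : a.Clo q W F x)
    (hy : a.Clo q W F y) : a.Clo q W F fun s => min (x s) (y s) :=
  fun s hs e he => le_min
    (hx s hs e (he.trans (a.Xf_mono hq W subset_rfl fun _ _ =>
      sub_le_sub_left (min_le_left _ _) e)))
    (hy s hs e (he.trans (a.Xf_mono hq W subset_rfl fun _ _ =>
      sub_le_sub_left (min_le_right _ _) e)))

/-- The closure of a height function given on a subset. -/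
theorem exists_clo (hq : 0 < q) (hW : W ≠ ⊥) {m : ℕ} {F : Finset G} (hF : F ⊆ bl.B m)
    (hne : F.Nonempty) (η : G → ℤ) :
    ∃ y ∈ a.Kv q W m, ∃ δ : ℤ, ∀ s ∈ bl.B m, ∀ e : ℤ,
      a.gen W s ≤ a.Xf q W F η e ↔ e ≤ y s + δ :=
  by
  classical
  obtain ⟨b, hb⟩ := (F.image η).bddAbove
  have hb' : a.Xf q W F η b ≤ sc (-((C * m : ℕ) : ℤ)) (La W) := iSup₂_le fun t ht => by
    have h1 : η t ≤ b := hb (Finset.mem_coe.2 (Finset.mem_image_of_mem η ht))
    have h2 := cd_mono hq (sub_nonneg.2 h1)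
    rw [cd_zero] at h2
    exact ((sc_anti h2 _).trans_eq (sc_zero _)).trans (a.gen_le_sc W (hF ht))
  have key : ∀ s, ∃ y : ℤ, s ∈ bl.B m → ∀ e, a.gen W s ≤ a.Xf q W F η e ↔ e ≤ y := fun s => by
    by_cases hs : s ∈ bl.B m
    swap
    · exact ⟨0, fun h => absurd h hs⟩
    obtain ⟨t, ht⟩ := hne
    obtain ⟨y, hy, hm⟩ := Int.exists_greatest_of_bdd (P := fun e => a.gen W s ≤ a.Xf q W F η e)
      ⟨b + q * (((C * m : ℕ) : ℤ) + 1 + (C * m : ℕ)), fun e he => le_of_not_gt fun hc => by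
        have h1 := ((a.le_gen W hs).trans he).trans (a.Xf_anti hq W F η hc.le)
        rw [a.Xf_per hq] at h1
        have h2 := h1.trans ((sc _).monotone hb')
        rw [← sc_add, add_neg_cancel_right, sc_add, OrderIso.le_iff_le] at h2
        exact not_La_le hW h2⟩
      ⟨η t + q * -((C * m : ℕ) : ℤ) + q * -((C * m : ℕ) : ℤ), by
        show a.gen W s ≤ _
        rw [a.Xf_per hq, a.Xf_per hq]
        exact (a.gen_le_sc W hs).trans ((sc _).monotone
          (LFine_sc ((a.le_gen W (hF ht)).trans (a.gen_le_Xf q W η ht))))⟩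
    exact ⟨y, fun _ e => ⟨hm e, fun h => hy.trans (a.Xf_anti hq W F η h)⟩⟩
  choose y hy using key
  have hc : a.Clo q W (bl.B m) y := fun s hs e he => (hy s hs e).1 (he.trans (iSup₂_le fun t ht => by
    refine ((sc _).monotone ((hy t ht (y t)).2 le_rfl)).trans ?_
    rw [← a.Xf_per hq]
    exact a.Xf_anti hq W F η (by linarith [(cd_spec hq (e - y t)).1])))
  have h1 : (1 : G) ∈ bl.B m := bl.mono (Nat.zero_le m) bl.one
  refine ⟨fun s => if s ∈ bl.B m then y s + -y 1 else 0, (a.mem_Kv hq).2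
    ⟨Clo.congr a (fun s hs => (if_pos hs).symm) (Clo.shift a (-y 1) hc), by simp [h1],
      fun s hs => if_neg hs⟩, y 1, fun s hs e => ?_⟩
  simp only [hy s hs, if_pos hs, neg_add_cancel_right]

theorem La_le_Xf {m k : ℕ} {η : G → ℤ} (h : η ∈ a.Kv q W m) : La W ≤ a.Xf q W (bl.B k) η 0 :=
  by
  classical
  have h1 := (Finset.mem_filter.1 h).2.2
  exact h1 ▸ a.gen_one W ▸ a.gen_le_Xf q W η (bl.mono (Nat.zero_le k) bl.one)

theorem not_La_le_Xf (hq : 0 < q) {m k : ℕ} {η : G → ℤ} (h : η ∈ a.Kv q W m) (hk : k ≤ m) :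
    ¬ La W ≤ sc 1 (a.Xf q W (bl.B k) η 0) :=
  fun hc => by
  obtain ⟨h1, h2, -⟩ := (a.mem_Kv hq).1 h
  rw [← a.Xf_per hq, ← a.gen_one] at hc
  have := h1 1 (bl.mono (Nat.zero_le m) bl.one) _ (hc.trans
    (a.Xf_mono hq W (fun s hs => bl.mono hk hs) fun _ _ => le_rfl))
  omega

theorem LFine_chain (hq : 0 < q) {F : Finset G} (y : ℕ → G → ℤ) {r : ℕ} (hr : 0 < r)
    (h0 : ∀ s, y r s = y 0 s + 1) (h : ∀ i < r, a.Clo q W F (y i) ∧
      (∀ s ∈ F, y i s ≤ y (i + 1) s) ∧ ∃ s ∈ F, y i s < y (i + 1) s) : r ≤ n := by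
  classical
  obtain ⟨f, hf⟩ : ∃ f : ℕ → P.L n, ∀ i ≤ r, ∀ j : ℕ, f (i + r * j) = a.Xf q W F (y i) (-j) := by
    refine ⟨fun k => a.Xf q W F (y (k % r)) (-((k / r : ℕ) : ℤ)), fun i hi j => ?_⟩
    simp only [Nat.add_mul_mod_self_left, Nat.add_mul_div_left _ _ hr]
    rcases hi.eq_or_lt with rfl | hi
    · rw [Nat.mod_self, Nat.div_self hr]
      exact LFine_congr a fun s _ => by rw [h0]; push_cast; ring
    · rw [Nat.mod_eq_of_lt hi, Nat.div_eq_of_lt hi, zero_add]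
  have hf' : ∀ i < r, ∀ j : ℕ, f (i + r * j + 1) = a.Xf q W F (y (i + 1)) (-j) := fun i hi j => by
    rw [add_right_comm, hf _ hi]
  have mono : Monotone f := monotone_nat_of_le_succ fun k => by
    rw [← Nat.mod_add_div k r, hf' _ (Nat.mod_lt k hr), hf _ (Nat.mod_lt k hr).le]
    exact a.Xf_mono hq W subset_rfl fun s hs =>
      sub_le_sub_left ((h _ (Nat.mod_lt k hr)).2.1 s hs) _
  have jump : ∀ i, ∃ j, i < r → j < q ∧ f (i + r * j + 1) ≠ f (i + r * j) := fun i => by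
    by_cases hi : i < r
    swap
    · exact ⟨0, fun h => absurd h hi⟩
    obtain ⟨h1, -, s, hs, h2⟩ := h i hi
    obtain ⟨h3, h4⟩ := cd_spec hq (y (i + 1) s)
    obtain ⟨j, hj⟩ := Int.eq_ofNat_of_zero_le (sub_nonneg.2 h3)
    refine ⟨j, fun _ => ⟨by omega, fun he => h2.not_ge (h1 s hs _ ?_)⟩⟩
    rw [hf' i hi, hf i hi.le] at he
    have h5 : y (i + 1) s = -(j : ℤ) + q * cd q (y (i + 1) s) := by omega
    have h6 := a.gen_le_Xf q W (y (i + 1)) hs
    rw [h5, a.Xf_per hq] at h6 ⊢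
    rwa [he] at h6
  choose j hj using jump
  have e0 := hf 0 (Nat.zero_le r) 0
  have e1 := hf 0 (Nat.zero_le r) q
  rw [zero_add] at e0 e1
  refine le_trans ?_ (chain_le (f (r * q)) f (r * q) mono ?_ le_rfl)
  · refine (Finset.card_range r).symm.trans_le (Finset.card_le_card_of_injOn
      (fun i => i + r * j i) (fun i hi => ?_) fun i hi i' hi' he => ?_)
    · have hi' := Finset.mem_range.1 hi
      refine Finset.mem_coe.2 (Finset.mem_filter.2 ⟨Finset.mem_range.2 ?_, (hj i hi').2⟩)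
      calc i + r * j i < r * (j i + 1) := by rw [mul_add_one]; omega
        _ ≤ r * q := Nat.mul_le_mul_left r (hj i hi').1
    · have := congrArg (· % r) he
      simpa [Nat.mod_eq_of_lt (Finset.mem_range.1 hi), Nat.mod_eq_of_lt (Finset.mem_range.1 hi')]
        using this
  · rw [mul_zero] at e0
    rw [e0, e1, ← a.Xf_per hq]
    simp

/-- The dimension of the tropical hull. -/
theorem clq_card (hq : 0 < q) {m : ℕ} {σ : Finset (G → ℤ)}
    (h : Clq (AdjT (bl.B m)) (a.Kv q W m) σ) : σ.card ≤ n :=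
  by
  rcases Nat.eq_zero_or_pos σ.card with h0 | h0
  · omega
  have h1 : (1 : G) ∈ bl.B m := bl.mono (Nat.zero_le m) bl.one
  have hK := fun x hx => (a.mem_Kv (η := x) hq).1 (h.1 hx)
  have hN := fun x hx y hy hne => AdjT.norm h1 (hK x hx).2.1 (hK y hy).2.1 (h.2 x hx y hy hne)
  have ext : ∀ x ∈ σ, ∀ y ∈ σ, (∀ s ∈ bl.B m, x s = y s) → x = y := fun x hx y hy he =>
    funext fun s => by
      by_cases hs : s ∈ bl.B m
      · exact he s hs
      · rw [(hK x hx).2.2 s hs, (hK y hy).2.2 s hs]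
  obtain ⟨x, hx, hi, hm⟩ : ∃ x : Fin σ.card → G → ℤ, (∀ i, x i ∈ σ) ∧ Function.Injective x ∧
      Monotone fun i => ∑ s ∈ bl.B m, x i s :=
    ⟨fun i => σ.equivFin.symm (Tuple.sort (fun i => ∑ s ∈ bl.B m, (σ.equivFin.symm i).1 s) i),
      fun i => Subtype.prop _, Subtype.val_injective.comp
        (σ.equivFin.symm.injective.comp (Equiv.injective _)),
      Tuple.monotone_sort (fun i => ∑ s ∈ bl.B m, (σ.equivFin.symm i).1 s)⟩
  refine LFine_chain a (W := W) hq (F := bl.B m) (fun i => if hi : i < σ.card then x ⟨i, hi⟩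
    else fun s => x ⟨0, h0⟩ s + 1) h0 (fun s => by simp [h0]) fun i hi' => ?_
  simp only [dif_pos hi']
  refine ⟨(hK _ (hx _)).1, ?_⟩
  split_ifs with h2
  · have hne : x ⟨i, hi'⟩ ≠ x ⟨i + 1, h2⟩ := fun e => by simpa using hi e
    rcases hN _ (hx _) _ (hx _) hne with h3 | h3
    · refine ⟨fun s hs => (h3 s hs).1, by_contra fun hc => hne (ext _ (hx _) _ (hx _) fun s hs =>
        (h3 s hs).1.antisymm (le_of_not_gt fun h4 => hc ⟨s, hs, h4⟩))⟩
    · refine absurd (ext _ (hx _) _ (hx _) ?_).symm hne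
      exact (Finset.sum_eq_sum_iff_of_le fun s hs => (h3 s hs).1).1
        ((Finset.sum_le_sum fun s hs => (h3 s hs).1).antisymm (hm (Nat.le_succ i)))
  · refine ⟨fun s hs => ?_, 1, h1, by simp [(hK _ (hx _)).2.1]⟩
    by_cases hne : x ⟨i, hi'⟩ = x ⟨0, h0⟩
    · simp [hne]
    · rcases hN _ (hx _) _ (hx _) hne with h3 | h3
      · linarith [(h3 s hs).1]
      · exact (h3 s hs).2

end Ac

end Pool.Agent.MP_f7db47_al.GN
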