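import Pool.Agent.MP_f7db47_al.GN.LBasic

/-!
Approximate subspaces.
-/

namespace Pool.Agent.MP_f7db47_al.GN.Pl

variable {P : Pl} {n : ℕ}

theorem LGap_sc_sc (e : ℤ) (Y : P.L n) : sc e (sc (-e) Y) = Y := by
  rw [← sc_add, add_neg_cancel, sc_zero]

theorem LGap_sc_sc' (e : ℤ) (Y : P.L n) : sc (-e) (sc e Y) = Y := by
  rw [← sc_add, neg_add_cancel, sc_zero]

theorem LGap_sc_one (Y : P.L n) : sc 1 Y ≤ Y := by
  have h := sc_anti (P := P) (n := n) (e := 0) (e' := 1) (by norm_num) Y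
  rwa [sc_zero] at h

theorem LGap_pi_mem {Y : P.L n} {v : P.V n} (hv : v ∈ Y) : P.π • v ∈ sc 1 Y := by
  rw [mem_sc]
  have e : ((P.ϖ ^ (-(1 : ℤ)) : P.Kˣ) : P.K) • (P.π • v) = v := by
    rw [← IsScalarTower.algebraMap_smul P.K P.π v, smul_smul]
    have h1 : algebraMap P.O P.K P.π = (P.ϖ : P.K) := rfl
    rw [h1, ← Units.val_mul, zpow_neg, zpow_one, inv_mul_cancel, Units.val_one, one_smul]
  rw [e]
  exact hv

theorem LGap_dich (c : P.K) :
    (∃ a : P.O, algebraMap P.O P.K a = c) ∨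
      (c ≠ 0 ∧ ∃ b : P.O, algebraMap P.O P.K (P.π * b) = c⁻¹) := by
  by_cases h : ∃ a : P.O, algebraMap P.O P.K a = c
  · exact Or.inl h
  right
  have hc : c ≠ 0 := fun e => h ⟨0, by rw [map_zero, e]⟩
  refine ⟨hc, ?_⟩
  rcases ValuationRing.isInteger_or_isInteger P.O c with h1 | ⟨b, hb⟩
  · exact absurd h1 h
  have hu : ¬ IsUnit b := by
    rintro ⟨u, rfl⟩
    refine h ⟨((u⁻¹ : P.Oˣ) : P.O), ?_⟩
    have e : algebraMap P.O P.K ((u⁻¹ : P.Oˣ) : P.O) * c⁻¹ = 1 := by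
      rw [← hb, ← map_mul, Units.inv_mul, map_one]
    field_simp at e
    exact e
  have hm : b ∈ IsLocalRing.maximalIdeal P.O := hu
  rw [P.hπ.maximalIdeal_eq, Ideal.mem_span_singleton] at hm
  obtain ⟨d, rfl⟩ := hm
  exact ⟨d, hb⟩

/-- A maximal subspace whose lattice is inside `Y` sees the whole reduction of `Y`. -/
theorem LGap_max (W : P.S n) (Y : P.L n) :
    ∃ W' ≤ W, La W' ≤ Y ∧ Y ⊓ La W ≤ La W' ⊔ sc 1 (La W) := by
  have hbot : La (⊥ : P.S n) ≤ Y := by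
    refine (La_le _).trans ?_
    rw [rs_bot]
    exact bot_le
  obtain ⟨W', hW', hmax⟩ := set_has_maximal_iff_noetherian.2
    (inferInstance : IsNoetherian P.K (P.V n)) {U : P.S n | U ≤ W ∧ La U ≤ Y} ⟨⊥, bot_le, hbot⟩
  refine ⟨W', hW'.1, hW'.2, fun x hx => ?_⟩
  by_contra hn
  have hxW : x ∈ W := hx.2.2
  have hxL : x ∈ P.L0 n := hx.2.1
  have hxW' : x ∉ W' := fun h => hn (Submodule.mem_sup_left ⟨hxL, h⟩)
  have hle : W' ⊔ P.K ∙ x ≤ W := sup_le hW'.1 ((Submodule.span_singleton_le_iff_mem _ _).2 hxW)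
  refine hmax (W' ⊔ P.K ∙ x) ⟨hle, fun y hy => ?_⟩ ?_
  · have hyL : y ∈ P.L0 n := hy.1
    have hy2 : y ∈ W' ⊔ P.K ∙ x := hy.2
    obtain ⟨w, hw, v, hv, hwv⟩ := Submodule.mem_sup.1 hy2
    obtain ⟨c, rfl⟩ := Submodule.mem_span_singleton.1 hv
    rcases LGap_dich c with ⟨a, rfl⟩ | ⟨hc, b, hb⟩
    · rw [IsScalarTower.algebraMap_smul] at hwv
      have hwL : w ∈ P.L0 n := by
        have e : w = y - a • x := by rw [← hwv]; abel
        rw [e]
        exact (P.L0 n).sub_mem hyL ((P.L0 n).smul_mem a hxL)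
      rw [← hwv]
      exact Y.add_mem (hW'.2 ⟨hwL, hw⟩) (Y.smul_mem a hx.1)
    · exfalso
      apply hn
      have hyW : y ∈ La W := La_mono hle hy
      have h1 : c⁻¹ • y ∈ sc 1 (La W) := by
        rw [← hb, IsScalarTower.algebraMap_smul, mul_smul]
        exact LGap_pi_mem ((La W).smul_mem b hyW)
      have e : x = -(c⁻¹ • w) + c⁻¹ • y := by
        rw [← hwv, smul_add, smul_smul, inv_mul_cancel₀ hc, one_smul]
        abel
      have h2 : -(c⁻¹ • w) ∈ La W' := by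
        refine ⟨?_, W'.neg_mem (W'.smul_mem _ hw)⟩
        have e2 : -(c⁻¹ • w) = x - c⁻¹ • y := eq_sub_of_add_eq e.symm
        rw [e2]
        exact (P.L0 n).sub_mem hxL (LGap_sc_one _ h1).1
      rw [e]
      exact Submodule.add_mem_sup h2 h1
  · refine lt_of_le_of_ne le_sup_left fun e => hxW' ?_
    rw [e]
    exact Submodule.mem_sup_right (Submodule.mem_span_singleton_self x)

/-- If the reductions agree, there is a gap. -/
theorem gap_of_red {W : P.S n} {z z' : P.L n} {Tm Tp : ℤ} (hz : z ≤ z')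
    (h : (sc Tm z' ⊓ La W) ⊔ sc 1 (La W) ≤ (sc Tp z ⊓ La W) ⊔ sc 1 (La W)) :
    ∃ W', Gap W z z' Tm Tp W' := by
  obtain ⟨W', hW, h1, h2⟩ := LGap_max W (sc Tp z)
  have h3 : sc (-Tp) (La W') ≤ z := by
    have := (sc (-Tp)).monotone h1
    rwa [LGap_sc_sc'] at this
  have h4 : sc Tm z' ⊓ La W ≤ La W' ⊔ sc 1 (La W) :=
    (le_sup_left.trans h).trans (sup_le h2 le_sup_right)
  refine ⟨W', hW, h3, ?_⟩
  rcases le_total Tp Tm with hT | hT
  · exact (inf_le_right.trans (sc_anti (by omega) _)).trans le_sup_right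
  have key : ∀ j : ℕ, Tm ≤ Tp - j →
      z' ⊓ sc (-Tp) (La W) ≤ sc (-Tp) (La W') ⊔ sc (-(Tp - j)) (La W) := by
    intro j
    induction j with
    | zero => intro _; simp
    | succ j ih =>
      intro hj
      have ih' := ih (by push_cast at hj; omega)
      have h5 : z' ⊓ sc (-(Tp - j)) (La W) ≤
          sc (-Tp) (La W') ⊔ sc (-(Tp - ((j + 1 : ℕ) : ℤ))) (La W) := by
        have e1 : z' ⊓ sc (-(Tp - j)) (La W) = sc (-(Tp - j)) (sc (Tp - j) z' ⊓ La W) := by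
          rw [map_inf, LGap_sc_sc']
        have h6 : sc (Tp - j) z' ⊓ La W ≤ La W' ⊔ sc 1 (La W) :=
          (inf_le_inf_right _ (sc_anti (by push_cast at hj; omega) _)).trans h4
        rw [e1]
        refine ((sc (-(Tp - j))).monotone h6).trans ?_
        rw [map_sup, ← sc_add]
        refine sup_le_sup (sc_anti (by omega) _) (le_of_eq ?_)
        congr 2
        push_cast
        ring
      have h7 : z' ⊓ sc (-Tp) (La W) ≤ (sc (-Tp) (La W') ⊔ sc (-(Tp - j)) (La W)) ⊓ z' :=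
        le_inf ih' inf_le_left
      rw [sup_inf_assoc_of_le _ (h3.trans hz), inf_comm (sc _ _) z'] at h7
      exact h7.trans (sup_le le_sup_left h5)
  obtain ⟨j, hj⟩ := Int.eq_ofNat_of_zero_le (sub_nonneg.2 hT)
  have h8 := key j (by omega)
  have e : Tp - j = Tm := by omega
  rw [e] at h8
  refine h8.trans (sup_le_sup_right ?_ _)
  have := (sc (-Tp)).monotone (La_le W')
  rwa [sc_rs] at this

/-- The pigeonhole principle for gaps. -/
theorem exists_gap {W : P.S n} (z : ℕ → P.L n) (T : ℕ → ℤ) (hz : Monotone z) (hT : Antitone T)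
    (hT1 : 1 ≤ T n) (h0 : La W ≤ z 0) (h1 : ¬ La W ≤ sc 1 (z n)) :
    ∃ i < n, ∃ W', Gap W (z i) (z (i + 1)) (T (i + 1)) (T i) W' := by
  classical
  by_contra hn
  let g : ℕ → P.L n := fun i => (sc (T i) (z i) ⊓ La W) ⊔ sc 1 (La W)
  have hg : Monotone g := fun i j hij =>
    sup_le_sup_right (inf_le_inf_right _ (sc_le_sc (hT hij) (hz hij))) _
  have hgle : ∀ i, g i ≤ La W := fun i => sup_le inf_le_right (LGap_sc_one _)
  let f : ℕ → P.L n := fun i => if i ≤ n then g i else La W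
  have hf : Monotone f := by
    intro i j hij
    by_cases c1 : j ≤ n
    · simp only [f, if_pos c1, if_pos (hij.trans c1)]
      exact hg hij
    · simp only [f, if_neg c1]
      split_ifs
      · exact hgle i
      · exact le_rfl
  have hc := chain_le (La W) f (n + 1) hf
    (by simp only [f, if_pos (Nat.zero_le n)]; exact le_sup_right)
    (by simp only [f, if_neg (Nat.not_succ_le_self n)]; exact le_rfl)
  rw [Finset.filter_true_of_mem, Finset.card_range] at hc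
  · omega
  intro i hi he
  rw [Finset.mem_range] at hi
  by_cases c : i < n
  · simp only [f, if_pos c.le, if_pos (Nat.succ_le_of_lt c)] at he
    exact hn ⟨i, c, gap_of_red (hz (Nat.le_succ i)) he.le⟩
  · have e : i = n := by omega
    subst e
    simp only [f, if_pos le_rfl, if_neg (Nat.not_succ_le_self i)] at he
    obtain ⟨W', -, h2, h3⟩ := LGap_max W (sc (T i) (z i))
    have h4 : La W ≤ rs W' ⊔ sc 1 (La W) :=
      he.le.trans (sup_le (h3.trans (sup_le_sup_right (La_le _) _)) le_sup_right)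
    exact h1 (((La_mono (le_of_La_le h4)).trans h2).trans (sc_anti hT1 _))

theorem Gap.mono {W W' : P.S n} {z z' y y' : P.L n} {Tm Tp Sm Sp : ℤ} (h : Gap W z z' Tm Tp W')
    (h1 : z ≤ y) (h2 : y' ≤ z') (h3 : Tm ≤ Sm) (h4 : Sp ≤ Tp) : Gap W y y' Sm Sp W' :=
  ⟨h.1, ((sc_anti (by omega) _).trans h.2.1).trans h1,
    ((inf_le_inf h2 (sc_anti (by omega) _)).trans h.2.2).trans
      (sup_le_sup_left (sc_anti (by omega) _) _)⟩

theorem Gap.lt {W W' : P.S n} {z z' : P.L n} {Tm Tp : ℤ} (h : Gap W z z' Tm Tp W') (hT : 1 ≤ Tp)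
    (h1 : ¬ La W ≤ sc 1 z) : W' < W := by
  refine lt_of_le_of_ne h.1 fun e => h1 ?_
  have h2 := (sc Tp).monotone h.2.1
  rw [LGap_sc_sc, e] at h2
  exact h2.trans (sc_anti hT _)

theorem Gap.close {W W₁ W₂ : P.S n} {z z' : P.L n} {Tm Tp : ℤ} (h₁ : Gap W z z' Tm Tp W₁)
    (h₂ : Gap W z z' Tm Tp W₂) (hz : z ≤ z') : La W₁ ≤ rs W₂ ⊔ sc (Tp - Tm) (La W) := by
  have h3 : sc (-Tp) (La W₁) ≤ rs W₂ ⊔ sc (-Tm) (La W) :=
    (le_inf (h₁.2.1.trans hz) ((sc (-Tp)).monotone (La_mono h₁.1))).trans h₂.2.2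
  have h4 := (sc Tp).monotone h3
  rwa [LGap_sc_sc, map_sup, sc_rs, ← sc_add, ← sub_eq_add_neg] at h4

/-- The low part does not depend on the place of the truncation. -/
theorem Gap.trunc {W W' : P.S n} {z z' Y : P.L n} {Tm Tp c y : ℤ} (h : Gap W z z' Tm Tp W')
    (h1 : sc c z ≤ Y) (h2 : Y ≤ sc (c - 1) z') (hy : Tm + 1 ≤ y) (hy' : y ≤ Tp) :
    Y ⊓ sc (c - y) (La W) ≤ rs W' ⊔ (Y ⊓ sc (c - (Tm + 1)) (La W)) := by
  intro x hx
  have h3 := (sc (c - 1)).monotone h.2.2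
  rw [map_inf, map_sup, sc_rs, ← sc_add, ← sc_add] at h3
  have h4 : x ∈ rs W' ⊔ sc (c - 1 + -Tm) (La W) :=
    h3 ⟨h2 hx.1, sc_anti (e := c - 1 + -Tp) (e' := c - y) (by omega) _ hx.2⟩
  obtain ⟨w, hw, l, hl, hwl⟩ := Submodule.mem_sup.1 h4
  have e : c - 1 + -Tm = c - (Tm + 1) := by ring
  rw [e] at hl
  have h5 : w ∈ sc (c - y) (La W) := by
    have e2 : w = x - l := by rw [← hwl]; abel
    rw [e2]
    exact Submodule.sub_mem _ hx.2 (sc_anti (e := c - y) (e' := c - (Tm + 1)) (by omega) _ hl)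
  have h6 : w ∈ sc (c - y) (La W') := by
    rw [← La_inf h.1, map_inf, sc_rs]
    exact ⟨h5, hw⟩
  have h7 : w ∈ Y := by
    have h8 := (sc c).monotone h.2.1
    rw [← sc_add] at h8
    exact h1 (h8 (sc_anti (e := c + -Tp) (e' := c - y) (by omega) _ h6))
  have h9 : l ∈ Y := by
    have e2 : l = x - w := by rw [← hwl]; abel
    rw [e2]
    exact Y.sub_mem hx.1 h7
  rw [← hwl]
  exact Submodule.add_mem_sup hw ⟨h9, hl⟩

end Pool.Agent.MP_f7db47_al.GN.Pl
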