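import Pool.Agent.MP_f7db47_al.GN.LTest

/-!
The soft projections of close vertices are interleaved.
-/

namespace Pool.Agent.MP_f7db47_al.GN.Ac

open Pl

variable {G : Type} [Group G] {bl : Bl G} {C : ℕ} {P : Pl} {n : ℕ} {a : Ac G bl C P n}
  {q m U t : ℕ} {g : G} {W₁ W₂ W₁' W₂' : P.S n} {η₁ η₂ : G → ℤ} {u : P.A n} {δ : ℤ}

theorem LLow_le (hq : 0 < q) (hη : η₁ ∈ a.Kv q W₁ m) {α β k : ℕ} {τ : ℤ} (hτ : 0 ≤ τ)
    (hαβ : α + q * τ ≤ β) (hk : α ≤ k) (i : ℤ) :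
    a.low q W₁ W₁' η₁ τ k (i + k - α) ≤ a.psi q W₁ W₁' η₁ τ α β i := by
  by_cases h : k ≤ β
  · exact le_iSup₂_of_le (f := fun (k : ℕ) (_ : k ∈ Finset.Icc α β) =>
      a.low q W₁ W₁' η₁ τ k (i + k - α)) k (Finset.mem_Icc.2 ⟨hk, h⟩) le_rfl
  have h0 : (0 : ℤ) ≤ q * τ := by positivity
  refine le_trans (sup_le_sup_left (inf_le_right.trans (sc_anti ?_ _)) _)
    (psi_bounds hq hη (by omega) hτ i).1
  have h1 := cd_mono hq (show i + q * τ ≤ i + k - α by omega)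
  rw [cd_add hq] at h1
  omega

theorem LLow_main (hq : 0 < q) (hη : η₁ ∈ a.Kv q W₁ m) {α β Rt : ℕ} {Tm Tp τ E A B i j : ℤ}
    {φ ψ : P.A n} (ht : t ≤ Rt) (hτ : τ = Tm + 1) (hτ0 : 0 ≤ τ)
    (hαβ : (α : ℤ) + 5 * Rt + q * τ ≤ β) (hβ : β ≤ m)
    (hg : Gap W₁ (a.Xf q W₁ (bl.B (α + 2 * Rt)) η₁ 0) (a.Xf q W₁ (bl.B (β - 2 * Rt)) η₁ 0)
      Tm Tp W₁') (hAB : 0 ≤ A + B) (hE : τ + (A + B) ≤ E) (hT : τ + (A + B) ≤ Tp)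
    (hφ : ∀ (x : ℤ) (Y : P.L n), Y ≤ sc x (La W₂) →
      ac φ Y ≤ ac ψ Y ⊔ sc (x + E + -A) (La W₁))
    (hψ : ac ψ (La W₂) ≤ sc (-A) (La W₁)) (him : im φ W₂' = W₁')
    (hX : ∀ k, k + 2 * t ≤ m → ∀ x : ℤ,
      ac ψ (a.Xf q W₂ (bl.B k) η₂ (j + x)) ≤ a.Xf q W₁ (bl.B (k + t)) η₁ (i + t + x))
    (hij : i + t ≤ j + q * B) :
    ac φ (a.psi q W₂ W₂' η₂ τ (α + 2 * Rt) (β - 3 * Rt) j) ≤
      a.psi q W₁ W₁' η₁ τ (α + 2 * Rt) (β - 3 * Rt) i := by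
  have h0 : (0 : ℤ) ≤ q * τ := by positivity
  rw [psi]
  simp only [OrderIso.map_iSup]
  refine iSup₂_le fun k hk => ?_
  obtain ⟨k1, k2⟩ := Finset.mem_Icc.1 hk
  refine le_trans ?_ (LLow_le hq hη hτ0 (k := k + t) (by omega) (by omega) i)
  have h1 := hX k (by omega) (k - (α + 2 * Rt : ℕ))
  rw [← add_sub_assoc, show i + t + (k - (α + 2 * Rt : ℕ)) = i + (k + t : ℕ) - (α + 2 * Rt : ℕ) by
    push_cast; ring] at h1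
  have h2 := cd_mono hq (show i + (k + t : ℕ) - (α + 2 * Rt : ℕ) ≤
    j + k - (α + 2 * Rt : ℕ) + q * B by push_cast; linarith)
  rw [cd_add hq] at h2
  generalize i + (k + t : ℕ) - (α + 2 * Rt : ℕ) = I at h1 h2 ⊢
  generalize j + k - (α + 2 * Rt : ℕ) = J at h1 h2 ⊢
  obtain ⟨c1, c2⟩ := cd_spec hq I
  have h3 : ∀ l, l ≤ k + t →
      sc (cd q I) (a.Xf q W₁ (bl.B l) η₁ 0) ≤ a.Xf q W₁ (bl.B (k + t)) η₁ I := fun l hl => by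
    rw [← a.Xf_per hq]
    exact a.Xf_mono hq _ (fun _ hs => bl.mono hl hs) fun _ _ => by linarith
  have h4 : a.Xf q W₁ (bl.B (k + t)) η₁ I ≤
      sc (cd q I - 1) (a.Xf q W₁ (bl.B (β - 2 * Rt)) η₁ 0) := by
    rw [← a.Xf_per hq]
    exact a.Xf_mono hq _ (fun _ hs => bl.mono (by omega) hs) fun _ _ => by linarith
  rw [low, low, map_sup, ac_rs, him]
  refine sup_le le_sup_left ((hφ _ _ inf_le_right).trans (sup_le ?_ (le_sup_of_le_right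
    (le_inf ((sc_le_sc (by omega) (a.La_le_Xf hη)).trans (h3 _ le_rfl))
      (sc_anti (by omega) _)))))
  have h5 := hg.trunc (h3 _ (by omega)) h4 (y := τ + (A + B)) (by omega) hT
  rw [← hτ] at h5
  refine le_trans ?_ h5
  rw [map_inf, ac_sc]
  refine inf_le_inf h1 (((sc _).monotone hψ).trans ?_)
  rw [← sc_add]
  exact sc_anti (by omega) _

theorem Pair.psi_tr (h : a.Pair q m U t g W₁ W₂ η₁ η₂ u δ) {α β Rt : ℕ} {Tm Tp τ E : ℤ}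
    {v : P.A n} (ht : t ≤ Rt) (hτ : τ = Tm + (2 * C + 2) * (2 * Rt) + 1) (hτ0 : 0 ≤ τ)
    (hαβ : (α : ℤ) + 5 * Rt + q * τ ≤ β) (hβ : β ≤ m)
    (g1 : a.GP q W₁ η₁ α β Tm Tp (2 * Rt) W₁') (g2 : a.GP q W₂ η₂ α β Tm Tp (2 * Rt) W₂')
    (hv : im (v * u) W₂' = W₁')
    (hv2 : ∀ (x : ℤ) (Y : P.L n), Y ≤ sc x (La W₁) →
      ac v Y ≤ Y ⊔ sc (x + E) (La W₁) ∧ ac v⁻¹ Y ≤ Y ⊔ sc (x + E) (La W₁))
    (hE : τ + (2 * C + 2) * Rt ≤ E) (hT : τ + 3 * (2 * C + 2) * Rt ≤ Tp) (i : ℤ) :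
    ac (v * u) (a.psi q W₂ W₂' η₂ τ (α + 2 * Rt) (β - 3 * Rt) (i - δ + 2 * t)) ≤
        a.psi q W₁ W₁' η₁ τ (α + 2 * Rt) (β - 3 * Rt) i ∧
      a.psi q W₁ W₁' η₁ τ (α + 2 * Rt) (β - 3 * Rt) i ≤
        ac (v * u) (a.psi q W₂ W₂' η₂ τ (α + 2 * Rt) (β - 3 * Rt) (i - δ - 2 * t)) := by
  obtain ⟨d1, d2⟩ := _root_.abs_le.1 h.abs_le
  have h1 : ac u (La W₂) ≤ sc (-((C * t : ℕ) : ℤ)) (La W₁) := h.La2 ▸ a.gen_le_sc _ h.gt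
  have h2 : ac u⁻¹ (La W₁) ≤ sc (-((C * t : ℕ) : ℤ)) (La W₂) :=
    h.La1 ▸ a.gen_le_sc _ (bl.inv h.gt)
  have h3 : ((C * t : ℕ) : ℤ) + (((C + 1) * t : ℕ) : ℤ) ≤ (2 * C + 2) * Rt := by
    have : (t : ℤ) ≤ Rt := by exact_mod_cast ht
    push_cast
    nlinarith
  have h0 : (0 : ℤ) ≤ t := by positivity
  have h4 : τ = Tm + (2 * C + 2) * (2 * Rt : ℕ) + 1 := by rw [hτ]; push_cast; ring
  have h5 : τ + (((C * t : ℕ) : ℤ) + (((C + 1) * t : ℕ) : ℤ)) ≤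
      Tp - (2 * C + 2) * (2 * Rt : ℕ) := by push_cast at h3 ⊢; linarith
  refine ⟨LLow_main (E := E) h.q0 h.k1 ht h4 hτ0 hαβ hβ g1 (by positivity) (by linarith) h5
    (fun x Y hY => ?_) h1 hv (fun k hk x => h.X_le1 hk (by linarith)) (by linarith), ?_⟩
  · have h6 := ((ac u).monotone hY).trans_eq (ac_sc _ _ _)
    have h7 := (h6.trans ((sc x).monotone h1)).trans_eq (sc_add _ _ _).symm
    rw [ac_mul, add_right_comm]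
    exact (hv2 _ _ h7).1
  rw [← (ac (v * u)⁻¹).le_iff_le, ac_inv_ac]
  refine LLow_main (E := E) h.q0 h.k2 ht h4 hτ0 hαβ hβ g2 (by positivity) (by linarith) h5
    (fun x Y hY => ?_) h2 (by rw [← hv, ← im_mul, inv_mul_cancel, im_one]) (fun k hk x => ?_)
    (by linarith)
  · rw [mul_inv_rev, ac_mul]
    refine ((ac u⁻¹).monotone (hv2 x Y hY).2).trans ?_
    rw [map_sup, ac_sc, sc_add (x + E)]
    exact sup_le_sup_left ((sc _).monotone h2) _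
  · rw [← (ac u).le_iff_le, ac_ac_inv]
    exact h.X_le2 hk (by linarith)

end Pool.Agent.MP_f7db47_al.GN.Ac
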