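import Pool.Agent.MP_f7db47_al.GN.LStage

/-!
The new lattices of close vertices agree up to a shift.
-/

namespace Pool.Agent.MP_f7db47_al.GN.Ac

open Pl

variable {G : Type} [Group G] {bl : Bl G} {C : ℕ} {P : Pl} {n : ℕ} {a : Ac G bl C P n}
  {p : Par} {U' t τ κ : ℕ} {g : G} {W₁ W₂ : P.S n} {η₁ η₂ : G → ℤ} {u : P.A n} {δ : ℤ}

theorem LPair_mod {R A A' M Y : P.L n} (h : R ⊔ A = R ⊔ A') (hA : A ≤ M) (hA' : A' ≤ M)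
    (hY : R ⊓ M ≤ Y) : Y ⊔ A = Y ⊔ A' := by
  have key : ∀ {B B' : P.L n}, R ⊔ B = R ⊔ B' → B ≤ M → B' ≤ M → Y ⊔ B' ≤ Y ⊔ B := by
    intro B B' e hB hB'
    refine sup_le le_sup_left ?_
    have h1 : B' ≤ (B ⊔ R) ⊓ M := le_inf (by rw [sup_comm, e]; exact le_sup_right) hB'
    rw [sup_inf_assoc_of_le _ hB, sup_comm] at h1
    exact h1.trans (sup_le_sup_right hY _)
  exact le_antisymm (key h.symm hA' hA) (key h hA hA')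

theorem Pair.stage (hp : p.OK n C U') (hτ : τ < n) (hκ : κ ≤ n)
    (h : a.Pair p.q p.m p.U t g W₁ W₂ η₁ η₂ u δ) (ht : t ≤ p.Rt)
    (g1 : a.gp p W₁ η₁ τ p.Rt (a.wit p W₁ η₁ τ)) (g2 : a.gp p W₂ η₂ τ p.Rt (a.wit p W₂ η₂ τ)) :
    Module.finrank P.K (a.wit p W₁ η₁ τ) = Module.finrank P.K (a.wit p W₂ η₂ τ) ∧
      a.dS p W₂ η₂ τ κ ≤ a.dS p W₁ η₁ τ κ + t ∧
      (t < a.dS p W₁ η₁ τ κ → ∃ d : ℤ, |d| ≤ ((n * (C + 6) * (t + 1) : ℕ) : ℤ) ∧ ∃ u' : P.A n,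
        a.Tr U' g (a.wit p W₁ η₁ τ) (a.wit p W₂ η₂ τ) u' ∧ ∀ c : ℤ, |c| ≤ p.X → |c + d| ≤ p.X →
          ∀ Y : P.L n,
            sc (-((p.X + p.tau C τ : ℕ) : ℤ) - ((C * p.Rt : ℕ) : ℤ)) (La (a.wit p W₁ η₁ τ)) ≤ Y →
            Y ≤ sc (-((p.X + p.tau C τ : ℕ) : ℤ) - ((C * p.Rt : ℕ) : ℤ) - U')
              (La (a.wit p W₁ η₁ τ)) →
            ac u⁻¹ (Y ⊔ a.Nn p W₁ η₁ τ κ c) = ac u'⁻¹ Y ⊔ a.Nn p W₂ η₂ τ κ (c + d)) := by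
  obtain ⟨v, hT, h1, h2, hv⟩ := h.transport hp hτ ht g1 g2
  have P1 := Psi_per hp hτ h.k1 g1
  have P2 := Psi_per hp hτ h.k2 g2
  have hθ : ∀ x, x ≤ p.Rt → 4 * x ≤ p.th κ := fun x hx =>
    (Nat.mul_le_mul_left 4 hx).trans (Nat.le_mul_of_pos_right _ (Nat.succ_pos _))
  refine ⟨by rw [← hT.1, finrank_im], dep_lip fun x hx hx' =>
    (SelD.tr P1.anti P2.anti (ac (v * u)) h1 h2 hx.le (hθ x hx')).2, fun hd => ?_⟩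
  have hs : SelD (a.Psi p W₁ η₁ τ) (p.th κ) t :=
    (dep_spec (Nat.zero_lt_of_lt hd)).mono P1.anti hd.le (hθ _ (dep_le _ _))
  obtain ⟨d, hd1, hd2⟩ := IsEnum.shift P1 P2 (ac (v * u)) h1 h2 hs (hθ t ht)
    ((Nat.mul_le_mul_left 2 ht).trans hp.q2) h.abs_le (en_spec hp hτ hκ h.k1 g1)
    (en_spec hp hτ hκ h.k2 g2)
  refine ⟨d, hd1.trans ?_, v * u, hT, fun c hc hc' Y hY1 hY2 => ?_⟩
  · have : n * ((C + 1) * t + 5) ≤ n * (C + 6) * (t + 1) := by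
      rw [mul_assoc]
      exact Nat.mul_le_mul_left n (by nlinarith)
    exact_mod_cast this
  obtain ⟨a1, a2, a3⟩ := Nn_spec hp hτ hκ h.k1 g1 hc
  obtain ⟨-, b2, b3⟩ := Nn_spec hp hτ hκ h.k2 g2 hc'
  have hw : a.wit p W₁ η₁ τ ≤ W₁ := (wit_lt hp hτ h.k1 g1).le
  have hCt : C * t ≤ C * p.Rt := Nat.mul_le_mul_left C ht
  have hE : (4 * C + 2) * p.Rt = 4 * (C * p.Rt) + 2 * p.Rt := by ring
  have e1 : ac v (Y ⊔ a.Nn p W₁ η₁ τ κ c) = Y ⊔ a.Nn p W₁ η₁ τ κ c :=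
    hv _ _ (((sc_anti (by omega) _).trans a1).trans le_sup_right)
      (sup_le (hY2.trans (sc_le_sc le_rfl (La_mono hw))) (a2.trans (sc_anti (by omega) _)))
  have e2 : ac (v * u) (La W₂) = a.gen W₁ g := by
    rw [ac_mul, h.La2]
    exact hv _ _ ((sc_anti (by omega) _).trans (a.le_gen W₁ h.gt)) (a.gen_le_sc W₁ h.gt)
  refine (ac (v * u)).injective ?_
  rw [map_sup (ac (v * u)), ac_ac_inv, ac_mul v u (ac u⁻¹ _), ac_ac_inv, e1]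
  refine LPair_mod (R := rs (a.wit p W₁ η₁ τ))
    (M := sc (-((p.X + p.tau C τ : ℕ) : ℤ) - ((C * p.Rt : ℕ) : ℤ)) (La W₁)) ?_
    (a2.trans (sc_anti (by omega) _)) ?_ ?_
  · rw [← a3, ← hd2 c, b3, map_sup, ac_rs, hT.1]
  · refine ((ac (v * u)).monotone b2).trans ?_
    rw [ac_sc, e2]
    refine (sc_le_sc le_rfl (a.gen_le_sc W₁ h.gt)).trans ?_
    rw [← sc_add]
    exact sc_anti (by omega) _
  · refine le_of_eq_of_le ?_ hY1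
    rw [← La_inf hw, map_inf, sc_rs, inf_comm]

end Pool.Agent.MP_f7db47_al.GN.Ac
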