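import Pool.Agent.MP_f7db47_al.GN.LBasic

/-!
Close subspaces differ by an automorphism that is close to the identity.
-/

namespace Pool.Agent.MP_f7db47_al.GN.Pl

variable {P : Pl} {n : ℕ}

/-- The parametrisation of the standard lattice. -/
noncomputable def LTr_j (P : Pl) (n : ℕ) : (Fin n → P.O) →ₗ[P.O] P.V n :=
  LinearMap.pi fun i => (Algebra.linearMap P.O P.K).comp (LinearMap.proj i)

theorem LTr_j_mem (a : Fin n → P.O) : LTr_j P n a ∈ P.L0 n :=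
  fun i _ => Submodule.mem_one.2 ⟨a i, rfl⟩

theorem LTr_j_surj {x : P.V n} (hx : x ∈ P.L0 n) : ∃ a, LTr_j P n a = x := by
  have h : ∀ i, ∃ a : P.O, algebraMap P.O P.K a = x i := fun i =>
    Submodule.mem_one.1 (hx i (Set.mem_univ i))
  choose a ha using h
  exact ⟨a, funext ha⟩

theorem LTr_j_single (i : Fin n) : LTr_j P n (Pi.single i 1) = Pi.single i 1 := by
  funext k
  change algebraMap P.O P.K ((Pi.single i 1 : Fin n → P.O) k) = _
  by_cases h : k = i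
  · subst h; simp
  · simp [Pi.single_eq_of_ne h]

/-- A linear map that sends the standard basis into `Y` sends the standard lattice into `Y`. -/
theorem LTr_map_mem (f : P.V n →ₗ[P.K] P.V n) {Y : P.L n} (h : ∀ i, f (Pi.single i 1) ∈ Y)
    {x : P.V n} (hx : x ∈ P.L0 n) : f x ∈ Y := by
  obtain ⟨a, rfl⟩ := LTr_j_surj hx
  have h1 : (⊤ : Submodule P.O (Fin n → P.O)) ≤
      Y.comap ((f.restrictScalars P.O).comp (LTr_j P n)) := by
    rw [← (Pi.basisFun P.O (Fin n)).span_eq, Submodule.span_le]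
    rintro _ ⟨i, rfl⟩
    change f (LTr_j P n (Pi.basisFun P.O (Fin n) i)) ∈ Y
    rw [Pi.basisFun_apply, LTr_j_single]
    exact h i
  exact h1 Submodule.mem_top

/-- An integral projection onto a subspace. -/
theorem LTr_proj (W : P.S n) : ∃ ρ : P.V n →ₗ[P.K] P.V n,
    (∀ i, ρ (Pi.single i 1) ∈ La W) ∧ ∀ x ∈ La W, ρ x = x := by
  let N : Submodule P.O (Fin n → P.O) := (rs W).comap (LTr_j P n)
  have htf : Module.IsTorsionFree P.O ((Fin n → P.O) ⧸ N) := by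
    refine Module.IsTorsionFree.of_smul_eq_zero fun c x hx => ?_
    obtain ⟨a, rfl⟩ := N.mkQ_surjective x
    by_cases hc : c = 0
    · exact Or.inl hc
    refine Or.inr ?_
    rw [← map_smul, Submodule.mkQ_apply, Submodule.Quotient.mk_eq_zero] at hx
    rw [Submodule.mkQ_apply, Submodule.Quotient.mk_eq_zero]
    have h1 : LTr_j P n (c • a) ∈ W := hx
    rw [map_smul, ← algebraMap_smul P.K] at h1
    exact (W.smul_mem_iff ((map_ne_zero_iff _ (IsFractionRing.injective P.O P.K)).2 hc)).1 h1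
  obtain ⟨s, hs⟩ := Module.projective_lifting_property N.mkQ LinearMap.id N.mkQ_surjective
  let r : (Fin n → P.O) →ₗ[P.O] (Fin n → P.O) := LinearMap.id - s.comp N.mkQ
  have hr1 : ∀ a, r a ∈ N := by
    intro a
    rw [← Submodule.Quotient.mk_eq_zero, ← Submodule.mkQ_apply]
    have h1 : N.mkQ (s (N.mkQ a)) = N.mkQ a := LinearMap.congr_fun hs (N.mkQ a)
    change N.mkQ (a - s (N.mkQ a)) = 0
    rw [map_sub, h1, sub_self]
  have hr2 : ∀ a ∈ N, r a = a := by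
    intro a ha
    have h1 : N.mkQ a = 0 := (Submodule.Quotient.mk_eq_zero N).2 ha
    change a - s (N.mkQ a) = a
    rw [h1, map_zero, sub_zero]
  let ρ : P.V n →ₗ[P.K] P.V n :=
    (Pi.basisFun P.K (Fin n)).constr P.K fun i => LTr_j P n (r (Pi.single i 1))
  have hρ : ∀ i, ρ (Pi.single i 1) = LTr_j P n (r (Pi.single i 1)) := fun i => by
    rw [← Pi.basisFun_apply]
    exact Module.Basis.constr_basis _ _ _ _
  have h2 : (ρ.restrictScalars P.O).comp (LTr_j P n) = (LTr_j P n).comp r := by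
    refine (Pi.basisFun P.O (Fin n)).ext fun i => ?_
    change ρ (LTr_j P n (Pi.basisFun P.O (Fin n) i)) = LTr_j P n (r (Pi.basisFun P.O (Fin n) i))
    rw [Pi.basisFun_apply, LTr_j_single, hρ]
  refine ⟨ρ, fun i => ?_, fun x hx => ?_⟩
  · rw [hρ]
    exact ⟨LTr_j_mem _, hr1 _⟩
  · obtain ⟨a, rfl⟩ := LTr_j_surj hx.1
    have h3 : ρ (LTr_j P n a) = LTr_j P n (r a) := LinearMap.congr_fun h2 a
    rw [h3, hr2 a hx.2]

theorem LTr_nu {W₁ W₂ : P.S n} {Z : P.L n} (h : La W₂ ≤ rs W₁ ⊔ Z) :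
    ∃ ν : P.V n →ₗ[P.K] P.V n, (∀ x ∈ P.L0 n, ν x ∈ Z) ∧ ∀ x ∈ La W₂, x + ν x ∈ W₁ := by
  obtain ⟨ρ, h1, h2⟩ := LTr_proj W₂
  have h3 : ∀ i, ∃ w ∈ rs W₁, ∃ l ∈ Z, w + l = ρ (Pi.single i 1) := fun i =>
    Submodule.mem_sup.1 (h (h1 i))
  choose w hw l hl e using h3
  let ν : P.V n →ₗ[P.K] P.V n := (Pi.basisFun P.K (Fin n)).constr P.K fun i => -l i
  have hν : ∀ i, ν (Pi.single i 1) = -l i := fun i => by
    rw [← Pi.basisFun_apply]
    exact Module.Basis.constr_basis _ _ _ _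
  refine ⟨ν, fun x hx => LTr_map_mem ν (fun i => ?_) hx, fun x hx => ?_⟩
  · rw [hν]
    exact Z.neg_mem (hl i)
  · have h4 : (ρ + ν) x ∈ rs W₁ := by
      refine LTr_map_mem (ρ + ν) (fun i => ?_) hx.1
      rw [LinearMap.add_apply, hν, ← e i, add_neg_cancel_right]
      exact hw i
    rwa [LinearMap.add_apply, h2 x hx] at h4

theorem LTr_sc {ν : P.V n →ₗ[P.K] P.V n} {Z : P.L n} {E : ℤ} (h : ∀ x ∈ P.L0 n, ν x ∈ sc E Z)
    {e : ℤ} {x : P.V n} (hx : x ∈ sc e (P.L0 n)) : ν x ∈ sc (e + E) Z := by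
  rw [sc_add, mem_sc, ← map_smul]
  exact h _ (mem_sc.1 hx)

theorem LTr_half {W W₁ W₂ : P.S n} {E : ℤ} (hE : 1 ≤ E) (h21 : La W₂ ≤ rs W₁ ⊔ sc E (La W)) :
    ∃ v : P.A n, im v W₂ ≤ W₁ ∧ ∀ (x : ℤ) (Y : P.L n), Y ≤ sc x (La W) →
      ac v Y ≤ Y ⊔ sc (x + E) (La W) ∧ ac v⁻¹ Y ≤ Y ⊔ sc (x + E) (La W) := by
  obtain ⟨ν, h1, h2⟩ := LTr_nu h21
  have hL : La W ≤ P.L0 n := inf_le_left
  let f : P.V n →ₗ[P.K] P.V n := LinearMap.id + ν
  have hf : ∀ x, f x = x + ν x := fun x => rfl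
  have hinj : Function.Injective f := by
    rw [← LinearMap.ker_eq_bot]
    by_contra hne
    refine not_La_le hne fun x hx => ?_
    have h3 : x + ν x = 0 := hx.2
    have h4 : x ∈ sc 1 (P.L0 n) := by
      rw [eq_neg_of_add_eq_zero_left h3]
      exact Submodule.neg_mem _ (sc_le_sc hE hL (h1 x hx.1))
    rw [La, map_inf, sc_rs]
    exact ⟨h4, hx.2⟩
  let v : P.A n := LinearEquiv.ofInjectiveEndo f hinj
  have hv : ∀ x, v x = x + ν x := fun x => rfl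
  have hinv : ∀ z, v z ∈ P.L0 n → z ∈ P.L0 n := by
    intro z hz
    obtain ⟨C', hC'⟩ := exists_lip v
    have h3 : ac v⁻¹ (P.L0 n) ≤ sc (-(C' : ℤ)) (P.L0 n) := by
      have h4 := (sc (-(C' : ℤ))).monotone ((ac v⁻¹).monotone hC')
      rwa [ac_inv_ac, ac_sc, ← sc_add, neg_add_cancel, sc_zero] at h4
    have h4 : z ∈ sc (-(C' : ℤ)) (P.L0 n) := h3 (mem_ac.2 hz)
    have h5 : ∀ a : ℕ, z ∈ sc (-(a : ℤ)) (P.L0 n) → z ∈ P.L0 n := by
      intro a
      induction a with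
      | zero => intro h; rwa [Nat.cast_zero, neg_zero, sc_zero] at h
      | succ a ih =>
        intro h
        refine ih ?_
        have h6 : ν z ∈ sc (-(a : ℤ)) (P.L0 n) :=
          sc_le_sc (by push_cast; omega) hL (LTr_sc h1 h)
        have h7 : v z ∈ sc (-(a : ℤ)) (P.L0 n) := by
          refine sc_anti (e' := 0) (by omega) _ ?_
          rwa [sc_zero]
        have h8 := Submodule.sub_mem _ h7 h6
        rwa [hv, add_sub_cancel_right] at h8
    exact h5 C' h4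
  refine ⟨v, ?_, fun x Y hY => ⟨fun y hy => ?_, fun y hy => ?_⟩⟩
  · rw [im, Submodule.map_le_iff_le_comap]
    exact le_of_La_le (le_sup_of_le_left fun x hx => h2 x hx)
  · have h3 := mem_ac.1 hy
    have h4 : y = v.symm y + ν (v.symm y) := by rw [← hv, LinearEquiv.apply_symm_apply]
    rw [h4]
    exact Submodule.add_mem_sup h3 (LTr_sc h1 (sc_le_sc le_rfl hL (hY h3)))
  · have h3 : v y ∈ Y := mem_ac.1 hy
    have h4 : y ∈ sc x (P.L0 n) := by
      rw [mem_sc]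
      refine hinv _ ?_
      rw [map_smul]
      exact mem_sc.1 (sc_le_sc le_rfl hL (hY h3))
    have h5 : y = v y + -ν y := by rw [hv, add_neg_cancel_right]
    rw [h5]
    exact Submodule.add_mem_sup h3 (Submodule.neg_mem _ (LTr_sc h1 h4))

theorem exists_transport {W W₁ W₂ : P.S n} {E : ℤ} (hE : 1 ≤ E) (h₁ : W₁ ≤ W) (h₂ : W₂ ≤ W)
    (h12 : La W₁ ≤ rs W₂ ⊔ sc E (La W)) (h21 : La W₂ ≤ rs W₁ ⊔ sc E (La W)) :
    ∃ v : P.A n, im v W₂ = W₁ ∧ ∀ (x : ℤ) (Y : P.L n), Y ≤ sc x (La W) →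
      ac v Y ≤ Y ⊔ sc (x + E) (La W) ∧ ac v⁻¹ Y ≤ Y ⊔ sc (x + E) (La W) := by
  obtain ⟨v, hv, h⟩ := LTr_half hE h21
  obtain ⟨v', hv', -⟩ := LTr_half hE h12
  refine ⟨v, Submodule.eq_of_le_of_finrank_le hv ?_, h⟩
  rw [finrank_im, ← finrank_im v' W₁]
  exact Submodule.finrank_mono hv'

end Pool.Agent.MP_f7db47_al.GN.Pl
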