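import Pool.Agent.MP_f7db47_al.GN.LLow
import Pool.Agent.MP_f7db47_al.GN.LTr
import Pool.Agent.MP_f7db47_al.GN.Stretch

/-!
One stage at one place.
-/

namespace Pool.Agent.MP_f7db47_al.GN.Ac

open Pl

variable {G : Type} [Group G] {bl : Bl G} {C : ℕ} {P : Pl} {n : ℕ} {a : Ac G bl C P n}
  {p : Par} {U' t τ κ : ℕ} {g : G} {W W₁ W₂ : P.S n} {η η₁ η₂ : G → ℤ} {u : P.A n} {δ : ℤ}

theorem LStage_wit (hp : p.OK n C U') {x : ℕ} (hx : x ≤ p.Rt) (h : ∃ W', a.gp p W η τ x W') :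
    a.gp p W η τ p.Rt (a.wit p W η τ) := by
  have h' : ∃ W', a.gp p W η τ p.Rt W' := h.imp fun _ h => GP.mono hp.q0 h hx
  rw [wit, dif_pos h']
  exact h'.choose_spec

theorem LStage_lam (hp : p.OK n C U') (hτ : τ < n) :
    5 * p.Rt ≤ p.lam ∧ (τ + 1) * p.lam = τ * p.lam + p.lam ∧
      τ * p.lam + p.lam + 2 * p.Rt ≤ p.m := by
  have h1 := hp.lam1 0
  have h2 := hp.m1
  have h3 : (τ + 1) * p.lam ≤ n * p.lam := Nat.mul_le_mul_right _ hτ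
  have h4 : (τ + 1) * p.lam = τ * p.lam + p.lam := Nat.succ_mul _ _
  omega

theorem LStage_gen {W W' : P.S n} (h : W' ≤ W) (s : G) : a.gen W s ⊓ rs W' = a.gen W' s := by
  rw [gen, gen, inf_assoc, inf_eq_right.2 (rs_mono h)]

theorem gp_wit (hp : p.OK n C U') (h : 0 < a.dG p W η τ) :
    a.gp p W η τ p.Rt (a.wit p W η τ) :=
  LStage_wit hp (Nat.sub_le _ _) (dep_spec h)

theorem wit_lt (hp : p.OK n C U') (hτ : τ < n) (hη : η ∈ a.Kv p.q W p.m)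
    (hg : a.gp p W η τ p.Rt (a.wit p W η τ)) : a.wit p W η τ < W := by
  obtain ⟨h1, h2, h3⟩ := LStage_lam hp hτ
  refine Gap.lt hg ?_ (a.not_La_le_Xf hp.q0 hη (by omega))
  have h4 : ((2 * p.T (τ + 1) + 6 * (2 * C + 2) * p.Rt + 2 * p.X + 3 + (4 * C + 2) * p.Rt +
      (2 * C + 1) * U' : ℕ) : ℤ) ≤ p.T τ := by exact_mod_cast hp.t2 τ hτ
  push_cast at h4
  have h5 : (0 : ℤ) ≤ C * p.Rt := by positivity
  have h6 : (0 : ℤ) ≤ C * U' := by positivity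
  nlinarith

theorem Psi_per (hp : p.OK n C U') (hτ : τ < n) (hη : η ∈ a.Kv p.q W p.m)
    (hg : a.gp p W η τ p.Rt (a.wit p W η τ)) : Per (sc 1) p.q n (a.Psi p W η τ) := by
  obtain ⟨h1, h2, h3⟩ := LStage_lam hp hτ
  exact psi_per hp.q0 hη (wit_lt hp hτ hη hg) (by omega) (by positivity)

theorem en_spec (hp : p.OK n C U') (hτ : τ < n) (hκ : κ ≤ n) (hη : η ∈ a.Kv p.q W p.m)
    (hg : a.gp p W η τ p.Rt (a.wit p W η τ)) :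
    IsEnum (a.Psi p W η τ) (p.th κ) (a.en p W η τ κ) := by
  have h : ∃ ι, IsEnum (a.Psi p W η τ) (p.th κ) ι :=
    (Psi_per hp hτ hη hg).exists_enum (lt_of_le_of_lt
      (Nat.mul_le_mul_left n (Nat.mul_le_mul_left _ (by omega))) hp.q1)
  rw [en, dif_pos h]
  exact h.choose_spec

theorem stage_cover (hp : p.OK n C U') (hη : η ∈ a.Kv p.q W p.m) :
    ∃ τ < n, ∃ κ ≤ n, a.dG p W η τ = p.Rt ∧ a.dS p W η τ κ = p.Rt ∧ a.wit p W η τ < W := by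
  obtain ⟨τ, hτ, W', hg⟩ := exists_gap (W := W) (fun i => a.Xf p.q W (bl.B (i * p.lam)) η 0)
    (fun i => (p.T i : ℤ))
    (fun i j hij => a.Xf_mono hp.q0 W
      (fun _ hs => bl.mono (Nat.mul_le_mul_right _ hij) hs) fun _ _ => le_rfl)
    (fun i j hij => Int.ofNat_le.2 (hp.anti hij)) (by exact_mod_cast hp.t1) (a.La_le_Xf hη)
    (a.not_La_le_Xf hp.q0 hη (le_trans (Nat.le_add_right _ _) hp.m1))
  have h0 : ∃ W', a.gp p W η τ (p.Rt - p.Rt) W' := ⟨W', by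
    rw [Nat.sub_self, gp, GP]
    simpa using hg⟩
  have h1 := LStage_wit hp (Nat.sub_le _ _) h0
  obtain ⟨κ, hκ⟩ := (Psi_per hp hτ hη h1).cover p.Rt
  exact ⟨τ, hτ, κ, Nat.le_of_lt_succ κ.2, le_antisymm (dep_le _ _) (le_dep h0 le_rfl),
    le_antisymm (dep_le _ _) (le_dep hκ le_rfl), wit_lt hp hτ hη h1⟩

theorem Nn_spec (hp : p.OK n C U') (hτ : τ < n) (hκ : κ ≤ n) (hη : η ∈ a.Kv p.q W p.m)
    (hg : a.gp p W η τ p.Rt (a.wit p W η τ)) {c : ℤ} (hc : |c| ≤ p.X) :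
    sc (p.X + 1) (La W) ≤ a.Nn p W η τ κ c ∧
      a.Nn p W η τ κ c ≤ sc (-((p.X + p.tau C τ : ℕ) : ℤ)) (La W) ∧
      a.Psi p W η τ (a.en p W η τ κ c) = rs (a.wit p W η τ) ⊔ a.Nn p W η τ κ c := by
  obtain ⟨h1, h2, h3⟩ := LStage_lam hp hτ
  obtain ⟨b1, b2⟩ := IsEnum.bound (Psi_per hp hτ hη hg) (en_spec hp hτ hκ hη hg) c
  have hq : (0 : ℤ) ≤ p.q := by positivity
  have c1 := cd_mono hp.q0 (show 0 + (p.q : ℤ) * (-p.X) ≤ a.en p W η τ κ c by nlinarith)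
  have c2 := cd_mono hp.q0 (show a.en p W η τ κ c ≤ 0 + (p.q : ℤ) * (p.X + 1) by nlinarith)
  rw [cd_add hp.q0, cd_zero] at c1 c2
  obtain ⟨e1, e2⟩ := psi_bounds (W' := a.wit p W η τ) hp.q0 hη
    (show τ * p.lam + 2 * p.Rt ≤ (τ + 1) * p.lam - 3 * p.Rt by omega)
    (show (0 : ℤ) ≤ p.tau C τ by positivity) (a.en p W η τ κ c)
  refine ⟨le_inf (((sc_anti (by omega) _).trans le_sup_right).trans e1) (sc_anti (by omega) _),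
    inf_le_right, ?_⟩
  rw [Nn, inf_comm, ← sup_inf_assoc_of_le _ (le_sup_left.trans e1 : _ ≤ a.Psi p W η τ _)]
  exact (inf_eq_right.2 (e2.trans (sup_le_sup_left (sc_anti (by omega) _) _))).symm

theorem Pair.dG_le (hp : p.OK n C U') (hτ : τ < n)
    (h : a.Pair p.q p.m p.U t g W₁ W₂ η₁ η₂ u δ) (ht : t ≤ p.Rt) :
    a.dG p W₂ η₂ τ ≤ a.dG p W₁ η₁ τ + t := by
  obtain ⟨h1, h2, h3⟩ := LStage_lam hp hτ
  refine dep_lip fun x hx hx' ⟨W', hW'⟩ => ⟨im u W', ?_⟩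
  rw [show p.Rt - (x - t) = p.Rt - x + t by omega]
  exact h.gp_tr (by omega) (by omega) (by omega) hW'

theorem Pair.transport (hp : p.OK n C U') (hτ : τ < n)
    (h : a.Pair p.q p.m p.U t g W₁ W₂ η₁ η₂ u δ) (ht : t ≤ p.Rt)
    (g1 : a.gp p W₁ η₁ τ p.Rt (a.wit p W₁ η₁ τ)) (g2 : a.gp p W₂ η₂ τ p.Rt (a.wit p W₂ η₂ τ)) :
    ∃ v : P.A n, a.Tr U' g (a.wit p W₁ η₁ τ) (a.wit p W₂ η₂ τ) (v * u) ∧
      (∀ i, ac (v * u) (a.Psi p W₂ η₂ τ (i - δ + 2 * t)) ≤ a.Psi p W₁ η₁ τ i) ∧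
      (∀ i, a.Psi p W₁ η₁ τ i ≤ ac (v * u) (a.Psi p W₂ η₂ τ (i - δ - 2 * t))) ∧
      ∀ (x : ℤ) (Y : P.L n),
        sc (x + ((p.tau C τ + 2 * p.X + 2 + (4 * C + 2) * p.Rt + U' : ℕ) : ℤ)) (La W₁) ≤ Y →
        Y ≤ sc x (La W₁) → ac v Y = Y := by
  obtain ⟨h1, h2, h3⟩ := LStage_lam hp hτ
  have w1 : a.wit p W₁ η₁ τ ≤ W₁ := g1.1
  have w2 : a.wit p W₂ η₂ τ ≤ W₂ := g2.1
  have k1 := GP.mono hp.q0 g1 (show p.Rt ≤ 2 * p.Rt by omega)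
  have k2 := GP.mono hp.q0 g2 (show p.Rt ≤ 2 * p.Rt by omega)
  have k3 := GP.mono hp.q0 (h.gp_tr (by omega) (by omega) (by omega) g2)
    (show p.Rt + t ≤ 2 * p.Rt by omega)
  have hz : a.Xf p.q W₁ (bl.B (τ * p.lam + 2 * p.Rt)) η₁ 0 ≤
      a.Xf p.q W₁ (bl.B ((τ + 1) * p.lam - 2 * p.Rt)) η₁ 0 :=
    a.Xf_mono hp.q0 W₁ (fun _ hs => bl.mono (by omega) hs) fun _ _ => le_rfl
  have c1 := Gap.close k1 k3 hz
  have c2 := Gap.close k3 k1 hz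
  have h4 : ((2 * p.T (τ + 1) + 6 * (2 * C + 2) * p.Rt + 2 * p.X + 3 + (4 * C + 2) * p.Rt +
      (2 * C + 1) * U' : ℕ) : ℤ) ≤ p.T τ := by exact_mod_cast hp.t2 τ hτ
  have h5 : (0 : ℤ) ≤ C * p.Rt := by positivity
  have h6 : (0 : ℤ) ≤ C * U' := by positivity
  have h7 : (p.tau C τ : ℤ) = p.T (τ + 1) + (2 * C + 2) * (2 * p.Rt) + 1 := by
    rw [Par.tau]
    push_cast
    ring
  have h8 : ((5 * p.Rt + p.q * p.tau C τ : ℕ) : ℤ) ≤ p.lam := by exact_mod_cast hp.lam1 (τ + 1)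
  have h9 : (0 : ℤ) ≤ p.tau C τ := by positivity
  obtain ⟨E, hE, c1, c2⟩ : ∃ E : ℤ,
      (p.tau C τ : ℤ) + 2 * p.X + 2 + (4 * (C * p.Rt) + 2 * p.Rt) + (2 * (C * U') + U') ≤ E ∧
      La (a.wit p W₁ η₁ τ) ≤ rs (im u (a.wit p W₂ η₂ τ)) ⊔ sc E (La W₁) ∧
      La (im u (a.wit p W₂ η₂ τ)) ≤ rs (a.wit p W₁ η₁ τ) ⊔ sc E (La W₁) :=
    ⟨_, by rw [h7]; push_cast at h4 ⊢; linarith, c1, c2⟩
  obtain ⟨v, hv, hv2⟩ := exists_transport (by omega) w1 k3.1 c1 c2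
  rw [← im_mul] at hv
  have fx : ∀ (x y : ℤ) (Y : P.L n), y ≤ x + E → sc y (La W₁) ≤ Y → Y ≤ sc x (La W₁) →
      ac v Y = Y := fun x y Y hy hl hu => by
    obtain ⟨a1, a2⟩ := hv2 x Y hu
    rw [sup_eq_left.2 ((sc_anti hy _).trans hl)] at a1 a2
    exact le_antisymm a1 ((ac_ac_inv v Y).ge.trans ((ac v).monotone a2))
  have key := h.psi_tr (α := τ * p.lam) (β := (τ + 1) * p.lam) ht h7 h9
    (by push_cast at h8 ⊢; linarith) (by omega) k1 k2 hv hv2 (by linarith)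
    (by rw [h7]; push_cast at h4; linarith)
  refine ⟨v, ⟨hv, fun s hs => ?_⟩, fun i => (key i).1, fun i => (key i).2,
    fun x Y => fx x _ Y (by push_cast; linarith)⟩
  rw [← LStage_gen w2, ← LStage_gen w1, map_inf, ac_rs, hv, ac_mul, h.tr.2 s (bl.mono hp.u3 hs),
    fx _ _ _ (by push_cast; linarith) (a.le_gen W₁ hs) (a.gen_le_sc W₁ hs)]

end Pool.Agent.MP_f7db47_al.GN.Ac
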