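import Pool.Agent.MP_f7db47_al.GN.DN
import Pool.Agent.MP_f7db47_al.GN.LFine
import Pool.Agent.MP_f7db47_al.GN.LGap

/-!
Comparison of the filtrations of close vertices.
-/

namespace Pool.Agent.MP_f7db47_al.GN.Ac

open Pl

variable {G : Type} [Group G] {bl : Bl G} {C : ℕ} {P : Pl} {n : ℕ} {a : Ac G bl C P n}
  {q m U t : ℕ} {g : G} {W W' W₁ W₂ : P.S n} {η η₁ η₂ : G → ℤ} {u : P.A n} {δ : ℤ}

theorem LTest_per (hq : 0 < q) {α β : ℕ} {τ : ℤ} (i c : ℤ) :
    a.psi q W W' η τ α β (i + q * c) = sc c (a.psi q W W' η τ α β i) := by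
  simp only [psi, OrderIso.map_iSup]
  refine iSup_congr fun k => iSup_congr fun _ => ?_
  rw [show i + q * c + k - α = i + k - α + q * c by ring, low, low, a.Xf_per hq, cd_add hq,
    map_sup, map_inf, sc_rs, ← sc_add]
  congr 4
  ring

theorem Tr.mono {U' : ℕ} (h : a.Tr U g W₁ W₂ u) (hU : U' ≤ U) : a.Tr U' g W₁ W₂ u :=
  ⟨h.1, fun s hs => h.2 s (bl.mono hU hs)⟩

theorem Pair.La2 (h : a.Pair q m U t g W₁ W₂ η₁ η₂ u δ) : ac u (La W₂) = a.gen W₁ g :=
  by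
  have h1 := h.tr.2 1 (by
    rw [mul_one]
    exact bl.mono (by have := h.t2; have := h.mU; omega) h.gt)
  rwa [gen_one, mul_one] at h1

theorem Pair.La1 (h : a.Pair q m U t g W₁ W₂ η₁ η₂ u δ) : ac u⁻¹ (La W₁) = a.gen W₂ g⁻¹ :=
  by
  have h1 := h.tr.2 g⁻¹ (by
    rw [mul_inv_cancel]
    exact bl.mono (Nat.zero_le _) bl.one)
  rw [mul_inv_cancel, gen_one] at h1
  rw [← h1, ac_inv_ac]

theorem Pair.abs_le (h : a.Pair q m U t g W₁ W₂ η₁ η₂ u δ) :
    |δ| ≤ (q : ℤ) * (((C + 1) * t : ℕ) : ℤ) :=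
  by
  have ht := h.t2
  obtain ⟨-, e1, -⟩ := (a.mem_Kv h.q0).1 h.k1
  obtain ⟨c2, e2, -⟩ := (a.mem_Kv h.q0).1 h.k2
  have h1 := h.hc 1 (bl.mono (Nat.zero_le _) bl.one) (by
    rw [mul_one]
    exact bl.mono (by omega) (bl.inv h.gt))
  have h2 := Clo.bound a h.q0 c2 e2 (k := t) (by omega) (bl.inv h.gt)
  rw [mul_one, e1] at h1
  have h3 : (t : ℤ) ≤ (q : ℤ) * t :=
    le_mul_of_one_le_left (Int.natCast_nonneg t) (by exact_mod_cast h.q0)
  rw [_root_.abs_le] at h1 h2 ⊢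
  push_cast at h2 ⊢
  constructor <;> nlinarith [h1.1, h1.2, h2.1, h2.2]

theorem Pair.X_le1 (h : a.Pair q m U t g W₁ W₂ η₁ η₂ u δ) {m' : ℕ} (hm : m' + 2 * t ≤ m)
    {i i' : ℤ} (hi : i - δ + t ≤ i') :
    ac u (a.Xf q W₂ (bl.B m') η₂ i') ≤ a.Xf q W₁ (bl.B (m' + t)) η₁ i :=
  by
  have hU := h.mU
  rw [Xf, OrderIso.map_iSup]
  refine iSup_le fun s => ?_
  rw [OrderIso.map_iSup]
  refine iSup_le fun hs => ?_
  have h1 : g * s ∈ bl.B (m' + t) := add_comm t m' ▸ bl.mul h.gt hs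
  have h2 := h.hc (g * s) (bl.mono (by omega) h1) (by
    rw [inv_mul_cancel_left]
    exact bl.mono (by omega) hs)
  rw [inv_mul_cancel_left, _root_.abs_le] at h2
  rw [ac_sc, h.tr.2 s (bl.mono (by omega) h1)]
  exact le_iSup₂_of_le
    (f := fun s (_ : s ∈ bl.B (m' + t)) => sc (cd q (i - η₁ s)) (a.gen W₁ s)) (g * s) h1
    (sc_anti (cd_mono h.q0 (by linarith [h2.1])) _)

theorem Pair.X_le2 (h : a.Pair q m U t g W₁ W₂ η₁ η₂ u δ) {m' : ℕ} (hm : m' + 2 * t ≤ m)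
    {i i' : ℤ} (hi : i' ≤ i - δ - t) :
    a.Xf q W₁ (bl.B m') η₁ i ≤ ac u (a.Xf q W₂ (bl.B (m' + t)) η₂ i') :=
  by
  have hU := h.mU
  refine iSup₂_le fun s hs => ?_
  have h1 : g⁻¹ * s ∈ bl.B (m' + t) := add_comm t m' ▸ bl.mul (bl.inv h.gt) hs
  have h2 := h.hc s (bl.mono (by omega) hs) (bl.mono (by omega) h1)
  rw [_root_.abs_le] at h2
  have h3 := h.tr.2 (g⁻¹ * s) (by
    rw [mul_inv_cancel_left]
    exact bl.mono (by omega) hs)
  rw [mul_inv_cancel_left] at h3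
  rw [← h3, ← ac_sc]
  exact (ac u).monotone (le_iSup₂_of_le
    (f := fun s (_ : s ∈ bl.B (m' + t)) => sc (cd q (i' - η₂ s)) (a.gen W₂ s)) (g⁻¹ * s) h1
    (sc_anti (cd_mono h.q0 (by linarith [h2.2])) _))

theorem GP.mono (hq : 0 < q) {α β x x' : ℕ} {Tm Tp : ℤ} (h : a.GP q W η α β Tm Tp x W')
    (hx : x ≤ x') : a.GP q W η α β Tm Tp x' W' :=
  by
  have h1 : (2 * (C : ℤ) + 2) * x ≤ (2 * (C : ℤ) + 2) * x' :=
    mul_le_mul_of_nonneg_left (by exact_mod_cast hx) (by positivity)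
  exact Gap.mono h
    (a.Xf_mono hq W (fun s hs => bl.mono (by omega) hs) fun _ _ => le_rfl)
    (a.Xf_mono hq W (fun s hs => bl.mono (by omega) hs) fun _ _ => le_rfl)
    (by linarith) (by linarith)

theorem Pair.gp_tr (h : a.Pair q m U t g W₁ W₂ η₁ η₂ u δ) {α β x : ℕ} {Tm Tp : ℤ}
    (hα : α + x + 2 * t ≤ m) (hβ : β + t ≤ m) (hx : x + t ≤ β)
    (hg : a.GP q W₂ η₂ α β Tm Tp x W') : a.GP q W₁ η₁ α β Tm Tp (x + t) (im u W') :=
  by
  obtain ⟨g1, g2, g3⟩ := hg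
  have hd := h.abs_le
  rw [_root_.abs_le] at hd
  push_cast at hd
  have h3 : (t : ℤ) ≤ (q : ℤ) * t :=
    le_mul_of_one_le_left (Int.natCast_nonneg t) (by exact_mod_cast h.q0)
  have x1 := h.X_le1 (m' := α + x) hα (i := 0 + q * -((C + 2 : ℤ) * t)) (i' := 0)
    (by nlinarith [hd.1])
  have x2 := h.X_le2 (m' := β - (x + t)) (by omega) (i := 0) (i' := 0 + q * -((C + 2 : ℤ) * t))
    (by nlinarith [hd.2])
  rw [a.Xf_per h.q0, add_assoc α] at x1
  rw [a.Xf_per h.q0, show β - (x + t) + t = β - x by omega] at x2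
  have l1 : La W₁ ≤ sc (-((C * t : ℕ) : ℤ)) (a.gen W₁ g) := LFine_sc (a.le_gen W₁ h.gt)
  have l2 := a.gen_le_sc W₁ h.gt
  have w1 : im u W' ≤ W₁ := (im_mono u g1).trans_eq h.tr.1
  have l3 : La (im u W') ≤ sc (-((C * t : ℕ) : ℤ)) (ac u (La W')) := by
    rw [← La_inf g1, map_inf, h.La2, ac_rs, map_inf, sc_rs, ← La_inf w1]
    exact inf_le_inf_right _ l1
  refine ⟨w1, ?_, ?_⟩
  · have y1 := ((ac u).monotone g2).trans x1
    rw [ac_sc] at y1
    have y2 := (sc ((C + 2 : ℤ) * t)).monotone y1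
    rw [LGap_sc_sc, ← sc_add] at y2
    refine ((sc _).monotone l3).trans (le_trans (le_of_eq ?_) y2)
    rw [← sc_add]
    congr 2
    push_cast
    ring
  · have y1 := (sc (-((C + 2 : ℤ) * t))).monotone ((ac u).monotone g3)
    rw [map_inf, map_inf, map_sup, map_sup, ac_sc, ac_sc, ac_rs, sc_rs, h.La2, ← sc_add,
      ← sc_add] at y1
    rw [ac_sc] at x2
    refine le_trans (inf_le_inf x2 ?_) (y1.trans (sup_le_sup_left ?_ _))
    · refine ((sc _).monotone l1).trans ?_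
      rw [← sc_add]
      refine sc_anti ?_ _
      have : (0 : ℤ) ≤ (C + 2 : ℤ) * t := by positivity
      push_cast
      nlinarith
    · refine ((sc _).monotone l2).trans (le_of_eq ?_)
      rw [← sc_add]
      congr 2
      push_cast
      ring

theorem psi_bounds (hq : 0 < q) (hη : η ∈ a.Kv q W m) {α β : ℕ} (hαβ : α ≤ β) {τ : ℤ}
    (hτ : 0 ≤ τ) (i : ℤ) : rs W' ⊔ sc (cd q i) (La W) ≤ a.psi q W W' η τ α β i ∧
      a.psi q W W' η τ α β i ≤ rs W' ⊔ sc (cd q i - τ) (La W) :=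
  by
  obtain ⟨-, e1, -⟩ := (a.mem_Kv hq).1 hη
  constructor
  · refine le_iSup₂_of_le
      (f := fun (m : ℕ) (_ : m ∈ Finset.Icc α β) => a.low q W W' η τ m (i + m - α)) α
      (Finset.mem_Icc.2 ⟨le_rfl, hαβ⟩) ?_
    rw [add_sub_cancel_right]
    refine sup_le_sup_left (le_inf ?_ (sc_anti (by linarith) _)) _
    refine le_iSup₂_of_le
      (f := fun s (_ : s ∈ bl.B α) => sc (cd q (i - η s)) (a.gen W s)) 1
      (bl.mono (Nat.zero_le _) bl.one) ?_
    rw [e1, sub_zero, gen_one]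
  · refine iSup₂_le fun k hk => sup_le_sup_left (inf_le_right.trans (sc_anti ?_ _)) _
    have h1 : (α : ℤ) ≤ k := by exact_mod_cast (Finset.mem_Icc.1 hk).1
    exact sub_le_sub_right (cd_mono hq (by linarith)) _

theorem psi_per (hq : 0 < q) (hη : η ∈ a.Kv q W m) (hW : W' < W) {α β : ℕ} (hαβ : α ≤ β)
    {τ : ℤ} (hτ : 0 ≤ τ) : Per (sc 1) q n (a.psi q W W' η τ α β) :=
  by
  have anti : Antitone (a.psi q W W' η τ α β) := fun i j hij => iSup₂_mono fun k _ =>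
    sup_le_sup_left (inf_le_inf (a.Xf_anti hq W _ η (by linarith))
      (sc_anti (sub_le_sub_right (cd_mono hq (by linarith)) _) _)) _
  have per1 : ∀ i, a.psi q W W' η τ α β (i + q) = sc 1 (a.psi q W W' η τ α β i) := fun i => by
    rw [← LTest_per hq, mul_one]
  refine ⟨anti, per1, fun i he => ?_, fun i => ?_⟩
  · have h1 : ∀ k : ℕ, a.psi q W W' η τ α β (i + q * k) = a.psi q W W' η τ α β i := by
      intro k
      induction k with
      | zero => simp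
      | succ k ih =>
        rw [Nat.cast_succ, mul_add, mul_one, ← add_assoc, per1, ih, ← per1, he]
    obtain ⟨k, rfl⟩ := Int.eq_ofNat_of_zero_le hτ
    have h2 := (psi_bounds (W' := W') hq hη hαβ hτ i).1
    have h3 := (psi_bounds (W' := W') hq hη hαβ hτ (i + q * ((k + 1 : ℕ) : ℤ))).2
    rw [h1, cd_add hq] at h3
    have h4 := (le_sup_right.trans h2).trans h3
    rw [show cd q i + ((k + 1 : ℕ) : ℤ) - k = cd q i + 1 by push_cast; ring, sc_add,
      ← sc_rs (cd q i) W', ← map_sup, OrderIso.le_iff_le] at h4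
    exact hW.not_ge (le_of_La_le h4)
  · refine le_trans ?_ (chain_le (a.psi q W W' η τ α β i)
      (fun j => a.psi q W W' η τ α β (i + q - j)) q
      (fun j j' hj => anti (sub_le_sub_left (by exact_mod_cast hj) _))
      (by simp [per1]) (by simp))
    refine Finset.card_le_card_of_injOn (fun j => (i + q - j - 1).toNat) (fun j hj => ?_)
      fun j hj j' hj' he => ?_
    · obtain ⟨h1, h2⟩ := Finset.mem_filter.1 (Finset.mem_coe.1 hj)
      rw [Finset.mem_Ico] at h1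
      refine Finset.mem_coe.2 (Finset.mem_filter.2 ⟨Finset.mem_range.2 (by
        show (i + q - j - 1).toNat < q
        omega), ?_⟩)
      have e1 : i + q - (((i + q - j - 1).toNat + 1 : ℕ) : ℤ) = j := by omega
      have e2 : i + q - (((i + q - j - 1).toNat : ℕ) : ℤ) = j + 1 := by omega
      simp only [e1, e2]
      exact h2.symm
    · have h1 := Finset.mem_Ico.1 (Finset.mem_filter.1 (Finset.mem_coe.1 hj)).1
      have h2 := Finset.mem_Ico.1 (Finset.mem_filter.1 (Finset.mem_coe.1 hj')).1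
      simp only at he
      omega

end Pool.Agent.MP_f7db47_al.GN.Ac
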