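import Pool.Agent.MP_f7db47_al.GN.LPair

/-!
The invariant passes to the children of a node.
-/

namespace Pool.Agent.MP_f7db47_al.GN.Nd

open Pl

variable {ι : Type} [Fintype ι] [DecidableEq ι] {P : ι → Pl} {n β : ℕ} {Λ Λ' : Type} {G : Type}
  [Group G] {bl : Bl G} {C : ℕ} {a : ∀ l, Ac G bl C (P l) n} {F : FR G Λ} {F' : FR G Λ'}
  {ν : Nd P n β Λ} {π : Λ' → Λ} {cδ U' : ℕ}

omit [DecidableEq ι] in
theorem Inv.pull {Rt X U : ℕ} (hν : ν.Inv a F Rt X cδ U)
    (hrel : ∀ t x g y, F'.rel t x g y → F.rel t (π x) g (π y)) :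
    (ν.pull π).Inv a F' Rt X cδ U :=
  ⟨hν.rle, hν.rks, fun _ => hν.hle _, fun h => hν.lip (hrel _ _ _ _ h), fun _ => hν.rank _,
    fun _ => hν.dep _, fun _ => hν.lat _, fun h => hν.close (hrel _ _ _ _ h)⟩

omit [DecidableEq ι] in
theorem root_inv (a : ∀ l, Ac G bl C (P l) n) (F : FR G Λ) (Rt X cδ U : ℕ) :
    (⟨Fintype.card ι * n, fun _ => n, fun _ => 0, fun _ => Rt, fun _ _ => ⊤, fun _ _ _ => ⊥⟩ :
      Nd P n (Fintype.card ι * n) Λ).Inv a F Rt X cδ U :=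
  ⟨le_rfl, by simp, fun _ => le_rfl, fun _ => Nat.le_add_right _ _, fun _ _ _ => by simp,
    fun _ _ _ _ => rfl, fun _ _ _ _ _ => ⟨0, le_sup_of_le_right
      ((sc 0).monotone (le_inf le_rfl le_top)), bot_le⟩, fun {_ _ g _} _ _ _ =>
    ⟨0, fun _ => by simp, fun _ _ => rfl, fun l => ⟨(a l).ρ g,
      ⟨(Submodule.map_top _).trans (LinearEquiv.range _), fun s _ => by
        simp only [Ac.gen, rs_top, inf_top_eq, map_mul, ac_mul]⟩, fun _ _ _ Y _ _ => by
      simp only [sup_bot_eq, ac_ac_inv]⟩⟩⟩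

variable {p : Par} {l : ι} {η : Λ' → G → ℤ}

omit [Fintype ι] in
theorem NChild_eq {τ κ d : ℕ} {x : Λ'}
    (h : Module.finrank (P l).K ((a l).wit p (ν.W (π x) l) (η x) τ) = d) :
    (ν.child a p l π η τ κ d).h x = min (ν.h (π x) / 2)
      (min ((a l).dG p (ν.W (π x) l) (η x) τ) ((a l).dS p (ν.W (π x) l) (η x) τ κ)) :=
  if_pos h

omit [Fintype ι] in
theorem NChild_pos {τ κ d t : ℕ} {x : Λ'} (h : t < (ν.child a p l π η τ κ d).h x) :
    Module.finrank (P l).K ((a l).wit p (ν.W (π x) l) (η x) τ) = d ∧ t < ν.h (π x) / 2 ∧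
      t < (a l).dG p (ν.W (π x) l) (η x) τ ∧ t < (a l).dS p (ν.W (π x) l) (η x) τ κ := by
  by_cases e : Module.finrank (P l).K ((a l).wit p (ν.W (π x) l) (η x) τ) = d
  · rw [NChild_eq e, lt_min_iff, lt_min_iff] at h
    exact ⟨e, h⟩
  · exact absurd (h.trans_eq (if_neg e)) (Nat.not_lt_zero _)

omit [Fintype ι] [DecidableEq ι] in
theorem NChild_num (hp : p.OK n C U') {τ : ℕ} (hτ : τ < n) :
    2 * p.X + 1 + p.tau C τ + C * p.Rt + U' ≤ p.U := by
  have h1 := hp.t2 τ hτ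
  have h2 := (hp.anti (Nat.zero_le τ)).trans hp.u2
  have h3 : C * p.Rt ≤ (4 * C + 2) * p.Rt := Nat.mul_le_mul_right _ (by omega)
  have h4 : U' ≤ (2 * C + 1) * U' := Nat.le_mul_of_pos_left _ (by omega)
  have h5 : 2 * (2 * C + 2) * p.Rt ≤ 6 * (2 * C + 2) * p.Rt := Nat.mul_le_mul_right _ (by omega)
  rw [Par.tau]
  omega

theorem child_cover (hp : p.OK n C U') (hν : ν.Inv a F p.Rt p.X cδ p.U) {x : Λ'}
    (hη : η x ∈ (a l).Kv p.q (ν.W (π x) l) p.m) :
    ∃ τ < n, ∃ κ ≤ n, ∃ d < n, ν.h (π x) / 2 ≤ (ν.child a p l π η τ κ d).h x := by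
  obtain ⟨τ, hτ, κ, hκ, h1, h2, h3⟩ := Ac.stage_cover hp hη
  refine ⟨τ, hτ, κ, hκ, _, (Submodule.finrank_lt_finrank_of_lt h3).trans_le
    ((Submodule.finrank_le _).trans (Module.finrank_fin_fun _).le), ?_⟩
  have := hν.hle (π x)
  rw [NChild_eq rfl, h1, h2]
  omega

theorem child_inv (hp : p.OK n C U') (hc : n * (C + 6) ≤ cδ) (hF : F.Good bl)
    (hν : ν.Inv a F p.Rt p.X cδ p.U) (hl : 0 < ν.rk l)
    (hrel : ∀ t x g y, F'.rel t x g y → F.rel t (π x) g (π y) ∧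
      (t < ν.h (π x) → t < ν.h (π y) → ∃ δ, HC bl p.m t g (η x) (η y) δ))
    (hη : ∀ x, 0 < ν.h (π x) → η x ∈ (a l).Kv p.q (ν.W (π x) l) p.m) {τ κ : ℕ} (hτ : τ < n)
    (hκ : κ ≤ n) (d : ℕ) : (ν.child a p l π η τ κ d).Inv a F' p.Rt p.X cδ U' := by
  have hr : 0 < ν.r := hl.trans_le
    ((Finset.single_le_sum (fun _ _ => Nat.zero_le _) (Finset.mem_univ l)).trans hν.rks)
  have hβ : ν.r - 1 < β := (Nat.sub_lt hr one_pos).trans_le hν.rle
  have hU := NChild_num hp hτ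
  have pair : ∀ {t x g y u}, F'.rel t x g y → t < ν.h (π x) → t < ν.h (π y) →
      (a l).Tr p.U g (ν.W (π x) l) (ν.W (π y) l) u → t ≤ p.Rt ∧
      ∃ δ, (a l).Pair p.q p.m p.U t g (ν.W (π x) l) (ν.W (π y) l) (η x) (η y) u δ := by
    intro t x g y u h hx hy hu
    obtain ⟨δ, hδ⟩ := (hrel _ _ _ _ h).2 hx hy
    have h1 := hν.hle (π x)
    have h2 := hp.m1
    exact ⟨by omega, δ, hp.q0, hη x (by omega), hη y (by omega), hF.ball (hrel _ _ _ _ h).1, hu,
      hp.u1, hδ, by omega⟩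
  have hN : ∀ {x} {c : ℤ}, 0 < ν.h (π x) → 0 < (a l).dG p (ν.W (π x) l) (η x) τ → |c| ≤ p.X →
      sc (ν.ω l) (La (ν.W (π x) l)) ≤
        sc (ν.ω l - p.X - 1) ((a l).Nn p (ν.W (π x) l) (η x) τ κ c) ∧
      sc (ν.ω l - p.X - 1) ((a l).Nn p (ν.W (π x) l) (η x) τ κ c) ≤
        sc (ν.ω l - p.X - 1 - ((p.X + p.tau C τ : ℕ) : ℤ)) (La (ν.W (π x) l)) := by
    intro x c h1 h2 h3
    obtain ⟨h4, h5, -⟩ := Ac.Nn_spec hp hτ hκ (hη x h1) (Ac.gp_wit hp h2) h3
    constructor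
    · refine le_trans (le_of_eq ?_) ((sc _).monotone h4)
      rw [← sc_add]
      congr 2
      ring
    · rw [sub_eq_add_neg _ ((p.X + p.tau C τ : ℕ) : ℤ), sc_add]
      exact (sc _).monotone h5
  refine ⟨hβ.le, ?_, fun x => ?_, fun {t x g y} h => ?_, fun x l' hx => ?_, fun x v v' h => ?_,
    fun x v l' hx hv => ?_, fun {t x g y} h hx hy => ?_⟩
  · have h1 := hν.rks
    rw [← Finset.add_sum_erase _ _ (Finset.mem_univ l), ← Finset.sdiff_singleton_eq_erase] at h1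
    simp only [child]
    rw [Finset.sum_update_of_mem (Finset.mem_univ l)]
    omega
  · by_contra h
    have h1 := (NChild_pos (not_le.1 h)).2.1
    have h2 := hν.hle (π x)
    omega
  · rcases le_or_gt ((ν.child a p l π η τ κ d).h y) t with h0 | h0
    · omega
    obtain ⟨h1, h2, h3, -⟩ := NChild_pos h0
    have h4 := hν.lip (hrel _ _ _ _ h).1
    have hx : t < ν.h (π x) := by omega
    have hy : t < ν.h (π y) := by omega
    obtain ⟨_, -, -, h5⟩ := hν.close (hrel _ _ _ _ h).1 hx hy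
    obtain ⟨u, hu, -⟩ := h5 l
    obtain ⟨ht, δ, hP⟩ := pair h hx hy hu
    have h6 := hP.dG_le hp hτ ht
    obtain ⟨h7, h8, -⟩ := hP.stage hp hτ hκ ht (Ac.gp_wit hp (by omega)) (Ac.gp_wit hp (by omega))
    rw [NChild_eq h1, NChild_eq (h7.trans h1)]
    omega
  · obtain ⟨h1, h2, h3, -⟩ := NChild_pos hx
    have h4 : 0 < ν.h (π x) := by omega
    by_cases e : l' = l
    · subst e
      have h5 := Submodule.finrank_lt_finrank_of_lt
        (Ac.wit_lt hp hτ (hη x h4) (Ac.gp_wit hp h3))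
      rw [hν.rank _ _ h4] at h5
      rw [show (ν.child a p l' π η τ κ d).W x l' = _ from Function.update_self ..,
        show (ν.child a p l' π η τ κ d).rk l' = _ from Function.update_self ..]
      omega
    · rw [show (ν.child a p l π η τ κ d).W x l' = _ from Function.update_of_ne e ..,
        show (ν.child a p l π η τ κ d).rk l' = _ from Function.update_of_ne e ..]
      exact hν.rank _ _ h4
  · simp only [child] at h ⊢
    rw [hν.dep (π x) v v' fun i hi => h i (by omega), dif_pos hβ, dif_pos hβ,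
      h ⟨ν.r - 1, hβ⟩ le_rfl]
  · obtain ⟨-, h2, h3, -⟩ := NChild_pos hx
    have h4 : 0 < ν.h (π x) := by omega
    obtain ⟨c, h5, h6⟩ := hν.lat (π x) v l' h4 hv
    simp only [child]
    by_cases e : l' = l
    · subst e
      obtain ⟨h7, h8⟩ := hN h4 h3 (hv ⟨ν.r - 1, hβ⟩)
      simp only [Function.update_self, dif_pos hβ]
      exact ⟨c + (ν.ω l' - p.X - 1 - ((p.X + p.tau C τ : ℕ) : ℤ)).natAbs, le_sup_of_le_left
        ((sc_anti (by omega) _).trans (h5.trans (sup_le_sup_left h7 _))),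
        sup_le (h6.trans (sc_anti (by omega) _)) (h8.trans (sc_le_sc (by omega) inf_le_left))⟩
    · simp only [Function.update_of_ne e]
      exact ⟨c, h5, h6⟩
  · obtain ⟨-, x2, x3, x4⟩ := NChild_pos hx
    obtain ⟨-, y2, y3, -⟩ := NChild_pos hy
    clear hx hy
    have hx : t < ν.h (π x) := by omega
    have hy : t < ν.h (π y) := by omega
    obtain ⟨δ, d1, d2, h5⟩ := hν.close (hrel _ _ _ _ h).1 hx hy
    obtain ⟨u, hu, h6⟩ := h5 l
    obtain ⟨ht, δ₀, hP⟩ := pair h hx hy hu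
    have g1 := Ac.gp_wit hp (Nat.zero_lt_of_lt x3)
    obtain ⟨e, e1, u', e2, e3⟩ :=
      (hP.stage hp hτ hκ ht g1 (Ac.gp_wit hp (Nat.zero_lt_of_lt y3))).2.2 x4
    have hv : ∀ {v}, Bx p.X v → Bx p.X (v + Function.update δ ⟨ν.r - 1, hβ⟩ e) →
        Bx p.X (v + δ) ∧ ν.Z (π y) (v + Function.update δ ⟨ν.r - 1, hβ⟩ e) =
          ν.Z (π y) (v + δ) := by
      refine fun {v} h1 h2 => ⟨fun i => ?_, hν.dep _ _ _ fun i hi => ?_⟩
      · by_cases e : i = ⟨ν.r - 1, hβ⟩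
        · rw [Pi.add_apply, d2 i (by rw [e]; exact Nat.sub_lt hr one_pos), add_zero]
          exact h1 i
        · simpa only [Pi.add_apply, Function.update_of_ne e] using h2 i
      · rw [Pi.add_apply, Pi.add_apply, Function.update_of_ne (Fin.ne_of_val_ne (by
          dsimp only; omega))]
    refine ⟨Function.update δ ⟨ν.r - 1, hβ⟩ e, fun i => ?_, fun i hi => ?_, fun l' => ?_⟩
    · by_cases e : i = ⟨ν.r - 1, hβ⟩
      · rw [e, Function.update_self]
        exact e1.trans (Int.ofNat_le.2 (Nat.mul_le_mul_right _ hc))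
      · rw [Function.update_of_ne e]
        exact d1 i
    · rw [Function.update_of_ne (Fin.ne_of_val_ne hi.ne)]
      exact d2 i (hi.trans (Nat.sub_lt hr one_pos))
    simp only [child]
    by_cases e : l' = l
    · subst e
      simp only [Function.update_self, dif_pos hβ, Pi.add_apply]
      refine ⟨u', e2, fun v h1 h2 Y h3 h4 => ?_⟩
      obtain ⟨v1, v2⟩ := hv h1 h2
      obtain ⟨h7, h8⟩ := hN (Nat.zero_lt_of_lt hx) (Nat.zero_lt_of_lt x3) (h1 ⟨ν.r - 1, hβ⟩)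
      have h9 := congrArg (sc (ν.ω l' - p.X - 1)) (e3 _ (h1 ⟨ν.r - 1, hβ⟩)
        (by simpa using h2 ⟨ν.r - 1, hβ⟩) (sc (-(ν.ω l' - p.X - 1)) Y)
        (le_trans (by rw [← sc_add]; exact sc_anti (by omega) _) ((sc _).monotone h3))
        (((sc _).monotone h4).trans (by rw [← sc_add]; exact sc_anti (by omega) _)))
      rw [← ac_sc, map_sup, map_sup (sc _), ← ac_sc, ← sc_add, add_neg_cancel, sc_zero] at h9
      have h10 := h6 v h1 v1 _ (le_sup_of_le_right h7) (sup_le (h4.trans (sc_le_sc (by omega)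
        (La_mono (Ac.wit_lt hp hτ hP.k1 g1).le))) (h8.trans (sc_anti (by omega) _)))
      rw [h9] at h10
      rw [v2, sup_comm (ν.Z _ _ _), ← sup_assoc, h10, sup_comm (ν.Z _ _ _), sup_assoc]
    · obtain ⟨w, hw, h7⟩ := h5 l'
      simp only [Function.update_of_ne e]
      refine ⟨w, hw.mono hp.u3, fun v h1 h2 Y h3 h4 => ?_⟩
      obtain ⟨v1, v2⟩ := hv h1 h2
      rw [v2]
      exact h7 v h1 v1 Y h3 (h4.trans (sc_anti (by omega) _))

end Pool.Agent.MP_f7db47_al.GN.Nd
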