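import Pool.Agent.MP_f7db47_al.GN.NChild
import Pool.Agent.MP_f7db47_al.GN.NCar
import Pool.Agent.MP_f7db47_al.GN.CMain

/-!
One step of the induction.
-/

namespace Pool.Agent.MP_f7db47_al.GN

open Matrix

universe v

variable {R : Type v} [Ring R]

theorem step (n : ℕ) : ∃ c : ℕ, 0 < c ∧ ∀ (G : Type) [Group G] (ι : Type) [Fintype ι]
    (P : ι → Pl) (bl : Bl G) (C β cδ U' : ℕ) (a : ∀ l, Ac G bl C (P l) n) (p : Par),
    p.OK n C U' → n * (C + 6) ≤ cδ → ∀ (J : Type) [Fintype J] [DecidableEq J] (F : FR G J),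
    F.Good bl → ∀ (ν : Nd P n β J) (l : ι), ν.Inv a F p.Rt p.X cδ p.U → 0 < ν.rk l →
    ∀ k : ℕ, 0 < k → ∀ A B : Matrix J J (MonoidAlgebra R G), A * B = 1 → B * A = 1 →
    Ctl (F.rel k) id id A → Ctl (F.rel k) id id B →
    ∃ (J' : Type) (_ : Fintype J') (_ : DecidableEq J') (π : J' → J) (F' : FR G J')
      (ch : Fin n × Fin (n + 1) × Fin n → Nd P n β J')
      (A' B' : Matrix J' J' (MonoidAlgebra R G)), F'.Good bl ∧
      (∀ t x g y, F'.rel t x g y → F.rel t (π x) g (π y)) ∧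
      Fintype.card J' ≤
        Fintype.card J * ((2 * (p.q * C * p.m) + 1) ^ bl.s₀ ^ p.m + 1) ^ (n + 1) ∧
      (∀ c, (ch c).Inv a F' p.Rt p.X cδ U' ∧ (ch c).r = ν.r - 1) ∧
      (∀ x, 0 < ν.h (π x) → ∃ c, ν.h (π x) / 2 ≤ (ch c).h x) ∧
      A' * B' = 1 ∧ B' * A' = 1 ∧ Ctl (F'.rel (c * k)) id id A' ∧
      Ctl (F'.rel (c * k)) id id B' ∧ (T A' → T A) := by
  obtain ⟨c, hc, ht⟩ := transfer (R := R) (n + 1)
  refine ⟨4 * c, by omega, fun G _ ι _ P bl C β cδ U' a p hp hcδ J _ _ F hF ν l hν hl k hk A B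
    hAB hBA hA hB => ?_⟩
  classical
  let o : LinearOrder (G → ℤ) := linearOrderOfSTO WellOrderingRel
  have hm : ∀ x, 2 * ν.h x ≤ p.m := fun x => by
    have := hν.hle x
    have := hp.m1
    omega
  obtain ⟨F₁, hF₁, hr⟩ := exists_ext
    (Λ' := {x : J × (G → ℤ) // x.2 ∈ (a l).Kn p.q p.m (ν.h x.1) (ν.W x.1 l)}) F hF ν.h p.m hν.lip
    (fun x => by have := hm x; omega) (fun x => x.1.1) fun x => x.1.2
  obtain ⟨C₁, C₂, hD, hC⟩ := car (a l) o F hF ν.h (fun x => ν.W x l) hp.q0 hk hν.lip hm hp.u1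
    (fun x hx e => by
      have := hν.rank x l hx
      rw [e, finrank_bot] at this
      omega)
    (fun h h1 h2 => by
      obtain ⟨δ, -, -, h3⟩ := hν.close h h1 h2
      obtain ⟨u, h4, -⟩ := h3 l
      exact ⟨u, h4⟩)
  obtain ⟨J', i1, i2, lab, A', B', h1, h2, h3, h4, h5, h6⟩ := @ht G _ J (G → ℤ) _ _ o _ _ _ _ C₁ C₂
    F₁ (4 * k) _ hD (fun j => card_Kn (a l) _ _ _ _)
    (fun x y e h => (hr _ _ _ _).2 ⟨e ▸ F.mono (Nat.zero_le _) (F.refl _), fun _ _ => by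
      obtain ⟨-, δ, h7⟩ := h
      refine ⟨δ, fun s hs _ => ?_⟩
      obtain ⟨h8, h9⟩ := h7 s (bl.mono (Nat.sub_le _ _) hs)
      rw [inv_one, one_mul, abs_le]
      push_cast
      omega⟩)
    (fun x y g σ h7 h8 h9 h10 => (hr _ _ _ _).2
      ⟨F.mono (by omega) h7, hC _ _ _ _ _ _ h7 h8 h9 h10⟩) A B hAB hBA hA hB
  have hη : ∀ x, 0 < ν.h (lab x).1.1 → (lab x).1.2 ∈ (a l).Kv p.q (ν.W (lab x).1.1 l) p.m :=
    fun x hx => by
      have := (lab x).2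
      rwa [Ac.Kn, if_pos hx] at this
  have e : 4 * c * k = c * (4 * k) := by ring
  refine ⟨J', i1, i2, fun x => (lab x).1.1, F₁.pull lab,
    fun t => ν.child a p l (fun x => (lab x).1.1) (fun x => (lab x).1.2) t.1 t.2.1 t.2.2, A', B',
    ⟨fun h => hF₁.symm h, fun h => hF₁.ball h⟩, fun t x g y h => ((hr _ _ _ _).1 h).1, h1,
    fun t => ⟨Nd.child_inv (F' := F₁.pull lab) (π := fun x => (lab x).1.1)
      (η := fun x => (lab x).1.2) hp hcδ hF hν hl (fun t x g y h => (hr _ _ _ _).1 h) hη t.1.2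
      (Nat.lt_succ_iff.1 t.2.1.2) _, rfl⟩, fun x hx => ?_, h2, h3, e ▸ h4, e ▸ h5, h6⟩
  obtain ⟨τ, hτ, κ, hκ, d, hd, h⟩ := Nd.child_cover (π := fun x => (lab x).1.1)
    (η := fun x => (lab x).1.2) hp hν (hη x hx)
  exact ⟨(⟨τ, hτ⟩, ⟨κ, Nat.lt_succ_of_le hκ⟩, ⟨d, hd⟩), h⟩

end Pool.Agent.MP_f7db47_al.GN
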