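import Pool.Agent.MP_f7db47_al.GN.NStep

/-!
The induction over the tree of nodes.
-/

namespace Pool.Agent.MP_f7db47_al.GN

open Matrix

universe v

variable {R : Type v} [Ring R]

/-- The number of steps needed below a node of level `r`. -/
def NTree_cost (col : ℕ) : ℕ → ℕ
  | 0 => 0
  | r + 1 => 1 + col * NTree_cost col r

theorem NTree_mono (col : ℕ) : Monotone (NTree_cost col) := by
  refine monotone_nat_of_le_succ fun r => ?_
  induction r with
  | zero => exact Nat.zero_le _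
  | succ r ih => exact Nat.add_le_add_left (Nat.mul_le_mul_left col ih) 1

theorem tree (n β : ℕ) : ∃ kf Nf e : ℕ, ∀ (G : Type) [Group G] (ι : Type) [Fintype ι]
    (P : ι → Pl) (bl : Bl G) (C cδ Rt X R₀ Mb Mf : ℕ) (a : ∀ l, Ac G bl C (P l) n) (Uf : ℕ → ℕ)
    (p : ℕ → Par), (∀ r, (p r).OK n C (Uf r) ∧ (p r).Rt = Rt ∧ (p r).X = X ∧
      (p r).U = Uf (r + 1)) → n * (C + 6) ≤ cδ → 0 < R₀ → 0 < Mb →
    (∀ r < β, ((2 * ((p r).q * C * (p r).m) + 1) ^ bl.s₀ ^ (p r).m + 1) ^ (n + 1) ≤ Mb) →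
    (∀ (J N : Type) [Fintype J] [DecidableEq J] [Fintype N] (F : FR G J) (ν : N → Nd P n β J)
      (A B : Matrix J J (MonoidAlgebra R G)), F.Good bl → Fintype.card N ≤ Nf →
      Fintype.card J ≤ Mf → (∀ i, (ν i).Inv a F Rt X cδ (Uf (ν i).r) ∧ ∀ l, (ν i).rk l = 0) →
      (∀ x, ∃ i, R₀ ≤ (ν i).h x) → A * B = 1 → B * A = 1 → Ctl (F.rel kf) id id A →
      Ctl (F.rel kf) id id B → T A) →
    ∀ (J : Type) [Fintype J] [DecidableEq J] (F : FR G J) (ν : Nd P n β J)
      (A B : Matrix J J (MonoidAlgebra R G)), F.Good bl → Fintype.card J * Mb ^ e ≤ Mf →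
      ν.Inv a F Rt X cδ (Uf ν.r) → (∀ x, 2 ^ β * R₀ ≤ ν.h x) → A * B = 1 → B * A = 1 →
      Ctl (F.rel 1) id id A → Ctl (F.rel 1) id id B → T A := by
  classical
  obtain ⟨c, hc, hstep⟩ := step (R := R) n
  refine ⟨c ^ NTree_cost (n * ((n + 1) * n)) β,
    1 + n * ((n + 1) * n) * NTree_cost (n * ((n + 1) * n)) β,
    NTree_cost (n * ((n + 1) * n)) β, ?_⟩
  intro G _ ι _ P bl C cδ Rt X R₀ Mb Mf a Uf p hp hcδ hR hMb hM H
  generalize hkf : c ^ NTree_cost (n * ((n + 1) * n)) β = kf at H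
  generalize hNf : 1 + n * ((n + 1) * n) * NTree_cost (n * ((n + 1) * n)) β = Nf at H
  have key : ∀ (s : ℕ) (J N : Type) [Fintype J] [DecidableEq J] [Fintype N] (F : FR G J)
      (ν : N → Nd P n β J) (k : ℕ) (A B : Matrix J J (MonoidAlgebra R G)), F.Good bl → 0 < k →
      ∑ i, NTree_cost (n * ((n + 1) * n)) (ν i).r ≤ s → k * c ^ s ≤ kf →
      Fintype.card N + n * ((n + 1) * n) * s ≤ Nf → Fintype.card J * Mb ^ s ≤ Mf →
      (∀ i, (ν i).Inv a F Rt X cδ (Uf (ν i).r)) → (∀ x, ∃ i, 2 ^ (ν i).r * R₀ ≤ (ν i).h x) →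
      A * B = 1 → B * A = 1 → Ctl (F.rel k) id id A → Ctl (F.rel k) id id B → T A := by
    intro s
    induction s using Nat.strong_induction_on with
    | _ s ih =>
    intro J N _ _ _ F ν k A B hF hk hs hkc hN hJ hI hcov hAB hBA hA hB
    by_cases h0 : ∀ i l, (ν i).rk l = 0
    · have hk' : k ≤ kf := (Nat.le_mul_of_pos_right k (pow_pos hc s)).trans hkc
      refine H J N F ν A B hF ((Nat.le_add_right _ _).trans hN)
        ((Nat.le_mul_of_pos_right _ (pow_pos hMb s)).trans hJ) (fun i => ⟨hI i, h0 i⟩)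
        (fun x => ?_) hAB hBA (hA.le F hk') (hB.le F hk')
      obtain ⟨i, hi⟩ := hcov x
      exact ⟨i, (Nat.le_mul_of_pos_left R₀ (pow_pos two_pos _)).trans hi⟩
    · push Not at h0
      obtain ⟨i, l, hl⟩ := h0
      have hl' : 0 < (ν i).rk l := Nat.pos_of_ne_zero hl
      have h1 : (ν i).rk l ≤ (ν i).r :=
        (Finset.single_le_sum (f := (ν i).rk) (fun _ _ => Nat.zero_le _)
          (Finset.mem_univ l)).trans (hI i).rks
      obtain ⟨r, hr⟩ : ∃ r, (ν i).r = r + 1 := ⟨(ν i).r - 1, by omega⟩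
      have hrβ : r < β := by
        have := (hI i).rle
        omega
      obtain ⟨hOK, hRt, hX, hU⟩ := hp r
      have hIi : (ν i).Inv a F (p r).Rt (p r).X cδ (p r).U := by
        rw [hRt, hX, hU, ← hr]
        exact hI i
      obtain ⟨J', _, _, π, F', ch, A', B', hF', hrel, hcard, hch, hcov', hAB', hBA', hA', hB',
        hT⟩ := hstep G ι P bl C β cδ (Uf r) a (p r) hOK hcδ J F hF (ν i) l hIi hl' k hk A B hAB
          hBA hA hB
      have hchr : ∀ c, (ch c).r = r := fun c => by rw [(hch c).2, hr, Nat.add_sub_cancel]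
      rw [Fintype.sum_eq_add_sum_subtype_ne _ i, hr] at hs
      have hcost : NTree_cost (n * ((n + 1) * n)) (r + 1) =
          1 + n * ((n + 1) * n) * NTree_cost (n * ((n + 1) * n)) r := rfl
      rw [hcost] at hs
      obtain ⟨s', rfl⟩ : ∃ s', s = s' + 1 := ⟨s - 1, by omega⟩
      refine hT (ih s' (Nat.lt_succ_self s') J' ({i' // i' ≠ i} ⊕ Fin n × Fin (n + 1) × Fin n) F'
        (Sum.elim (fun i' => (ν i'.1).pull π) ch) (c * k) A' B' hF' (Nat.mul_pos hc hk) ?_ ?_ ?_
        ?_ ?_ ?_ hAB' hBA' hA' hB')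
      · rw [Fintype.sum_sum_type]
        simp only [Sum.elim_inl, Sum.elim_inr, hchr, Finset.sum_const, Finset.card_univ,
          Fintype.card_prod, Fintype.card_fin, smul_eq_mul]
        have e : ∑ i' : {i' // i' ≠ i}, NTree_cost (n * ((n + 1) * n)) ((ν i'.1).pull π).r =
            ∑ i' : {i' // i' ≠ i}, NTree_cost (n * ((n + 1) * n)) (ν i'.1).r := rfl
        rw [e]
        omega
      · calc c * k * c ^ s' = k * c ^ (s' + 1) := by ring
          _ ≤ kf := hkc
      · have e : Fintype.card {i' // i' ≠ i} ≤ Fintype.card N := Fintype.card_subtype_le _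
        rw [Fintype.card_sum, Fintype.card_prod, Fintype.card_prod, Fintype.card_fin,
          Fintype.card_fin]
        rw [Nat.mul_succ] at hN
        omega
      · calc Fintype.card J' * Mb ^ s' ≤ Fintype.card J * Mb * Mb ^ s' :=
              Nat.mul_le_mul_right _ (hcard.trans (Nat.mul_le_mul_left _ (hM r hrβ)))
          _ = Fintype.card J * Mb ^ (s' + 1) := by ring
          _ ≤ Mf := hJ
      · rintro (i' | c')
        · exact (hI i'.1).pull hrel
        · have h2 := (hch c').1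
          rw [hRt, hX] at h2
          simp only [Sum.elim_inr, hchr]
          exact h2
      · intro x
        obtain ⟨j, hj⟩ := hcov (π x)
        by_cases hji : j = i
        · subst hji
          rw [hr, pow_succ] at hj
          have hpos : 0 < 2 ^ r * R₀ := Nat.mul_pos (pow_pos two_pos r) hR
          have e : 2 ^ r * 2 * R₀ = 2 * (2 ^ r * R₀) := by ring
          obtain ⟨c', hc'⟩ := hcov' x (by omega)
          refine ⟨Sum.inr c', ?_⟩
          simp only [Sum.elim_inr, hchr]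
          omega
        · exact ⟨Sum.inl ⟨j, hji⟩, hj⟩
  intro J _ _ F ν A B hF hJ hI hcov hAB hBA hA hB
  refine key (NTree_cost (n * ((n + 1) * n)) β) J Unit F (fun _ => ν) 1 A B hF one_pos ?_ ?_ ?_
    hJ (fun _ => hI) (fun x => ⟨(), ?_⟩) hAB hBA hA hB
  · rw [Fintype.sum_unique]
    exact NTree_mono _ hI.rle
  · rw [one_mul, hkf]
  · rw [Fintype.card_unit, hNf]
  · exact (Nat.mul_le_mul_right _ (Nat.pow_le_pow_right two_pos hI.rle)).trans (hcov x)

end Pool.Agent.MP_f7db47_al.GN
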