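import Mathlib

/-!
Colour reduction.
-/

namespace Pool.Agent.MP_f7db47_al.GN

open Classical in
/-- the first bit where two numbers differ, with the value of the bit -/
noncomputable def WCVg (L a b : ℕ) : ℕ :=
  if h : ∃ i, i < L ∧ a.testBit i ≠ b.testBit i then
    2 * Nat.find h + (if a.testBit (Nat.find h) then 1 else 0) + 1 else 0

lemma WCV_lt (L a b : ℕ) : WCVg L a b < 2 * L + 1 := by
  unfold WCVg
  split_ifs with h h'
  · have := (Nat.find_spec h).1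
    omega
  · have := (Nat.find_spec h).1
    omega
  · omega

lemma WCV_inj {L a b d : ℕ} (ha : a < 2 ^ L) (hb : b < 2 ^ L) (h : WCVg L a b = WCVg L b d) :
    a = b := by
  classical
  by_contra hne
  have h1 : ∃ i, i < L ∧ a.testBit i ≠ b.testBit i := by
    by_contra! h2
    refine hne (Nat.eq_of_testBit_eq fun i => ?_)
    by_cases hi : i < L
    · exact h2 i hi
    · have h3 : 2 ^ L ≤ 2 ^ i := Nat.pow_le_pow_right two_pos (not_lt.1 hi)
      rw [Nat.testBit_eq_false_of_lt (ha.trans_le h3), Nat.testBit_eq_false_of_lt (hb.trans_le h3)]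
  have h4 := (Nat.find_spec h1).2
  unfold WCVg at h
  rw [dif_pos h1] at h
  by_cases h2 : ∃ i, i < L ∧ b.testBit i ≠ d.testBit i
  · rw [dif_pos h2] at h
    have h5 : Nat.find h1 = Nat.find h2 := by split_ifs at h <;> omega
    rw [← h5] at h
    apply h4
    cases ha' : a.testBit (Nat.find h1) <;> cases hb' : b.testBit (Nat.find h1) <;>
      simp [ha', hb'] at h ⊢
  · rw [dif_neg h2] at h
    omega

lemma WCV_big (C D e : ℕ) : ∃ y, e < y ∧ C * y ^ D ≤ 2 ^ y := by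
  have h := tendsto_pow_const_div_const_pow_of_one_lt D (r := 2) one_lt_two
  have h1 := h.eventually (gt_mem_nhds (show (0 : ℝ) < 1 / (C + 1) by positivity))
  obtain ⟨y, h2, h3⟩ := (h1.and (Filter.eventually_gt_atTop e)).exists
  refine ⟨y, h3, ?_⟩
  rw [div_lt_div_iff₀ (by positivity) (by positivity)] at h2
  have h4 : (0 : ℝ) ≤ (y : ℝ) ^ D := by positivity
  have h5 : (C : ℝ) * (y : ℝ) ^ D ≤ 2 ^ y := by nlinarith
  exact_mod_cast h5

theorem cv_step (ι : Type) [Fintype ι] (A L : ℕ) :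
    ∃ Φ : ((ι → ℤ) → ℕ) → (ι → ℤ) → ℕ,
      (∀ c x, Φ c x < (2 * L + 1) ^ (2 * A + 1) ^ Fintype.card ι) ∧
      (∀ c x y, c x < 2 ^ L → c y < 2 ^ L → (∀ τ, |x τ - y τ| ≤ (A : ℤ)) → Φ c x = Φ c y →
        c x = c y) ∧
      ∀ c c' x x', (∀ y : ι → ℤ, (∀ τ, |y τ| ≤ (A : ℤ)) → c (x + y) = c' (x' + y)) →
        Φ c x = Φ c' x' := by
  classical
  let e : ((ι → ℤ) → ℕ) → (ι → ℤ) → (ι → Finset.Icc (-(A : ℤ)) A) → Fin (2 * L + 1) :=
    fun c x z => ⟨WCVg L (c x) (c (x + fun τ => (z τ).1)), WCV_lt _ _ _⟩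
  refine ⟨fun c x => (Fintype.equivFin _ (e c x)).1, fun c x => ?_, fun c x y hx hy hA h => ?_,
    fun c c' x x' h => ?_⟩
  · refine (Fintype.equivFin _ (e c x)).2.trans_eq ?_
    have : ((A : ℤ) + 1 - -(A : ℤ)).toNat = 2 * A + 1 := by omega
    simp only [Fintype.card_pi, Finset.prod_const, Finset.card_univ, Fintype.card_fin,
      Fintype.card_coe, Int.card_Icc, this]
  · have h1 : e c x = e c y := (Fintype.equivFin _).injective (Fin.ext h)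
    have h2 := congrArg Fin.val (congrFun h1 fun τ => ⟨y τ - x τ, by
      have := abs_le.1 (hA τ)
      rw [Finset.mem_Icc]
      omega⟩)
    have h3 : (x + fun τ => y τ - x τ) = y := by
      funext τ
      simp
    simp only [e, h3] at h2
    exact WCV_inj hx hy h2
  · have h1 : e c x = e c' x' := by
      funext z
      have h0 := h 0 fun τ => by simp
      rw [add_zero, add_zero] at h0
      have h2 := h (fun τ => (z τ).1) fun τ => abs_le.2 (Finset.mem_Icc.1 (z τ).2)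
      simp only [e, h0, h2]
    simp only [h1]

theorem cv_num (β D c K : ℕ) : ∃ X L₀ L₁ L₂ : ℕ,
    2 ^ 2 ^ (c * (X + 1)) * (2 * X + 1) ^ β ≤ 2 ^ L₀ ∧ (2 * L₀ + 1) ^ D ≤ 2 ^ L₁ ∧
      (2 * L₁ + 1) ^ D ≤ 2 ^ L₂ ∧ K * (2 * L₂ + 1) ^ D + K ≤ X := by
  obtain ⟨e, he⟩ : ∃ e, e = 2 * D * (2 * c + 2 * β + 7) + 1 := ⟨_, rfl⟩
  obtain ⟨y, hy, hy'⟩ := WCV_big (K * (4 * D + 1) ^ D + K) D e
  obtain ⟨X, hX⟩ : ∃ X, X = 2 ^ y := ⟨_, rfl⟩
  have hX1 : 1 ≤ X := by rw [hX]; exact Nat.one_le_two_pow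
  obtain ⟨P, hP⟩ : ∃ P, P = (c + β + 2) * (X + 1) := ⟨_, rfl⟩
  refine ⟨X, 2 ^ (c * (X + 1)) + (2 * X + 1) * β, (P + 3) * D, (y + e) * D, ?_, ?_, ?_, ?_⟩
  · rw [pow_add, pow_mul 2 (2 * X + 1)]
    exact Nat.mul_le_mul_left _ (Nat.pow_le_pow_left Nat.lt_two_pow_self.le _)
  · rw [pow_mul 2 (P + 3)]
    refine Nat.pow_le_pow_left ?_ _
    have h1 : 2 ^ (c * (X + 1)) ≤ 2 ^ P := Nat.pow_le_pow_right two_pos (by rw [hP]; nlinarith)
    have h2 : (2 * X + 1) * β ≤ 2 ^ P := by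
      have a1 : X < 2 ^ X := Nat.lt_two_pow_self
      have a2 : β < 2 ^ β := Nat.lt_two_pow_self
      calc (2 * X + 1) * β ≤ 2 ^ (X + 1) * 2 ^ β :=
            Nat.mul_le_mul (by rw [pow_succ]; omega) a2.le
        _ = 2 ^ (X + 1 + β) := (pow_add _ _ _).symm
        _ ≤ 2 ^ P := Nat.pow_le_pow_right two_pos (by rw [hP]; nlinarith)
    have h3 : 1 ≤ 2 ^ P := Nat.one_le_two_pow
    rw [pow_add]
    omega
  · rw [pow_mul 2 (y + e)]
    refine Nat.pow_le_pow_left ?_ _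
    have h1 : P + 3 ≤ (2 * c + 2 * β + 7) * X := by rw [hP]; nlinarith
    have h2 : e < 2 ^ e := Nat.lt_two_pow_self
    rw [pow_add, ← hX]
    calc 2 * ((P + 3) * D) + 1 ≤ 2 * ((2 * c + 2 * β + 7) * X * D) + X := by gcongr
      _ = X * e := by rw [he]; ring
      _ ≤ X * 2 ^ e := Nat.mul_le_mul_left _ h2.le
  · have h1 : 2 * ((y + e) * D) + 1 ≤ (4 * D + 1) * y := by nlinarith
    have h2 : 1 ≤ y ^ D := Nat.one_le_pow _ _ (by omega)
    rw [hX]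
    refine le_trans ?_ hy'
    calc K * (2 * ((y + e) * D) + 1) ^ D + K ≤ K * ((4 * D + 1) * y) ^ D + K * y ^ D := by
          gcongr
          exact Nat.le_mul_of_pos_right _ h2
      _ = (K * (4 * D + 1) ^ D + K) * y ^ D := by rw [mul_pow]; ring

theorem cv (ι : Type) [Fintype ι] (A c K : ℕ) : ∃ X n : ℕ, K * n + K ≤ X ∧
    ∃ Φ : ((ι → ℤ) → ℕ) → (ι → ℤ) → ℕ, (∀ f x, Φ f x < n) ∧
      (∀ f x y, f x < 2 ^ 2 ^ (c * (X + 1)) * (2 * X + 1) ^ Fintype.card ι →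
        f y < 2 ^ 2 ^ (c * (X + 1)) * (2 * X + 1) ^ Fintype.card ι →
        (∀ τ, |x τ - y τ| ≤ (A : ℤ)) → Φ f x = Φ f y → f x = f y) ∧
      ∀ f f' x x', (∀ y : ι → ℤ, (∀ τ, |y τ| ≤ ((3 * A : ℕ) : ℤ)) → f (x + y) = f' (x' + y)) →
        Φ f x = Φ f' x' := by
  obtain ⟨X, L₀, L₁, L₂, h0, h1, h2, h3⟩ :=
    cv_num (Fintype.card ι) ((2 * A + 1) ^ Fintype.card ι) c K
  obtain ⟨Φ₀, a0, b0, c0⟩ := cv_step ι A L₀
  obtain ⟨Φ₁, a1, b1, c1⟩ := cv_step ι A L₁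
  obtain ⟨Φ₂, a2, b2, c2⟩ := cv_step ι A L₂
  refine ⟨X, _, h3, fun f => Φ₂ (Φ₁ (Φ₀ f)), fun f x => a2 _ _, fun f x y hx hy hA h => ?_,
    fun f f' x x' h => ?_⟩
  · exact b0 _ _ _ (hx.trans_le h0) (hy.trans_le h0) hA
      (b1 _ _ _ ((a0 _ _).trans_le h1) ((a0 _ _).trans_le h1) hA
        (b2 _ _ _ ((a1 _ _).trans_le h2) ((a1 _ _).trans_le h2) hA h))
  · refine c2 _ _ _ _ fun u hu => c1 _ _ _ _ fun v hv => c0 _ _ _ _ fun w hw => ?_
    simp only [add_assoc]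
    refine h _ fun τ => ?_
    have e1 := abs_le.1 (hu τ)
    have e2 := abs_le.1 (hv τ)
    have e3 := abs_le.1 (hw τ)
    simp only [Pi.add_apply, abs_le]
    push_cast
    omega

end Pool.Agent.MP_f7db47_al.GN
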