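import Pool.Agent.MP_f7db47_al.GN.DN
import Pool.Agent.MP_f7db47_al.GN.WCV
import Pool.Agent.MP_f7db47_al.PT.Mark

/-!
Invariant marks in windows.
-/

namespace Pool.Agent.MP_f7db47_al.GN

theorem WMark_code {P : Type} (s : Setoid P) (B : Finset P) (N : ℕ) (h : B.card ≤ N) :
    ∃ c : P → ℕ, (∀ p p', s p p' → c p = c p') ∧ (∀ p ∈ B, c p < N) ∧
      ∀ p ∈ B, ∀ p' ∈ B, c p = c p' → s p p' := by
  classical
  let B' := B.image (Quotient.mk s)
  have hm : ∀ p ∈ B, Quotient.mk s p ∈ B' := fun p hp => Finset.mem_image_of_mem _ hp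
  let f : Quotient s → ℕ := fun a => if h : a ∈ B' then (B'.equivFin ⟨a, h⟩ : ℕ) else 0
  refine ⟨fun p => f (Quotient.mk s p), fun p p' e => congrArg f (Quotient.sound e),
    fun p hp => ?_, fun p hp p' hp' e => ?_⟩
  · simp only [f, dif_pos (hm p hp)]
    exact (B'.equivFin _).2.trans_le (Finset.card_image_le.trans h)
  · simp only [f, dif_pos (hm p hp), dif_pos (hm p' hp')] at e
    exact Quotient.exact (congrArg Subtype.val (B'.equivFin.injective (Fin.ext e)))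

/-- Windows that differ by an element of the group. -/
def WMark_rel {β : ℕ} (S : ℕ) (G : Type) [Group G] {Ω : Type} [MulAction G Ω] {J : Type}
    (ω : J → (Fin β → ℤ) → Ω) : Setoid (J × (Fin β → ℤ)) where
  r p p' := ∃ γ : G, ∀ w, Bx S w → ω p'.1 (p'.2 + w) = γ • ω p.1 (p.2 + w)
  iseqv := by
    refine ⟨fun p => ⟨1, fun w _ => (one_smul _ _).symm⟩, ?_, ?_⟩
    · rintro p p' ⟨γ, h⟩
      exact ⟨γ⁻¹, fun w hw => by rw [h w hw, inv_smul_smul]⟩
    · rintro p p' p'' ⟨γ, h⟩ ⟨γ', h'⟩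
      exact ⟨γ' * γ, fun w hw => by rw [h' w hw, h w hw, mul_smul]⟩

theorem WMark_add {κ : Type} {a b : ℕ} {x y : κ → ℤ} (hx : Bx a x) (hy : Bx b y) :
    Bx (a + b) (x + y) := fun i => by
  have := abs_add_le (x i) (y i)
  have := hx i
  have := hy i
  simp only [Pi.add_apply]
  push_cast
  linarith

theorem WMark_mono {κ : Type} {a b : ℕ} {x : κ → ℤ} (hx : Bx a x) (h : a ≤ b) : Bx b x :=
  fun i => (hx i).trans (by exact_mod_cast h)

theorem wmark (β t S D : ℕ) : ∀ c : ℕ, ∃ X : ℕ, D + S ≤ X ∧ ∀ (G : Type) [Group G] (Ω : Type)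
    [MulAction G Ω] (J : Type) [Fintype J], Fintype.card J ≤ 2 ^ 2 ^ (c * (X + 1)) →
    ∀ ω : J → (Fin β → ℤ) → Ω, ∃ M : Fin (9 ^ β + 1) → J → (Fin β → ℤ) → Prop,
      (∀ j, ∃ q x, M q j x ∧ Bx t x) ∧
      (∀ q j x y, M q j x → M q j y → Bx D x → Bx D y → Bx (4 * t) (x - y) →
        ∃ γ : G, ∀ w, Bx S w → ω j (y + w) = γ • ω j (x + w)) ∧
      ∀ j j' (γ : G) δ, (∀ v, Bx X v → Bx X (v + δ) → ω j v = γ • ω j' (v + δ)) →
        ∀ q x, Bx D x → Bx D (x + δ) → (M q j x ↔ M q j' (x + δ)) := by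
  intro c
  obtain ⟨X, n, hX, Φ, p1, p2, p3⟩ :=
    cv (Fin β) (4 * t) c ((9 ^ β + 1) * (4 * t) + D + 3 * (4 * t) + S)
  obtain ⟨Mark, -, m2, m3, m4⟩ := PT.exists_marks (Fin β) t (4 * t) 4 n le_rfl (by omega)
  rw [Fintype.card_fin] at p2 m3
  have hDX : D + S ≤ X := by omega
  refine ⟨X, hDX, fun G _ Ω _ J _ hJ ω => ?_⟩
  classical
  obtain ⟨c0, c1, c2, c3⟩ := WMark_code (WMark_rel S G ω)
    (Finset.univ ×ˢ Fintype.piFinset fun _ : Fin β => Finset.Icc (-(X : ℤ)) X)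
    (2 ^ 2 ^ (c * (X + 1)) * (2 * X + 1) ^ β) (by
      rw [Finset.card_product, Finset.card_univ, Fintype.card_piFinset]
      simp only [Int.card_Icc, Finset.prod_const, Finset.card_univ, Fintype.card_fin]
      rw [show ((X : ℤ) + 1 - -(X : ℤ)).toNat = 2 * X + 1 by omega]
      exact Nat.mul_le_mul_right _ hJ)
  have hB : ∀ (j : J) (x : Fin β → ℤ), Bx D x →
      (j, x) ∈ Finset.univ ×ˢ Fintype.piFinset fun _ : Fin β => Finset.Icc (-(X : ℤ)) X :=
    fun j x hx => Finset.mem_product.2 ⟨Finset.mem_univ _, Fintype.mem_piFinset.2 fun i =>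
      Finset.mem_Icc.2 (abs_le.1 (WMark_mono hx (by omega) i))⟩
  refine ⟨fun q j x => Mark (Φ fun v => c0 (j, v)) q x, fun j => ?_,
    fun q j x y hx hy bx by' hxy => ?_, fun j j' γ δ h q x bx bδ => ?_⟩
  · obtain ⟨q, hq, y, hy, hy'⟩ := m3 (Φ fun v => c0 (j, v)) 0 (p1 _ _)
    exact ⟨⟨q, hq⟩, y, hy, fun i => by simpa using hy' i⟩
  · exact c3 _ (hB j x bx) _ (hB j y by') (p2 (fun v => c0 (j, v)) x y (c2 _ (hB j x bx))
      (c2 _ (hB j y by')) hxy (m2 _ _ _ _ hx hy hxy))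
  · refine m4 _ _ _ _ _ fun y hy => p3 _ _ _ _ fun z hz => (c1 _ _ ⟨γ, fun w hw => ?_⟩).symm
    have hq : ((q : ℕ) + 1) * n * (4 * t) ≤ (9 ^ β + 1) * (4 * t) * n := by
      rw [mul_right_comm]
      exact Nat.mul_le_mul_right _ (Nat.mul_le_mul_right _ q.2)
    have hle : D + ((q : ℕ) + 1) * n * (4 * t) + 3 * (4 * t) + S ≤ X := by
      rw [add_mul, add_mul, add_mul] at hX
      omega
    have e : x + y + z + w + δ = x + δ + y + z + w := by abel
    have := h (x + y + z + w) (WMark_mono (WMark_add (WMark_add (WMark_add bx hy) hz) hw) hle)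
      (e ▸ WMark_mono (WMark_add (WMark_add (WMark_add bδ hy) hz) hw) hle)
    rwa [e] at this

end Pool.Agent.MP_f7db47_al.GN
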